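import Pool.Agent.Hhelper20.CS.Hyp8

open TensorProduct

namespace Pool.Agent.Hhelper20.CS

namespace Hyp

variable {F : Type} [Field F] [Algebra ℂ F] {m : ℕ} (h : Hyp F m)

/-- Elements lying in both charts are constants. -/
theorem eq_const (hm : 0 < m) {z : F} (h0 : z ∈ h.U) (h1 : z ∈ h.swap.U) :
    ∃ c : ℂ, z = algebraMap ℂ F c := by
  have h2 : z ∈ Sp h.lb (A0 ∩ A1 m 0) := by
    rw [Sp_inter h.lb_indep, ← h.toSubmodule_U, ← h.toSubmodule_swap_U']
    exact ⟨h0, h1⟩
  have e : (A0 ∩ A1 m 0) = {Sum.inl 0} := by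
    have := inter_eq (m := m) 0 hm
    have h2 : ((0 : ℕ) : ℤ) = 0 := rfl
    rw [h2] at this
    rw [this]
    simp
  have l0 : h.lb (Sum.inl 0) = 1 := by simp [lb]
  rw [e, Sp, Set.image_singleton, l0, Submodule.mem_span_singleton] at h2
  obtain ⟨c, hc⟩ := h2
  exact ⟨c, by rw [← hc, Algebra.smul_def, mul_one]⟩

theorem phi_mul (R : Matrix (Fin 5) (Fin 5) ℂ) (j : Fin 5) :
    h.phi (fun a => (h.S0 * R.map (algebraMap ℂ F)) a j) = 0 := by
  have e : (fun a => (h.S0 * R.map (algebraMap ℂ F)) a j) =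
      ∑ i, R i j • (fun a => h.S0 a i) := by
    funext a
    simp only [Matrix.mul_apply, Matrix.map_apply, Finset.sum_apply, Pi.smul_apply,
      Algebra.smul_def]
    exact Finset.sum_congr rfl fun i _ => mul_comm _ _
  rw [e, map_sum]
  refine Finset.sum_eq_zero fun i _ => ?_
  rw [map_smul, h.phi_S0, smul_zero]

theorem phi_lmul (β : Matrix (Fin 2) (Fin 2) ℂ) (j : Fin 5) :
    h.phi (fun a => (β.map (algebraMap ℂ F) * h.S0) a j) =
      ![β 1 0, 0, β 0 1, 0, β 0 0 - β 1 1] j := by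
  rw [h.phi_apply]
  simp only [Matrix.mul_apply, Matrix.map_apply, Fin.sum_univ_two,
    Algebra.algebraMap_eq_smul_one, smul_mul_assoc, one_mul, map_add, map_smul]
  fin_cases j <;> simp [S0, co_x, co_x2, co_1, sub_eq_add_neg]

theorem phi_const (c : Matrix (Fin 2) (Fin 5) ℂ) (j : Fin 5) :
    h.phi (fun a => algebraMap ℂ F (c a j)) = c 0 j := by
  rw [h.phi_apply]
  simp [Algebra.algebraMap_eq_smul_one, co_1]

theorem S0_mul_eq_zero {M : Matrix (Fin 5) (Fin 5) ℂ} (hM : h.S0 * M.map (algebraMap ℂ F) = 0) :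
    M = 0 := by
  ext i j
  have h1 := Fintype.linearIndependent_iff.1 h.S0_indep (fun i => M i j) (by
    funext a
    have h2 := congrFun (congrFun hM a) j
    simp only [Matrix.mul_apply, Matrix.map_apply] at h2
    simp only [Finset.sum_apply, Pi.smul_apply, Algebra.smul_def]
    rw [Pi.zero_apply]
    refine Eq.trans ?_ h2
    exact Finset.sum_congr rfl fun i _ => mul_comm _ _)
  exact h1 i

/-- Nearby members of the family are not isomorphic. -/
theorem fam_iso {B : Type} [CommRing B] [Algebra ℂ B] (ρ : B →ₐ[ℂ] ℂ) (l : B →ₗ[ℂ] ℂ)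
    (hl : IsTan ρ l) (hm : 0 < m) (s t s' t' : B) (hs : ρ s = 0) (ht : ρ t = 0)
    (hs' : ρ s' = 0) (ht' : ρ t' = 0)
    (hi : CohSys.Iso (h.fam hm s t) (h.fam hm s' t')) : l s = l s' ∧ l t = l t' := by
  obtain ⟨u0, u1, P, g0, g1, hg, hs0, -⟩ := hi
  have hx2 : h.x ^ (2 : ℤ) ≠ 0 := zpow_ne_zero _ h.x_ne
  -- the two frame changes agree
  have hgab : ∀ a b, (1 : B) ⊗ₜ[ℂ] (h.x ^ (2 : ℤ)) * u1.val a b =
      u0.val a b * (1 : B) ⊗ₜ[ℂ] (h.x ^ (2 : ℤ)) := by
    intro a b
    have h1 := congrArg (fun M : Matrix (Fin 2) (Fin 2) (B ⊗[ℂ] F) => M a b) hg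
    simp only [Matrix.mul_apply, Fin.sum_univ_two, h.fam_g] at h1
    fin_cases a <;> fin_cases b <;> simpa using h1
  have hA : ∀ a b, ev ρ (u0.val a b) = ev ρ (u1.val a b) := by
    intro a b
    have h1 := congrArg (ev ρ) (hgab a b)
    simp only [map_mul, ev_tmul, map_one, one_smul] at h1
    rw [mul_comm (h.x ^ (2 : ℤ))] at h1
    exact (mul_right_cancel₀ hx2 h1).symm
  have hB : ∀ a b, Dl l (u0.val a b) = Dl l (u1.val a b) := by
    intro a b
    have h1 := congrArg (Dl l) (hgab a b)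
    simp only [Dl_mul hl, ev_tmul, Dl_tmul, map_one, one_smul, hl.one, zero_smul,
      zero_mul, mul_zero, add_zero, zero_add] at h1
    rw [mul_comm (h.x ^ (2 : ℤ))] at h1
    exact (mul_right_cancel₀ hx2 h1).symm
  have hα : ∀ a b, ∃ c : ℂ, ev ρ (u0.val a b) = algebraMap ℂ F c := by
    intro a b
    exact h.eq_const hm (ev_mem ρ (g0.1 a b)) (by rw [hA a b]; exact ev_mem ρ (g1.1 a b))
  have hβ : ∀ a b, ∃ c : ℂ, Dl l (u0.val a b) = algebraMap ℂ F c := by
    intro a b
    exact h.eq_const hm (Dl_mem l (g0.1 a b)) (by rw [hB a b]; exact Dl_mem l (g1.1 a b))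
  choose α hα using hα
  choose β hβ using hβ
  have Eα : u0.val.map (ev ρ) = (Matrix.of α).map (algebraMap ℂ F) := by
    ext a b; exact hα a b
  have Eβ : u0.val.map (Dl l) = (Matrix.of β).map (algebraMap ℂ F) := by
    ext a b; exact hβ a b
  have cfst : ∀ s t : B, ρ s = 0 → ρ t = 0 → ∀ a j, ρ (cM s t a j) = 0 := by
    intro s t hs ht a j
    have h1 := cM_map ρ.toRingHom s t a j
    have e1 : ρ.toRingHom s = 0 := hs
    have e2 : ρ.toRingHom t = 0 := ht
    rw [e1, e2, cM_zero] at h1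
    exact h1
  have csnd : ∀ s t : B, ∀ a j, l (cM s t a j) = cM (l s) (l t) a j := by
    intro s t a j
    fin_cases a <;> fin_cases j <;> simp [cM]
  have ES : ∀ s t : B, ρ s = 0 → ρ t = 0 → (h.fam hm s t).s0.map (ev ρ) = h.S0 := by
    intro s t hs ht
    ext a j
    rw [Matrix.map_apply, h.fam_s0, map_add, ev_tmul, ev_inL, cfst s t hs ht, map_one, one_smul,
      map_zero, add_zero]
  have ED : ∀ s t : B, (h.fam hm s t).s0.map (Dl l) = (cM (l s) (l t)).map (algebraMap ℂ F) := by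
    intro s t
    ext a j
    rw [Matrix.map_apply, h.fam_s0, map_add, Dl_tmul, Dl_inL, hl.one, zero_smul, zero_add, csnd]
    rfl
  let P0 : Matrix (Fin 5) (Fin 5) ℂ := P.val.map ρ
  let P1 : Matrix (Fin 5) (Fin 5) ℂ := P.val.map l
  let R : Matrix (Fin 5) (Fin 5) ℂ := (P⁻¹).val.map ρ
  have hPR : P0 * R = 1 := by
    have h1 := congrArg (fun M : Matrix _ _ _ => M.map ρ) (P.mul_inv)
    simp only [Matrix.map_mul, Matrix.map_one _ (map_zero ρ) (map_one ρ)] at h1
    exact h1
  have EP0 : (P.val.map (inL F B)).map (ev ρ) = P0.map (algebraMap ℂ F) := by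
    ext i j
    exact ev_inL ρ _
  have EP1 : (P.val.map (inL F B)).map (Dl l) = P1.map (algebraMap ℂ F) := by
    ext i j
    exact Dl_inL l _
  -- zeroth order
  have Z0 := congrArg (fun M : Matrix _ _ _ => M.map (ev ρ)) hs0
  simp only [Matrix.map_mul] at Z0
  rw [ES _ _ hs' ht', ES _ _ hs ht, Eα, EP0] at Z0
  -- first order
  have Z1 := congrArg (fun M : Matrix _ _ _ => M.map (Dl l)) hs0
  simp only [map_Dl_mul hl, Matrix.map_mul] at Z1
  rw [ED, ED, ES _ _ hs ht, Eα, Eβ, EP0, EP1] at Z1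
  have hPR' : P0.map (algebraMap ℂ F) * R.map (algebraMap ℂ F) = 1 := by
    rw [← Matrix.map_mul, hPR, Matrix.map_one _ (map_zero _) (map_one _)]
  have Z0' : h.S0 * R.map (algebraMap ℂ F) = (Matrix.of α).map (algebraMap ℂ F) * h.S0 := by
    conv_lhs => rw [Z0]
    rw [Matrix.mul_assoc, hPR', Matrix.mul_one]
  have a10 : α 1 0 = 0 := by
    have h1 := h.phi_lmul (Matrix.of α) 0
    rw [← Z0', h.phi_mul] at h1
    simpa using h1.symm
  have a01 : α 0 1 = 0 := by
    have h1 := h.phi_lmul (Matrix.of α) 2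
    rw [← Z0', h.phi_mul] at h1
    simpa using h1.symm
  have a00 : α 1 1 = α 0 0 := by
    have h1 := h.phi_lmul (Matrix.of α) 4
    rw [← Z0', h.phi_mul] at h1
    have h2 : 0 = α 0 0 - α 1 1 := by simpa using h1
    linear_combination h2
  have hαs : (Matrix.of α) = Matrix.scalar (Fin 2) (α 0 0) := by
    ext a b
    fin_cases a <;> fin_cases b <;> simp [a10, a01, a00]
  have hαF : ∀ {q : ℕ} (M : Matrix (Fin 2) (Fin q) F),
      (Matrix.of α).map (algebraMap ℂ F) * M = algebraMap ℂ F (α 0 0) • M := by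
    intro q M
    rw [hαs, Matrix.scalar_apply, Matrix.diagonal_map (map_zero _)]
    ext a b
    rw [Matrix.diagonal_mul, Matrix.smul_apply, smul_eq_mul]
  have hR : R = α 0 0 • (1 : Matrix (Fin 5) (Fin 5) ℂ) := by
    have h1 : h.S0 * (R - α 0 0 • (1 : Matrix (Fin 5) (Fin 5) ℂ)).map (algebraMap ℂ F) = 0 := by
      have h2 : (R - α 0 0 • (1 : Matrix (Fin 5) (Fin 5) ℂ)).map (algebraMap ℂ F) =
          R.map (algebraMap ℂ F) - algebraMap ℂ F (α 0 0) • 1 := by
        ext i j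
        by_cases hij : i = j
        · simp only [hij, Matrix.map_apply, Matrix.sub_apply, Matrix.smul_apply,
            Matrix.one_apply_eq, smul_eq_mul, mul_one, map_sub]
        · simp [hij]
      rw [h2, Matrix.mul_sub, Z0', hαF, Matrix.mul_smul, Matrix.mul_one, sub_self]
    exact sub_eq_zero.1 (h.S0_mul_eq_zero h1)
  have hp : α 0 0 ≠ 0 := by
    intro h0
    rw [h0, zero_smul] at hR
    rw [hR, Matrix.mul_zero] at hPR
    have := congrFun (congrFun hPR 0) 0
    simp at this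
  -- multiply the first order relation by `R`
  have Z1' : algebraMap ℂ F (α 0 0) • (cM (l s') (l t')).map (algebraMap ℂ F) =
      h.S0 * (α 0 0 • (P1 * R)).map (algebraMap ℂ F) +
      (algebraMap ℂ F (α 0 0) • (cM (l s) (l t)).map (algebraMap ℂ F) +
        (Matrix.of β).map (algebraMap ℂ F) * h.S0) := by
    have h1 := congrArg (fun M => M * R.map (algebraMap ℂ F)) Z1
    have h2 : R.map (algebraMap ℂ F) = algebraMap ℂ F (α 0 0) • 1 := by
      rw [hR]
      ext i j
      by_cases hij : i = j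
      · simp [hij]
      · simp [hij]
    have h3 : (α 0 0 • (P1 * R)).map (algebraMap ℂ F) =
        algebraMap ℂ F (α 0 0) • (P1.map (algebraMap ℂ F) * R.map (algebraMap ℂ F)) := by
      rw [← Matrix.map_mul]
      ext i j
      simp only [Matrix.map_apply, Matrix.smul_apply, smul_eq_mul, map_mul]
    simp only [Matrix.add_mul, Matrix.mul_assoc] at h1
    rw [hPR'] at h1
    rw [hαF, hαF, Matrix.mul_one, Matrix.mul_one] at h1
    rw [h3, Matrix.mul_smul, ← h1]
    conv_lhs => rw [← Matrix.mul_one ((cM (l s') (l t')).map (algebraMap ℂ F)), ← Matrix.mul_smul,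
      ← h2]
  have key : ∀ j, α 0 0 * cM (l s') (l t') 0 j = α 0 0 * cM (l s) (l t) 0 j +
      ![β 1 0, 0, β 0 1, 0, β 0 0 - β 1 1] j := by
    intro j
    have h1 := congrArg (fun M : Matrix (Fin 2) (Fin 5) F => h.phi (fun a => M a j)) Z1'
    have e1 : ∀ c : Matrix (Fin 2) (Fin 5) ℂ,
        (fun a => (algebraMap ℂ F (α 0 0) • c.map (algebraMap ℂ F)) a j) =
        fun a => algebraMap ℂ F ((α 0 0 • c) a j) := by
      intro c
      funext a
      simp
    have e2 : (fun a => (h.S0 * (α 0 0 • (P1 * R)).map (algebraMap ℂ F) +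
      (algebraMap ℂ F (α 0 0) • (cM (l s) (l t)).map (algebraMap ℂ F) +
        (Matrix.of β).map (algebraMap ℂ F) * h.S0)) a j) =
        (fun a => (h.S0 * (α 0 0 • (P1 * R)).map (algebraMap ℂ F)) a j) +
        ((fun a => (algebraMap ℂ F (α 0 0) • (cM (l s) (l t)).map (algebraMap ℂ F)) a j) +
        (fun a => ((Matrix.of β).map (algebraMap ℂ F) * h.S0) a j)) := rfl
    change h.phi (fun a => (algebraMap ℂ F (α 0 0) • (cM (l s') (l t')).map (algebraMap ℂ F)) a j) =
      h.phi (fun a => (h.S0 * (α 0 0 • (P1 * R)).map (algebraMap ℂ F) +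
      (algebraMap ℂ F (α 0 0) • (cM (l s) (l t)).map (algebraMap ℂ F) +
        (Matrix.of β).map (algebraMap ℂ F) * h.S0)) a j) at h1
    rw [e2, map_add, map_add, h.phi_mul, e1, e1, h.phi_const, h.phi_const, h.phi_lmul,
      zero_add] at h1
    exact h1
  have k1 : α 0 0 * (l s') = α 0 0 * (l s) := by simpa [cM] using key 1
  have k3 : α 0 0 * (l t') = α 0 0 * (l t) := by simpa [cM] using key 3
  exact ⟨(mul_left_cancel₀ hp k1).symm, (mul_left_cancel₀ hp k3).symm⟩

end Hyp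

end Pool.Agent.Hhelper20.CS
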