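import Pool.Agent.Hhelper20.CS.Hyp1

open Polynomial

namespace Pool.Agent.Hhelper20.CS

namespace Hyp

/-- The polynomial `x ^ (2 m) + 1` as a rational function. -/
noncomputable def fR (m : ℕ) : RatFunc ℂ := algebraMap ℂ[X] (RatFunc ℂ) (f m)

theorem fR_ne_sq {m : ℕ} (hm : 0 < m) (r : RatFunc ℂ) : r ^ 2 ≠ fR m := by
  intro hr
  have hint : IsIntegral ℂ[X] r := by
    refine ⟨X ^ 2 - C (f m), monic_X_pow_sub_C _ (by norm_num), ?_⟩
    rw [eval₂_sub, eval₂_pow, eval₂_X, eval₂_C, hr]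
    exact sub_self _
  obtain ⟨p, rfl⟩ := (IsIntegrallyClosed.isIntegral_iff (K := RatFunc ℂ)).1 hint
  have h1 : p ^ 2 = f m := by
    apply IsFractionRing.injective ℂ[X] (RatFunc ℂ)
    rw [map_pow, hr]
    rfl
  have h2 : IsUnit p := squarefree_f hm p (by rw [← h1, sq])
  have h3 : IsUnit (f m) := by rw [← h1]; exact h2.pow 2
  have h4 := natDegree_eq_zero_of_isUnit h3
  have h5 : (f m).natDegree = 2 * m := by
    rw [f, ← C_1]
    exact natDegree_X_pow_add_C
  omega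

/-- The minimal polynomial of `y`. -/
noncomputable def py (m : ℕ) : (RatFunc ℂ)[X] := X ^ 2 - C (fR m)

theorem py_irreducible {m : ℕ} (hm : 0 < m) : Irreducible (py m) :=
  (X_pow_sub_C_irreducible_iff_of_prime Nat.prime_two).2 (fR_ne_sq hm)

theorem py_natDegree (m : ℕ) : (py m).natDegree = 2 := natDegree_X_pow_sub_C

theorem eval₂_py {R : Type} [CommRing R] (m : ℕ) (i : RatFunc ℂ →+* R) (x : R) :
    eval₂ i x (py m) = x ^ 2 - i (fR m) := by
  rw [py, eval₂_sub, eval₂_pow, eval₂_X, eval₂_C]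

theorem root_sq (m : ℕ) : AdjoinRoot.root (py m) ^ 2 = AdjoinRoot.of (py m) (fR m) := by
  have h := AdjoinRoot.eval₂_root (py m)
  rw [py, eval₂_sub, eval₂_pow, eval₂_X, eval₂_C, sub_eq_zero] at h
  exact h

instance fact_irr (m : ℕ) [hm : Fact (0 < m)] : Fact (Irreducible (py m)) :=
  ⟨py_irreducible hm.out⟩

theorem aeval_of (m : ℕ) (a : ℂ[X]) :
    aeval (AdjoinRoot.of (py m) RatFunc.X) a =
      AdjoinRoot.of (py m) (algebraMap ℂ[X] (RatFunc ℂ) a) := by
  have h1 : aeval (AdjoinRoot.of (py m) RatFunc.X) a =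
      AdjoinRoot.ofAlgHom ℂ (py m) (aeval (RatFunc.X : RatFunc ℂ) a) := by
    rw [← aeval_algHom_apply]
    rfl
  rw [h1]
  have h2 : aeval (RatFunc.X : RatFunc ℂ) a = algebraMap ℂ[X] (RatFunc ℂ) a := by
    rw [← RatFunc.algebraMap_X, aeval_algebraMap_apply, aeval_X_left_apply]
  rw [h2]
  rfl

/-- The hyperelliptic function field of `y ^ 2 = x ^ (2 m) + 1`. -/
noncomputable def model (m : ℕ) [hm : Fact (0 < m)] : Hyp (AdjoinRoot (py m)) m where
  x := AdjoinRoot.of (py m) RatFunc.X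
  y := AdjoinRoot.root (py m)
  σ := AdjoinRoot.liftAlgHom (py m) (AdjoinRoot.ofAlgHom ℂ (py m)) (-AdjoinRoot.root (py m)) (by
    rw [eval₂_py, neg_sq, sub_eq_zero]
    exact root_sq m)
  hy := by
    rw [root_sq, fR, ← aeval_of, f, map_add, map_pow, aeval_X, map_one]
  σx := by
    rw [AdjoinRoot.liftAlgHom_of]
    rfl
  σy := by rw [AdjoinRoot.liftAlgHom_root]
  indep := by
    intro a b hab
    rw [aeval_of, aeval_of] at hab
    have h1 : AdjoinRoot.mk (py m) (C (algebraMap ℂ[X] (RatFunc ℂ) b) * X +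
        C (algebraMap ℂ[X] (RatFunc ℂ) a)) = 0 := by
      rw [map_add, map_mul, AdjoinRoot.mk_C, AdjoinRoot.mk_C, AdjoinRoot.mk_X, add_comm]
      exact hab
    have h2 : C (algebraMap ℂ[X] (RatFunc ℂ) b) * X + C (algebraMap ℂ[X] (RatFunc ℂ) a) = 0 := by
      by_contra hne
      refine AdjoinRoot.mk_ne_zero_of_natDegree_lt (monic_X_pow_sub_C _ (by norm_num)) hne ?_ h1
      change _ < (py m).natDegree
      rw [py_natDegree]
      exact (natDegree_linear_le).trans_lt (by norm_num)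
    have h3 := congrArg (fun p => coeff p 0) h2
    have h4 := congrArg (fun p => coeff p 1) h2
    simp only [coeff_add, coeff_C_mul, coeff_X_zero, mul_zero, coeff_C_zero, zero_add, coeff_zero,
      coeff_X_one, mul_one, coeff_C_succ, add_zero] at h3 h4
    exact ⟨(map_eq_zero_iff _ (IsFractionRing.injective ℂ[X] (RatFunc ℂ))).1 h3,
      (map_eq_zero_iff _ (IsFractionRing.injective ℂ[X] (RatFunc ℂ))).1 h4⟩
  gen := by
    intro z
    obtain ⟨p, rfl⟩ := AdjoinRoot.mk_surjective z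
    have hmon : (py m).Monic := monic_X_pow_sub_C _ (by norm_num)
    obtain ⟨u, v, huv⟩ : ∃ u v, p %ₘ py m = C u * X + C v := by
      apply exists_eq_X_add_C_of_natDegree_le_one
      have := natDegree_modByMonic_lt p hmon (by
        intro h
        have := py_natDegree m
        rw [h, natDegree_one] at this
        omega)
      rw [py_natDegree] at this
      omega
    have h1 : AdjoinRoot.mk (py m) p = AdjoinRoot.mk (py m) (C u * X + C v) := by
      rw [← huv, AdjoinRoot.mk_eq_mk]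
      exact ⟨p /ₘ py m, by rw [modByMonic_eq_sub_mul_div p (py m)]; ring⟩
    obtain ⟨a, c, hc, rfl⟩ := IsFractionRing.div_surjective ℂ[X] u
    obtain ⟨b, d, hd, rfl⟩ := IsFractionRing.div_surjective ℂ[X] v
    have hc0 : c ≠ 0 := nonZeroDivisors.ne_zero hc
    have hd0 : d ≠ 0 := nonZeroDivisors.ne_zero hd
    have hc' : algebraMap ℂ[X] (RatFunc ℂ) c ≠ 0 :=
      (map_ne_zero_iff _ (IsFractionRing.injective ℂ[X] (RatFunc ℂ))).2 hc0
    have hd' : algebraMap ℂ[X] (RatFunc ℂ) d ≠ 0 :=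
      (map_ne_zero_iff _ (IsFractionRing.injective ℂ[X] (RatFunc ℂ))).2 hd0
    refine ⟨b * c, a * d, c * d, mul_ne_zero hc0 hd0, ?_⟩
    rw [h1, aeval_of, aeval_of, aeval_of, map_add, map_mul, AdjoinRoot.mk_C, AdjoinRoot.mk_C,
      AdjoinRoot.mk_X, add_mul, mul_right_comm, ← map_mul, ← map_mul]
    have e1 : algebraMap ℂ[X] (RatFunc ℂ) a / algebraMap ℂ[X] (RatFunc ℂ) c *
        algebraMap ℂ[X] (RatFunc ℂ) (c * d) = algebraMap ℂ[X] (RatFunc ℂ) (a * d) := by
      rw [map_mul, map_mul]; field_simp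
    have e2 : algebraMap ℂ[X] (RatFunc ℂ) b / algebraMap ℂ[X] (RatFunc ℂ) d *
        algebraMap ℂ[X] (RatFunc ℂ) (c * d) = algebraMap ℂ[X] (RatFunc ℂ) (b * c) := by
      rw [map_mul, map_mul]; field_simp
    rw [e1, e2, add_comm]

end Hyp

end Pool.Agent.Hhelper20.CS
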