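import Pool.Agent.Hhelper20.CS.Hyp5

open Polynomial

namespace Pool.Agent.Hhelper20.CS

namespace Hyp

variable {F : Type} [Field F] [Algebra ℂ F] {m : ℕ} (h : Hyp F m)

/-- Clearing denominators, with a polynomial in one given coordinate. -/
theorem exists_poly (S : Submodule F (Fin 2 → F)) {s : Fin 2 → F} (hs : s ∈ S) {a : Fin 2}
    (ha : s a ≠ 0) :
    ∃ e ∈ S, (∀ i, e i ∈ h.U) ∧ ∃ n : ℂ[X], n ≠ 0 ∧ e a = aeval h.x n := by
  obtain ⟨a0, b0, c0, hc0, hz0⟩ := h.gen (s 0)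
  obtain ⟨a1, b1, c1, hc1, hz1⟩ := h.gen (s 1)
  have hcF : aeval h.x (c0 * c1) ≠ 0 := fun e => (mul_ne_zero hc0 hc1) (h.inj e)
  have hU : ∀ i, aeval h.x (c0 * c1) * s i ∈ h.U := by
    intro i
    fin_cases i
    · refine ⟨c1 * a0, c1 * b0, ?_⟩
      simp only [map_mul, Fin.zero_eta]
      linear_combination aeval h.x c1 * hz0
    · refine ⟨c0 * a1, c0 * b1, ?_⟩
      simp only [map_mul, Fin.mk_one]
      linear_combination aeval h.x c0 * hz1
  obtain ⟨p, q, hpq⟩ := hU a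
  have hne : aeval h.x (c0 * c1) * s a ≠ 0 := mul_ne_zero hcF ha
  have hσ : h.σ (aeval h.x (c0 * c1) * s a) = aeval h.x p - aeval h.x q * h.y := by
    rw [hpq, map_add, map_mul, h.σ_aeval, h.σ_aeval, h.σy]; ring
  have hσne : h.σ (aeval h.x (c0 * c1) * s a) ≠ 0 := by
    rw [Ne, map_eq_zero]; exact hne
  have hσU : h.σ (aeval h.x (c0 * c1) * s a) ∈ h.U := by
    rw [hσ]
    exact ⟨p, -q, by rw [map_neg]; ring⟩
  have hprod : h.σ (aeval h.x (c0 * c1) * s a) * (aeval h.x (c0 * c1) * s a) =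
      aeval h.x (p ^ 2 - q ^ 2 * f m) := by
    rw [hσ, hpq, map_sub, map_mul, map_pow, map_pow, h.f_eq]; ring
  refine ⟨(h.σ (aeval h.x (c0 * c1) * s a) * aeval h.x (c0 * c1)) • s, S.smul_mem _ hs, ?_,
    p ^ 2 - q ^ 2 * f m, ?_, ?_⟩
  · intro i
    rw [Pi.smul_apply, smul_eq_mul, mul_assoc]
    exact h.U.mul_mem hσU (hU i)
  · intro e
    rw [e, map_zero] at hprod
    exact mul_ne_zero hσne hne hprod
  · rw [Pi.smul_apply, smul_eq_mul, mul_assoc, hprod]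

/-- Division with remainder. -/
theorem exists_rem {n : ℂ[X]} (hn : n ≠ 0) : ∃ T : Submodule ℂ F, Module.Finite ℂ T ∧
    ∀ u ∈ h.U, ∃ t ∈ T, ∃ w ∈ h.U, u = t + aeval h.x n * w := by
  refine ⟨(degreeLT ℂ n.natDegree).map (aeval h.x).toLinearMap ⊔
    (degreeLT ℂ n.natDegree).map (LinearMap.mulRight ℂ h.y ∘ₗ (aeval h.x).toLinearMap), ?_, ?_⟩
  · have : Module.Finite ℂ (degreeLT ℂ n.natDegree) :=
      Module.Finite.equiv (degreeLTEquiv ℂ n.natDegree).symm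
    infer_instance
  · rintro _ ⟨a, b, rfl⟩
    have hmem : ∀ a : ℂ[X], a % n ∈ degreeLT ℂ n.natDegree := by
      intro a
      rw [mem_degreeLT, ← degree_eq_natDegree hn]
      exact EuclideanDomain.mod_lt a hn
    refine ⟨aeval h.x (a % n) + aeval h.x (b % n) * h.y, ?_,
      aeval h.x (a / n) + aeval h.x (b / n) * h.y, ⟨_, _, rfl⟩, ?_⟩
    · exact Submodule.add_mem_sup ⟨_, hmem a, rfl⟩ ⟨_, hmem b, rfl⟩
    · have ha := congrArg (aeval h.x) (EuclideanDomain.div_add_mod a n)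
      have hb := congrArg (aeval h.x) (EuclideanDomain.div_add_mod b n)
      rw [map_add, map_mul] at ha hb
      linear_combination -ha - hb * h.y

theorem exists_decomp {n : ℂ[X]} (hn : n ≠ 0) (i : ℤ ⊕ ℤ) :
    ∃ w ∈ Sp h.lb Set.univ, ∃ u ∈ h.U, h.lb i = aeval h.x n * w + u := by
  obtain ⟨k, n', hn', rfl⟩ := WfDvdMonoid.max_power_factor hn (irreducible_X (R := ℂ))
  have hc : n'.coeff 0 ≠ 0 := fun e => hn' (X_dvd_iff.2 e)
  have hcop : IsCoprime n' (X : ℂ[X]) := by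
    refine ⟨C (n'.coeff 0)⁻¹, -(C (n'.coeff 0)⁻¹ * n'.divX), ?_⟩
    have h1 := divX_mul_X_add n'
    have h2 : C (n'.coeff 0)⁻¹ * C (n'.coeff 0) = (1 : ℂ[X]) := by
      rw [← C_mul, inv_mul_cancel₀ hc, C_1]
    linear_combination h2 - C (n'.coeff 0)⁻¹ * h1
  obtain ⟨N, hN⟩ : ∃ N : ℕ, 0 ≤ ex i + N := ⟨(ex i).natAbs, by omega⟩
  obtain ⟨u, v, huv⟩ := hcop.pow_right (n := N)
  have hw0 : h.x ^ N * h.lb i ∈ h.U := by
    have h1 : h.lb (sh N i) ∈ Subalgebra.toSubmodule h.U := by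
      rw [h.toSubmodule_U]
      apply mem_Sp_of
      rcases i with i | i
      · exact hN
      · exact hN
    rw [h.lb_sh, zpow_natCast] at h1
    exact h1
  have hx : ∀ k : ℤ, h.x ^ k ∈ Sp h.lb Set.univ := by
    intro k
    exact mem_Sp_of h.lb (S := Set.univ) (i := Sum.inl k) trivial
  have hU : ∀ z ∈ h.U, z ∈ Sp h.lb Set.univ := by
    intro z hz
    have hz' : z ∈ Subalgebra.toSubmodule h.U := hz
    rw [h.toSubmodule_U] at hz'
    exact Sp_mono _ (Set.subset_univ _) hz'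
  refine ⟨h.x ^ (-(k : ℤ)) * (h.x ^ (-(N : ℤ)) * (aeval h.x u * (h.x ^ N * h.lb i))), ?_,
    aeval h.x v * (h.x ^ N * h.lb i), h.U.mul_mem (h.aeval_mem _) hw0, ?_⟩
  · exact h.mul_mem_univ (hx _) (h.mul_mem_univ (hx _) (hU _ (h.U.mul_mem (h.aeval_mem _) hw0)))
  · have h1 := congrArg (aeval h.x) huv
    rw [map_add, map_mul, map_mul, map_pow, aeval_X, map_one] at h1
    have hx0 := h.x_ne
    have h2 : h.x ^ k * h.x ^ (-(k : ℤ)) = 1 := by
      rw [← zpow_natCast, ← zpow_add₀ hx0]; simp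
    have h3 : h.x ^ N * h.x ^ (-(N : ℤ)) = 1 := by
      rw [← zpow_natCast, ← zpow_add₀ hx0]; simp
    rw [map_mul, map_pow, aeval_X]
    linear_combination (-(aeval h.x n' * aeval h.x u * h.lb i) *
      (h.x ^ N * h.x ^ (-(N : ℤ)))) * h2 - (aeval h.x n' * aeval h.x u * h.lb i) * h3
      - h.lb i * h1

omit [Algebra ℂ F] in
theorem mem_span_of_finrank_one {S : Submodule F (Fin 2 → F)} (hS : Module.finrank F S = 1)
    {s : Fin 2 → F} (hs : s ∈ S) (hs0 : s ≠ 0) {z : Fin 2 → F} (hz : z ∈ S) :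
    ∃ c : F, z = c • s := by
  have h1 := (finrank_eq_one_iff_of_nonzero' (⟨s, hs⟩ : S)
    (fun e => hs0 (congrArg Subtype.val e))).1 hS ⟨z, hz⟩
  obtain ⟨c, hc⟩ := h1
  exact ⟨c, (congrArg Subtype.val hc).symm⟩

theorem degSub_le (hm : 4 ≤ m) (S : Submodule F (Fin 2 → F)) (hS : Module.finrank F S = 1) :
    (h.sys (by omega : 0 < m)).degSub S ≤ 4 := by
  have hm' : 0 < m := by omega
  obtain ⟨s, hs, hs0⟩ : ∃ s ∈ S, s ≠ 0 := by
    by_contra hcon
    push Not at hcon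
    have : S = ⊥ := by
      rw [eq_bot_iff]
      intro z hz
      exact (Submodule.mem_bot F).2 (hcon z hz)
    rw [this, finrank_bot] at hS
    exact zero_ne_one hS
  obtain ⟨a, ha⟩ : ∃ a, s a ≠ 0 := by
    by_contra hcon
    push Not at hcon
    exact hs0 (funext hcon)
  obtain ⟨e0, he0S, he0U, n0, hn0, he0⟩ := h.exists_poly S hs ha
  obtain ⟨e1, he1S, he1U, n1, hn1, he1⟩ := h.swap.exists_poly S hs ha
  obtain ⟨T0, hT0, hdiv0⟩ := h.exists_rem hn0
  obtain ⟨T1, hT1, hdiv1⟩ := h.swap.exists_rem hn1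
  have hE1x : ∀ w ∈ h.swap.U, h.x ^ (2 : ℤ) * w ∈ Sp h.lb (A1 m 2) := by
    intro w hw
    rw [← h.toSubmodule_swap_U 2]
    exact ⟨w, hw, rfl⟩
  have hU0 : ∀ w ∈ h.U, w ∈ Sp h.lb A0 := by
    intro w hw
    rw [← h.toSubmodule_U]
    exact hw
  have hU : ∀ z ∈ h.U, z ∈ Sp h.lb Set.univ := by
    intro z hz
    exact Sp_mono _ (Set.subset_univ _) (hU0 z hz)
  have f0 : Module.Finite ℂ ↥(Sp h.lb A0 ⊓ Sp h.lb (A1 m 2)) := by
    rw [← Sp_inter h.lb_indep]
    apply finite_Sp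
    apply Set.finite_of_ncard_pos
    have e0 : (A0 ∩ A1 m 2).ncard = 2 + 1 := ncard_inter 2 (by omega)
    omega
  have key := chi_le ((LinearMap.proj a : (Fin 2 → F) →ₗ[ℂ] F)) (S.restrictScalars ℂ)
    (S.restrictScalars ℂ ⊓ piS 2 (Sp h.lb A0)) (S.restrictScalars ℂ ⊓ piS 2 (Sp h.lb (A1 m 2)))
    (S.restrictScalars ℂ ⊓ piS 2 (Sp h.lb Set.univ)) (Sp h.lb A0) (Sp h.lb (A1 m 2))
    (Sp h.lb Set.univ)
    (by
      intro z hz hz0
      obtain ⟨c, rfl⟩ := mem_span_of_finrank_one hS hs hs0 hz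
      have : c * s a = 0 := hz0
      rcases mul_eq_zero.1 this with hc | hc
      · rw [hc, zero_smul]
      · exact absurd hc ha)
    inf_le_left inf_le_left inf_le_left
    (by rintro _ ⟨z, hz, rfl⟩; exact mem_piS.1 hz.2 a)
    (by rintro _ ⟨z, hz, rfl⟩; exact mem_piS.1 hz.2 a)
    (by rintro _ ⟨z, hz, rfl⟩; exact mem_piS.1 hz.2 a)
    (by
      rw [Sp_le]
      intro i _
      obtain ⟨w, hw, u, hu, hwu⟩ := h.exists_decomp hn0 i
      rw [hwu]
      refine Submodule.add_mem_sup ⟨w • e0, ⟨S.smul_mem w he0S, ?_⟩, ?_⟩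
        (Submodule.mem_sup_left (hU0 u hu))
      · rw [SetLike.mem_coe, mem_piS]
        intro i
        exact h.mul_mem_univ hw (hU _ (he0U i))
      · change w * e0 a = _
        rw [he0, mul_comm])
    f0
    (Sp h.lb (A0 ∪ A1 m 2)ᶜ ⊔ (T0 ⊔ T1.map (LinearMap.mulLeft ℂ (h.x ^ (2 : ℤ)))))
    (by
      have f1 : Module.Finite ℂ (Sp h.lb (A0 ∪ A1 m 2)ᶜ) := finite_Sp _ (finite_compl 2)
      infer_instance)
    (by
      rw [Sp_le]
      intro i _
      by_cases hi : i ∈ A0 ∪ A1 m 2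
      · rcases hi with hi | hi
        · have h1 : h.lb i ∈ h.U := by
            have h2 : h.lb i ∈ Subalgebra.toSubmodule h.U := by
              rw [h.toSubmodule_U]; exact mem_Sp_of _ hi
            exact h2
          obtain ⟨t, ht, w, hw, hwu⟩ := hdiv0 _ h1
          rw [hwu]
          refine Submodule.add_mem_sup (Submodule.mem_sup_right (Submodule.mem_sup_left ht))
            (Submodule.mem_sup_left ⟨w • e0, ⟨S.smul_mem w he0S, ?_⟩, ?_⟩)
          · rw [SetLike.mem_coe, mem_piS]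
            intro i
            exact hU0 _ (h.U.mul_mem hw (he0U i))
          · change w * e0 a = _
            rw [he0, mul_comm]
        · have h1 : h.lb i ∈ Sp h.lb (A1 m 2) := mem_Sp_of _ hi
          rw [← h.toSubmodule_swap_U 2] at h1
          obtain ⟨u, hu, hui⟩ := h1
          rw [← hui]
          obtain ⟨t, ht, w, hw, hwu⟩ := hdiv1 _ hu
          rw [hwu, map_add]
          refine Submodule.add_mem_sup (Submodule.mem_sup_right (Submodule.mem_sup_right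
            ⟨t, ht, rfl⟩))
            (Submodule.mem_sup_right ⟨(h.x ^ (2 : ℤ) * w) • e1, ⟨S.smul_mem _ he1S, ?_⟩, ?_⟩)
          · rw [SetLike.mem_coe, mem_piS]
            intro i
            rw [Pi.smul_apply, smul_eq_mul, mul_assoc]
            exact hE1x _ (h.swap.U.mul_mem hw (he1U i))
          · change (h.x ^ (2 : ℤ) * w) * e1 a = h.x ^ (2 : ℤ) * _
            rw [he1]; ring
      · exact Submodule.mem_sup_left (Submodule.mem_sup_left (mem_Sp_of _ hi)))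
  unfold CohSys.degSub
  rw [h.sys_E0, h.sys_E1, h.sys_E01, hS, h.chiO_curve]
  have hN : chi (Sp h.lb A0) (Sp h.lb (A1 m 2)) (Sp h.lb Set.univ) = 6 - m := by
    unfold chi
    have e0 : (A0 ∩ A1 m 2).ncard = 2 + 1 := ncard_inter 2 (by omega)
    have e1 : (A0 ∪ A1 m 2)ᶜ.ncard = m - 1 - 2 := ncard_compl 2
    rw [h0_Sp h.lb_indep, h1_Sp h.lb_indep, e0, e1]
    omega
  rw [hN] at key
  push_cast
  linarith

end Hyp

end Pool.Agent.Hhelper20.CS
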