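import Pool.Agent.Hhelper20.CS.Defs

open TensorProduct

namespace Pool.Agent.Hhelper20.CS

variable {F : Type} [Field F] [Algebra ℂ F]

section maps

variable {B B' : Type} [CommRing B] [Algebra ℂ B] [CommRing B'] [Algebra ℂ B']

@[simp] theorem bc_tmul (φ : B →ₐ[ℂ] B') (b : B) (u : F) :
    bc φ (b ⊗ₜ[ℂ] u) = φ b ⊗ₜ[ℂ] u := rfl

@[simp] theorem ev_tmul (ρ : B →ₐ[ℂ] ℂ) (b : B) (u : F) :
    ev ρ (b ⊗ₜ[ℂ] u) = ρ b • u := by
  simp [ev, Algebra.ofId_apply, Algebra.smul_def]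

theorem bc_bc {B'' : Type} [CommRing B''] [Algebra ℂ B''] (φ : B →ₐ[ℂ] B') (ψ : B' →ₐ[ℂ] B'')
    (z : B ⊗[ℂ] F) : bc ψ (bc φ z) = bc (ψ.comp φ) z := by
  induction z with
  | zero => simp
  | add x y hx hy => rw [map_add, map_add, map_add, hx, hy]
  | tmul b u => simp

theorem bc_id (z : B ⊗[ℂ] F) : bc (AlgHom.id ℂ B) z = z := by
  induction z with
  | zero => simp
  | add x y hx hy => rw [map_add, hx, hy]
  | tmul b u => simp

theorem ev_bc (φ : B →ₐ[ℂ] B') (ρ : B' →ₐ[ℂ] ℂ) (z : B ⊗[ℂ] F) :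
    ev ρ (bc φ z) = ev (ρ.comp φ) z := by
  induction z with
  | zero => simp
  | add x y hx hy => rw [map_add, map_add, map_add, hx, hy]
  | tmul b u => simp

theorem inL_apply (b : B) : inL F B b = b ⊗ₜ[ℂ] 1 := rfl

theorem bc_inL (φ : B →ₐ[ℂ] B') (b : B) : bc φ (inL F B b) = inL F B' (φ b) := rfl

theorem ev_inL (ρ : B →ₐ[ℂ] ℂ) (b : B) : ev ρ (inL F B b) = algebraMap ℂ F (ρ b) := by
  rw [inL_apply, ev_tmul, Algebra.algebraMap_eq_smul_one]

variable {U U' : Subalgebra ℂ F}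

theorem tmul_mem_fn (b : B) {u : F} (hu : u ∈ U) : b ⊗ₜ[ℂ] u ∈ fn B U :=
  AddSubmonoid.subset_closure ⟨b, u, hu, rfl⟩

theorem inL_mem_fn (b : B) : inL F B b ∈ fn B U := tmul_mem_fn b U.one_mem

theorem one_mem_fn : (1 : B ⊗[ℂ] F) ∈ fn B U := tmul_mem_fn 1 U.one_mem

theorem neg_mem_fn {z : B ⊗[ℂ] F} (hz : z ∈ fn B U) : -z ∈ fn B U := by
  induction hz using AddSubmonoid.closure_induction with
  | mem x hx =>
    obtain ⟨b, u, hu, rfl⟩ := hx
    rw [← TensorProduct.neg_tmul]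
    exact tmul_mem_fn _ hu
  | zero => simp
  | add x y _ _ hx hy =>
    rw [neg_add]
    exact AddSubmonoid.add_mem _ hx hy

theorem mul_mem_fn {z w : B ⊗[ℂ] F} (hz : z ∈ fn B U) (hw : w ∈ fn B U) : z * w ∈ fn B U := by
  induction hz using AddSubmonoid.closure_induction with
  | mem x hx =>
    obtain ⟨b, u, hu, rfl⟩ := hx
    induction hw using AddSubmonoid.closure_induction with
    | mem y hy =>
      obtain ⟨c, v, hv, rfl⟩ := hy
      rw [Algebra.TensorProduct.tmul_mul_tmul]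
      exact tmul_mem_fn _ (U.mul_mem hu hv)
    | zero => simp
    | add x y _ _ hx hy =>
      rw [mul_add]
      exact AddSubmonoid.add_mem _ hx hy
  | zero => simp
  | add x y _ _ hx hy =>
    rw [add_mul]
    exact AddSubmonoid.add_mem _ hx hy

theorem fn_mono (h : U ≤ U') {z : B ⊗[ℂ] F} (hz : z ∈ fn B U) : z ∈ fn B U' := by
  induction hz using AddSubmonoid.closure_induction with
  | mem x hx =>
    obtain ⟨b, u, hu, rfl⟩ := hx
    exact tmul_mem_fn _ (h hu)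
  | zero => exact AddSubmonoid.zero_mem _
  | add x y _ _ hx hy => exact AddSubmonoid.add_mem _ hx hy

theorem bc_mem_fn (φ : B →ₐ[ℂ] B') {z : B ⊗[ℂ] F} (hz : z ∈ fn B U) : bc φ z ∈ fn B' U := by
  induction hz using AddSubmonoid.closure_induction with
  | mem x hx =>
    obtain ⟨b, u, hu, rfl⟩ := hx
    rw [bc_tmul]
    exact tmul_mem_fn _ hu
  | zero => rw [map_zero]; exact AddSubmonoid.zero_mem _
  | add x y _ _ hx hy => rw [map_add]; exact AddSubmonoid.add_mem _ hx hy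

theorem ev_mem (ρ : B →ₐ[ℂ] ℂ) {z : B ⊗[ℂ] F} (hz : z ∈ fn B U) : ev ρ z ∈ U := by
  induction hz using AddSubmonoid.closure_induction with
  | mem x hx =>
    obtain ⟨b, u, hu, rfl⟩ := hx
    rw [ev_tmul]
    exact U.smul_mem hu _
  | zero => rw [map_zero]; exact U.zero_mem
  | add x y _ _ hx hy => rw [map_add]; exact U.add_mem hx hy

theorem Over.mul {p q r : ℕ} {M : Matrix (Fin p) (Fin q) (B ⊗[ℂ] F)}
    {N : Matrix (Fin q) (Fin r) (B ⊗[ℂ] F)} (hM : Over U M) (hN : Over U N) : Over U (M * N) := by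
  intro i j
  rw [Matrix.mul_apply]
  exact AddSubmonoid.sum_mem _ fun k _ => mul_mem_fn (hM i k) (hN k j)

theorem Over.inL {p q : ℕ} (P : Matrix (Fin p) (Fin q) B) :
    Over U (P.map (CS.inL F B)) := fun _ _ => inL_mem_fn _

theorem Over.bc {p q : ℕ} (φ : B →ₐ[ℂ] B') {M : Matrix (Fin p) (Fin q) (B ⊗[ℂ] F)}
    (hM : Over U M) : Over U (M.map (CS.bc φ)) := fun i j => bc_mem_fn φ (hM i j)

theorem Over.one {p : ℕ} : Over U (1 : Matrix (Fin p) (Fin p) (B ⊗[ℂ] F)) := by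
  intro i j
  rw [Matrix.one_apply]
  split_ifs
  · exact one_mem_fn
  · exact AddSubmonoid.zero_mem _

theorem Over.mono (h : U ≤ U') {p q : ℕ} {M : Matrix (Fin p) (Fin q) (B ⊗[ℂ] F)}
    (hM : Over U M) : Over U' M := fun i j => fn_mono h (hM i j)

theorem GOver.one {n : ℕ} : GOver U (1 : GL (Fin n) (B ⊗[ℂ] F)) := ⟨Over.one, Over.one⟩

theorem GOver.mul {n : ℕ} {g g' : GL (Fin n) (B ⊗[ℂ] F)} (h : GOver U g) (h' : GOver U g') :
    GOver U (g * g') := ⟨h.1.mul h'.1, h'.2.mul h.2⟩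

theorem GOver.inv {n : ℕ} {g : GL (Fin n) (B ⊗[ℂ] F)} (h : GOver U g) : GOver U g⁻¹ := ⟨h.2, h.1⟩

theorem GOver.mono (h : U ≤ U') {n : ℕ} {g : GL (Fin n) (B ⊗[ℂ] F)} (hg : GOver U g) :
    GOver U' g := ⟨hg.1.mono h, hg.2.mono h⟩

/-- Change of base for invertible matrices. -/
noncomputable def gbc (φ : B →ₐ[ℂ] B') {n : ℕ} : GL (Fin n) (B ⊗[ℂ] F) →* GL (Fin n) (B' ⊗[ℂ] F) :=
  Matrix.GeneralLinearGroup.map (bc φ)

theorem gbc_val (φ : B →ₐ[ℂ] B') {n : ℕ} (g : GL (Fin n) (B ⊗[ℂ] F)) :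
    (gbc φ g).val = g.val.map (bc φ) := rfl

theorem gbc_inv (φ : B →ₐ[ℂ] B') {n : ℕ} (g : GL (Fin n) (B ⊗[ℂ] F)) :
    (gbc φ g).inv = g.inv.map (bc φ) := rfl

theorem GOver.gbc (φ : B →ₐ[ℂ] B') {n : ℕ} {g : GL (Fin n) (B ⊗[ℂ] F)} (hg : GOver U g) :
    GOver U (CS.gbc φ g) := ⟨hg.1.bc φ, hg.2.bc φ⟩

end maps

namespace CohSys

variable {C : Curve F} {B B' : Type} [CommRing B] [Algebra ℂ B] [CommRing B'] [Algebra ℂ B']
  {n k : ℕ}

theorem ext' {X Y : CohSys C B n k} (h : X.g = Y.g) (h0 : X.s0 = Y.s0) (h1 : X.s1 = Y.s1) :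
    X = Y := by
  cases X; cases Y; congr

/-- Pull-back of a family along `Spec B' → Spec B`. -/
noncomputable def map (X : CohSys C B n k) (φ : B →ₐ[ℂ] B') : CohSys C B' n k where
  g := gbc φ X.g
  s0 := X.s0.map (bc φ)
  s1 := X.s1.map (bc φ)
  hg := X.hg.gbc φ
  h0 := X.h0.bc φ
  h1 := X.h1.bc φ
  glue := by
    rw [gbc_val, ← Matrix.map_mul, X.glue]
  indep := by
    intro ρ
    simp only [Matrix.map_apply, ev_bc]
    exact X.indep (ρ.comp φ)

theorem isPullback_iff (φ : B →ₐ[ℂ] B') (X : CohSys C B n k) (Y : CohSys C B' n k) :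
    IsPullback φ X Y ↔ Y = X.map φ := by
  constructor
  · rintro ⟨h1, h2, h3⟩
    exact ext' (Units.ext h1) h2 h3
  · rintro rfl
    exact ⟨rfl, rfl, rfl⟩

theorem map_map {B'' : Type} [CommRing B''] [Algebra ℂ B''] (X : CohSys C B n k)
    (φ : B →ₐ[ℂ] B') (ψ : B' →ₐ[ℂ] B'') : (X.map φ).map ψ = X.map (ψ.comp φ) := by
  apply ext'
  · apply Units.ext
    ext a b
    exact bc_bc φ ψ _
  · ext a b
    exact bc_bc φ ψ _
  · ext a b
    exact bc_bc φ ψ _

theorem map_id (X : CohSys C B n k) : X.map (AlgHom.id ℂ B) = X := by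
  apply ext'
  · apply Units.ext
    ext a b
    exact bc_id _
  · ext a b
    exact bc_id _
  · ext a b
    exact bc_id _

theorem Iso.refl (X : CohSys C B n k) : Iso X X := by
  refine ⟨1, 1, 1, GOver.one, GOver.one, ?_, ?_, ?_⟩
  · rw [Units.val_one, Matrix.one_mul, Matrix.mul_one]
  · rw [Units.val_one, Units.val_one, Matrix.map_one _ (map_zero _) (map_one _), Matrix.one_mul,
      Matrix.mul_one]
  · rw [Units.val_one, Units.val_one, Matrix.map_one _ (map_zero _) (map_one _), Matrix.one_mul,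
      Matrix.mul_one]

theorem Iso.trans {X Y Z : CohSys C B n k} (h : Iso X Y) (h' : Iso Y Z) : Iso X Z := by
  obtain ⟨u0, u1, P, a0, a1, hg, h0, h1⟩ := h
  obtain ⟨v0, v1, Q, b0, b1, hg', h0', h1'⟩ := h'
  refine ⟨v0 * u0, v1 * u1, P * Q, b0.mul a0, b1.mul a1, ?_, ?_, ?_⟩
  · rw [Units.val_mul, Units.val_mul, ← Matrix.mul_assoc, hg', Matrix.mul_assoc, hg,
      ← Matrix.mul_assoc]
  · rw [h0', h0, Units.val_mul, Units.val_mul, Matrix.map_mul]
    simp only [Matrix.mul_assoc]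
  · rw [h1', h1, Units.val_mul, Units.val_mul, Matrix.map_mul]
    simp only [Matrix.mul_assoc]

theorem inv_mul_val {p : ℕ} {R : Type} [CommRing R] (u : GL (Fin p) R) :
    (u⁻¹).val * u.val = 1 := by rw [← Units.val_mul, inv_mul_cancel, Units.val_one]

theorem mul_inv_val {p : ℕ} {R : Type} [CommRing R] (u : GL (Fin p) R) :
    u.val * (u⁻¹).val = 1 := by rw [← Units.val_mul, mul_inv_cancel, Units.val_one]

theorem Iso.symm {X Y : CohSys C B n k} (h : Iso X Y) : Iso Y X := by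
  obtain ⟨u0, u1, P, a0, a1, hg, h0, h1⟩ := h
  have hP : P.val.map (inL F B) * (P⁻¹).val.map (inL F B) = 1 := by
    rw [← Matrix.map_mul, mul_inv_val, Matrix.map_one _ (map_zero _) (map_one _)]
  refine ⟨u0⁻¹, u1⁻¹, P⁻¹, a0.inv, a1.inv, ?_, ?_, ?_⟩
  · calc X.g.val * (u1⁻¹).val = ((u0⁻¹).val * u0.val) * X.g.val * (u1⁻¹).val := by
          rw [inv_mul_val, Matrix.one_mul]
      _ = (u0⁻¹).val * (u0.val * X.g.val) * (u1⁻¹).val := by simp only [Matrix.mul_assoc]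
      _ = (u0⁻¹).val * (Y.g.val * (u1.val * (u1⁻¹).val)) := by
          rw [← hg]; simp only [Matrix.mul_assoc]
      _ = (u0⁻¹).val * Y.g.val := by rw [mul_inv_val, Matrix.mul_one]
  · calc X.s0 = ((u0⁻¹).val * u0.val) * X.s0 * (P.val.map (inL F B) *
          (P⁻¹).val.map (inL F B)) := by
          rw [inv_mul_val, Matrix.one_mul, hP, Matrix.mul_one]
      _ = (u0⁻¹).val * (u0.val * X.s0 * P.val.map (inL F B)) * (P⁻¹).val.map (inL F B) := by
          simp only [Matrix.mul_assoc]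
      _ = _ := by rw [← h0]
  · calc X.s1 = ((u1⁻¹).val * u1.val) * X.s1 * (P.val.map (inL F B) *
          (P⁻¹).val.map (inL F B)) := by
          rw [inv_mul_val, Matrix.one_mul, hP, Matrix.mul_one]
      _ = (u1⁻¹).val * (u1.val * X.s1 * P.val.map (inL F B)) * (P⁻¹).val.map (inL F B) := by
          simp only [Matrix.mul_assoc]
      _ = _ := by rw [← h1]

theorem map_inL_bc (φ : B →ₐ[ℂ] B') {p q : ℕ} (P : Matrix (Fin p) (Fin q) B) :
    (P.map (inL F B)).map (bc φ) = (P.map φ).map (inL F B') := by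
  ext i j
  rfl

theorem Iso.map {X Y : CohSys C B n k} (h : Iso X Y) (φ : B →ₐ[ℂ] B') :
    Iso (X.map φ) (Y.map φ) := by
  obtain ⟨u0, u1, P, a0, a1, hg, h0, h1⟩ := h
  refine ⟨gbc φ u0, gbc φ u1, Matrix.GeneralLinearGroup.map φ.toRingHom P, a0.gbc φ, a1.gbc φ,
    ?_, ?_, ?_⟩
  · change Y.g.val.map (bc φ) * u1.val.map (bc φ) = u0.val.map (bc φ) * X.g.val.map (bc φ)
    rw [← Matrix.map_mul, ← Matrix.map_mul, hg]
  · change Y.s0.map (bc φ) = u0.val.map (bc φ) * X.s0.map (bc φ) * (P.val.map φ).map (inL F B')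
    rw [← map_inL_bc, ← Matrix.map_mul, ← Matrix.map_mul, h0]
  · change Y.s1.map (bc φ) = u1.val.map (bc φ) * X.s1.map (bc φ) * (P.val.map φ).map (inL F B')
    rw [← map_inL_bc, ← Matrix.map_mul, ← Matrix.map_mul, h1]

end CohSys

end Pool.Agent.Hhelper20.CS
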