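import Pool.Agent.Hhelper20.CS.Tan

open TensorProduct

namespace Pool.Agent.Hhelper20.CS

section localRing

open IsLocalRing

theorem spanFinrank_le {R : Type} [CommRing R] [Algebra ℂ R] [IsLocalRing R] [IsNoetherianRing R]
    (π : R →ₐ[ℂ] ℂ) (hker : ∀ a : R, a ∈ maximalIdeal R ↔ π a = 0)
    (ρ : (R ⧸ maximalIdeal R ^ (1 + 1)) →ₐ[ℂ] ℂ)
    (hρ : ∀ a : R, ρ (Ideal.Quotient.mk _ a) = π a) (N : ℕ)
    (hN : ∀ w : Fin (N + 1) → (R ⧸ maximalIdeal R ^ (1 + 1)), (∀ i, ρ (w i) = 0) →
      ¬ LinearIndependent ℂ w) :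
    (maximalIdeal R).spanFinrank ≤ N := by
  have hrank : Module.rank ℂ (LinearMap.ker ρ.toLinearMap) < ((N + 1 : ℕ) : Cardinal) := by
    by_contra h
    rw [not_lt, Module.le_rank_iff] at h
    obtain ⟨v, hv⟩ := h
    exact hN (fun i => (v i : R ⧸ maximalIdeal R ^ (1 + 1))) (fun i => (v i).2)
      (hv.map' (LinearMap.ker ρ.toLinearMap).subtype (Submodule.ker_subtype _))
  have hfin : Module.Finite ℂ (LinearMap.ker ρ.toLinearMap) :=
    Module.rank_lt_aleph0_iff.1 (hrank.trans (Cardinal.natCast_lt_aleph0))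
  have hfr : Module.finrank ℂ (LinearMap.ker ρ.toLinearMap) ≤ N := by
    rw [← Module.finrank_eq_rank] at hrank
    exact Nat.lt_succ_iff.1 (by exact_mod_cast hrank)
  let w := Module.finBasis ℂ (LinearMap.ker ρ.toLinearMap)
  have hlift : ∀ i, ∃ r : R, Ideal.Quotient.mk (maximalIdeal R ^ (1 + 1)) r = w i :=
    fun i => Ideal.Quotient.mk_surjective _
  choose r hr using hlift
  have hle : maximalIdeal R ≤ Ideal.span (Set.range r) := by
    refine Submodule.le_of_le_smul_of_le_jacobson_bot (I := maximalIdeal R)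
      (IsNoetherian.noetherian _) (maximalIdeal_le_jacobson _) ?_
    intro x hx
    have hx' : Ideal.Quotient.mk (maximalIdeal R ^ (1 + 1)) x ∈ LinearMap.ker ρ.toLinearMap := by
      rw [LinearMap.mem_ker, AlgHom.toLinearMap_apply, hρ, ← hker]
      exact hx
    have h1 := w.sum_repr ⟨_, hx'⟩
    have h2 := congrArg Subtype.val h1
    simp only [AddSubmonoidClass.coe_finsetSum, SetLike.val_smul] at h2
    have h3 : x - ∑ i, algebraMap ℂ R (w.repr ⟨_, hx'⟩ i) * r i ∈ maximalIdeal R ^ (1 + 1) := by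
      rw [← Ideal.Quotient.eq_zero_iff_mem, map_sub, map_sum, sub_eq_zero]
      refine h2.symm.trans ?_
      refine Finset.sum_congr rfl fun i _ => ?_
      rw [map_mul, hr, Algebra.smul_def]
      rfl
    have h4 : x = (∑ i, algebraMap ℂ R (w.repr ⟨_, hx'⟩ i) * r i) +
        (x - ∑ i, algebraMap ℂ R (w.repr ⟨_, hx'⟩ i) * r i) := by ring
    rw [h4]
    refine Submodule.add_mem_sup ?_ ?_
    · exact Ideal.sum_mem _ fun i _ => Ideal.mul_mem_left _ _ (Ideal.subset_span ⟨i, rfl⟩)
    · rw [smul_eq_mul, ← sq]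
      exact h3
  have heq : maximalIdeal R = Ideal.span (Set.range r) := by
    refine le_antisymm hle ?_
    rw [Ideal.span_le]
    rintro _ ⟨i, rfl⟩
    have := (w i).2
    rw [← hr, LinearMap.mem_ker, AlgHom.toLinearMap_apply, hρ, ← hker] at this
    exact this
  rw [heq]
  refine (Submodule.spanFinrank_span_le_ncard_of_finite (Set.finite_range r)).trans ?_
  refine le_trans ?_ hfr
  rw [← Set.image_univ]
  refine (Set.ncard_image_le Set.finite_univ).trans ?_
  simp

end localRing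

/-- An algebra homomorphism to `ℂ` kills the maximal ideal. -/
theorem algHom_eq_zero {R : Type} [CommRing R] [Algebra ℂ R] [IsLocalRing R] (π : R →ₐ[ℂ] ℂ)
    {a : R} (ha : a ∈ IsLocalRing.maximalIdeal R) : π a = 0 := by
  by_contra hne
  have hu : IsUnit (a - (a - algebraMap ℂ R (π a))) := by
    rw [sub_sub_cancel]
    exact (isUnit_iff_ne_zero.2 hne).map (algebraMap ℂ R)
  have h1 : a - algebraMap ℂ R (π a) ∈ IsLocalRing.maximalIdeal R := by
    rw [IsLocalRing.mem_maximalIdeal, mem_nonunits_iff]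
    intro hu'
    have := hu'.map π
    simp at this
  exact (IsLocalRing.mem_maximalIdeal _).1 (Ideal.sub_mem _ ha h1) hu

variable {F : Type} [Field F] [Algebra ℂ F]

namespace CohSys

variable {C : Curve F} {B : Type} [CommRing B] [Algebra ℂ B] {n k : ℕ}

theorem sum_smul_col {p q : ℕ} (A : Matrix (Fin p) (Fin q) F) (c : Fin q → ℂ) :
    ∑ j, c j • (fun a => A a j) = A.mulVec (fun j => algebraMap ℂ F (c j)) := by
  ext a
  simp only [Finset.sum_apply, Matrix.mulVec, dotProduct, Algebra.smul_def]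
  exact Finset.sum_congr rfl fun j _ => mul_comm _ _

theorem indep_mul {p q : ℕ} (M : GL (Fin p) F) (A : Matrix (Fin p) (Fin q) F)
    (P : GL (Fin q) ℂ) (h : LinearIndependent ℂ fun (j : Fin q) (a : Fin p) => A a j) :
    LinearIndependent ℂ fun (j : Fin q) (a : Fin p) =>
      (M.1 * A * P.1.map (algebraMap ℂ F)) a j := by
  rw [Fintype.linearIndependent_iff] at h ⊢
  intro c hc
  rw [sum_smul_col, ← Matrix.mulVec_mulVec, ← Matrix.mulVec_mulVec] at hc
  have h1 : A.mulVec ((P.1.map (algebraMap ℂ F)).mulVec fun j => algebraMap ℂ F (c j)) = 0 := by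
    have := congrArg (fun v => (M⁻¹).1.mulVec v) hc
    simpa only [Matrix.mulVec_mulVec, ← Units.val_mul, inv_mul_cancel, Units.val_one,
      Matrix.one_mul, Matrix.mulVec_zero, ← Matrix.mul_assoc] using this
  have h2 : ((P.1.map (algebraMap ℂ F)).mulVec fun j => algebraMap ℂ F (c j)) =
      fun j => algebraMap ℂ F (P.1.mulVec c j) := by
    ext j
    simp [Matrix.mulVec, dotProduct]
  rw [h2, ← sum_smul_col] at h1
  have h3 : P.1.mulVec c = 0 := by
    ext j
    exact h _ h1 j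
  have h4 : c = 0 := by
    have := congrArg (fun v => (P⁻¹).1.mulVec v) h3
    simpa only [Matrix.mulVec_mulVec, ← Units.val_mul, inv_mul_cancel, Units.val_one,
      Matrix.one_mulVec, Matrix.mulVec_zero] using this
  intro i
  rw [h4]
  rfl

theorem le0 (C : Curve F) : C.U0 ≤ C.U01 := le_sup_left

theorem le1 (C : Curve F) : C.U1 ≤ C.U01 := le_sup_right

theorem exists_normalise (X : CohSys C ℂ n k) (Y : CohSys C B n k) (ρ : B →ₐ[ℂ] ℂ)
    (h : Iso (Y.map ρ) X) : ∃ Y' : CohSys C B n k, Iso Y Y' ∧ Y'.map ρ = X := by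
  obtain ⟨u0, u1, P, a0, a1, hg, h0, h1⟩ := h
  have hρ : ρ.comp (Algebra.ofId ℂ B) = AlgHom.id ℂ ℂ := by
    ext
  let c0 : GL (Fin n) (B ⊗[ℂ] F) := gbc (Algebra.ofId ℂ B) u0
  let c1 : GL (Fin n) (B ⊗[ℂ] F) := gbc (Algebra.ofId ℂ B) u1
  have b0 : GOver C.U0 c0 := a0.gbc _
  have b1 : GOver C.U1 c1 := a1.gbc _
  let Q : GL (Fin k) B := Matrix.GeneralLinearGroup.map (algebraMap ℂ B) P
  let Y' : CohSys C B n k :=
    { g := c0 * Y.g * c1⁻¹
      s0 := c0.val * Y.s0 * Q.val.map (inL F B)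
      s1 := c1.val * Y.s1 * Q.val.map (inL F B)
      hg := ((b0.mono (le0 C)).mul Y.hg).mul (b1.inv.mono (le1 C))
      h0 := (b0.1.mul Y.h0).mul (Over.inL _)
      h1 := (b1.1.mul Y.h1).mul (Over.inL _)
      glue := by
        rw [Y.glue]
        change c0.val * (Y.g.val * Y.s1) * _ =
          (c0.val * Y.g.val * (c1⁻¹).val) * (c1.val * Y.s1 * _)
        calc _ = c0.val * Y.g.val * (1 : Matrix _ _ _) * Y.s1 * Q.val.map (inL F B) := by
              simp only [Matrix.mul_assoc, Matrix.one_mul]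
          _ = _ := by rw [← inv_mul_val c1]; simp only [Matrix.mul_assoc]
      indep := by
        intro ρ'
        have hY := indep_mul (Matrix.GeneralLinearGroup.map (ev ρ') c0)
          (Y.s0.map (ev ρ')) P (Y.indep ρ')
        have hQ : (Q.val.map (inL F B)).map (ev ρ') = P.val.map (algebraMap ℂ F) := by
          ext i j
          change ev ρ' (inL F B (algebraMap ℂ B (P.val i j))) = algebraMap ℂ F (P.val i j)
          rw [ev_inL, AlgHom.commutes]
          rfl
        have hm : (c0.val * Y.s0 * Q.val.map (inL F B)).map (ev ρ') =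
            (Matrix.GeneralLinearGroup.map (ev ρ') c0).val *
              Y.s0.map (ev ρ') * P.val.map (algebraMap ℂ F) := by
          rw [Matrix.map_mul, Matrix.map_mul, hQ]
          rfl
        rw [← hm] at hY
        exact hY }
  refine ⟨Y', ⟨c0, c1, Q, b0, b1, ?_, rfl, rfl⟩, ?_⟩
  · change c0.val * Y.g.val * (c1⁻¹).val * c1.val = c0.val * Y.g.val
    rw [Matrix.mul_assoc, inv_mul_val, Matrix.mul_one]
  · have bb : ∀ (z : ℂ ⊗[ℂ] F), bc ρ (bc (Algebra.ofId ℂ B) z) = z := by
      intro z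
      rw [bc_bc, hρ, bc_id]
    have r0 : c0.val.map (bc ρ) = u0.val := by
      ext i j
      exact bb _
    have r1 : c1.val.map (bc ρ) = u1.val := by
      ext i j
      exact bb _
    have q0 : (Q.val.map (inL F B)).map (bc ρ) = P.val.map (inL F ℂ) := by
      ext i j
      change bc ρ (inL F B (algebraMap ℂ B (P.val i j))) = inL F ℂ (P.val i j)
      rw [bc_inL, AlgHom.commutes]
      rfl
    apply ext'
    · change gbc ρ (c0 * Y.g * c1⁻¹) = X.g
      rw [map_mul, map_mul, map_inv, mul_inv_eq_iff_eq_mul]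
      apply Units.ext
      change (c0.val.map (bc ρ)) * (Y.map ρ).g.val = X.g.val * c1.val.map (bc ρ)
      rw [r0, r1, hg]
    · change (c0.val * Y.s0 * Q.val.map (inL F B)).map (bc ρ) = X.s0
      rw [Matrix.map_mul, Matrix.map_mul, r0, q0, h0]
      rfl
    · change (c1.val * Y.s1 * Q.val.map (inL F B)).map (bc ρ) = X.s1
      rw [Matrix.map_mul, Matrix.map_mul, r1, q0, h1]
      rfl

/-- The bound on first order deformations used below: in every family with special fibre
exactly `X` and no trivial tangent direction, any `N + 1` tangent vectors are linearly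
dependent. -/
def TangentBound (X : CohSys C ℂ n k) (N : ℕ) : Prop :=
  ∀ (B : Type) [CommRing B] [Algebra ℂ B] (ρ : B →ₐ[ℂ] ℂ) (Y : CohSys C B n k),
    Y.map ρ = X →
    (∀ (l : B →ₗ[ℂ] ℂ) (hl : IsTan ρ l),
      Iso (Y.map (tanHom (DualNumber ℂ) DualNumber.eps DualNumber.eps_mul_eps ρ 0 (IsTan.zero ρ)))
        (Y.map (tanHom (DualNumber ℂ) DualNumber.eps DualNumber.eps_mul_eps ρ l hl)) → l = 0) →
    ∀ f : Fin (N + 1) → (B →ₗ[ℂ] ℂ), (∀ i, IsTan ρ (f i)) → ¬ LinearIndependent ℂ f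

/-- In an augmented algebra whose augmentation ideal has square zero, a linear functional that
vanishes at `1` is a tangent vector. -/
theorem isTan_of_sq_zero (ρ : B →ₐ[ℂ] ℂ) (hsq : ∀ a b, ρ a = 0 → ρ b = 0 → a * b = 0)
    (l : B →ₗ[ℂ] ℂ) (h1 : l 1 = 0) : IsTan ρ l := by
  intro a b
  have ha : ρ (a - algebraMap ℂ B (ρ a)) = 0 := by simp
  have hb : ρ (b - algebraMap ℂ B (ρ b)) = 0 := by simp
  have h := hsq _ _ ha hb
  have h2 : a * b = ρ a • b + ρ b • a - (ρ a * ρ b) • (1 : B) := by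
    simp only [Algebra.smul_def, map_mul, mul_one]
    linear_combination h
  rw [h2, map_sub, map_add, map_smul, map_smul, map_smul, h1]
  simp only [smul_eq_mul]
  ring

theorem exists_functionals (ρ : B →ₐ[ℂ] ℂ) {N : ℕ} (w : Fin N → B) (hw : ∀ i, ρ (w i) = 0)
    (hli : LinearIndependent ℂ w) :
    ∃ f : Fin N → (B →ₗ[ℂ] ℂ), (∀ i, f i 1 = 0) ∧ LinearIndependent ℂ f := by
  have h1 : (1 : B) ∉ Submodule.span ℂ (Set.range w) := by
    intro h
    have h2 : Submodule.span ℂ (Set.range w) ≤ LinearMap.ker ρ.toLinearMap := by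
      rw [Submodule.span_le]
      rintro _ ⟨i, rfl⟩
      exact hw i
    have h3 := h2 h
    simp at h3
  have hli' : LinearIndependent ℂ (fun o : Option (Fin N) => Option.casesOn' o (1 : B) w) :=
    linearIndependent_option'.2 ⟨hli, h1⟩
  obtain ⟨g, hg⟩ := LinearMap.exists_leftInverse_of_injective
    (Fintype.linearCombination ℂ (fun o : Option (Fin N) => Option.casesOn' o (1 : B) w))
    (by
      rw [LinearMap.ker_eq_bot]
      exact hli'.fintypeLinearCombination_injective)
  have hg' : ∀ v, g (Fintype.linearCombination ℂ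
      (fun o : Option (Fin N) => Option.casesOn' o (1 : B) w) v) = v :=
    fun v => LinearMap.congr_fun hg v
  have hgw : ∀ o, g (Option.casesOn' o (1 : B) w) = Pi.single o 1 := by
    intro o
    rw [← hg' (Pi.single o 1), Fintype.linearCombination_apply_single, one_smul]
  refine ⟨fun i => LinearMap.proj (some i) ∘ₗ g, ?_, ?_⟩
  · intro i
    have := hgw none
    simp only [Option.casesOn'_none] at this
    simp [this]
  · rw [Fintype.linearIndependent_iff]
    intro c hc j
    have h2 := LinearMap.congr_fun hc (w j)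
    have := hgw (some j)
    simp only [Option.casesOn'_some] at this
    simpa [this, Pi.single_apply, LinearMap.sum_apply] using h2

theorem eq_zero_of_tanHom_eq (D : Type) [CommRing D] [Algebra ℂ D] (e : D) (he : e * e = 0)
    (hne : e ≠ 0) (ρ : B →ₐ[ℂ] ℂ) (l : B →ₗ[ℂ] ℂ) (hl : IsTan ρ l)
    (h : tanHom D e he ρ 0 (IsTan.zero ρ) = tanHom D e he ρ l hl) : l = 0 := by
  ext1 b
  have h2 := DFunLike.congr_fun h b
  rw [tanHom_apply, tanHom_apply, LinearMap.zero_apply, zero_smul, add_zero] at h2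
  have h3 : l b • e = 0 := (add_eq_left.1 h2.symm)
  rw [LinearMap.zero_apply]
  exact (smul_eq_zero.1 h3).resolve_right hne

theorem eps_ne_zero : (DualNumber.eps : DualNumber ℂ) ≠ 0 := by
  intro h
  have := congrArg TrivSqZeroExt.snd h
  simp at this

/-- The bound on first order deformations bounds the local dimension. -/
theorem localDim_le {X : CohSys C ℂ n k} {N : ℕ} (hX : TangentBound X N) : X.localDim ≤ N := by
  unfold localDim
  refine iSup_le fun R => iSup_le fun _ => iSup_le fun _ => iSup_le fun _ => iSup_le fun _ =>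
    iSup_le fun hπ => iSup_le fun h𝓕 => ?_
  obtain ⟨π⟩ := hπ
  obtain ⟨𝓕⟩ := h𝓕
  set m := IsLocalRing.maximalIdeal R with hm
  have hker : ∀ a : R, a ∈ m ↔ π a = 0 := by
    intro a
    constructor
    · exact fun ha => algHom_eq_zero π ha
    · intro ha
      rw [hm, IsLocalRing.mem_maximalIdeal, mem_nonunits_iff]
      intro hu
      have := hu.map π
      rw [ha] at this
      exact not_isUnit_zero this
  have hπ2 : ∀ a ∈ m ^ (1 + 1), π a = 0 :=
    fun a ha => (hker a).1 (Ideal.pow_le_self (by norm_num) ha)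
  have hπ1 : ∀ a ∈ m ^ (0 + 1), π a = 0 :=
    fun a ha => (hker a).1 (Ideal.pow_le_self (by norm_num) ha)
  let ρ : (R ⧸ m ^ (1 + 1)) →ₐ[ℂ] ℂ := Ideal.Quotient.liftₐ _ π hπ2
  let ρ0 : (R ⧸ m ^ (0 + 1)) →ₐ[ℂ] ℂ := Ideal.Quotient.liftₐ _ π hπ1
  have hρ : ∀ a : R, ρ (Ideal.Quotient.mk _ a) = π a := fun a => rfl
  have hsq : ∀ a b : R ⧸ m ^ (1 + 1), ρ a = 0 → ρ b = 0 → a * b = 0 := by
    intro a b ha hb
    obtain ⟨a, rfl⟩ := Ideal.Quotient.mk_surjective a
    obtain ⟨b, rfl⟩ := Ideal.Quotient.mk_surjective b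
    rw [hρ, ← hker] at ha hb
    rw [← map_mul, Ideal.Quotient.eq_zero_iff_mem, show 1 + 1 = 2 from rfl, sq]
    exact Ideal.mul_mem_mul ha hb
  have hi : Iso ((𝓕.fam 1).map ρ) X := by
    obtain ⟨Y0, hY0, hi0⟩ := 𝓕.compat 0
    obtain ⟨Y1, hY1, hi1⟩ := 𝓕.special ρ0
    rw [isPullback_iff] at hY0 hY1
    subst hY0
    subst hY1
    have h1 := hi0.map ρ0
    rw [map_map] at h1
    have h2 := h1.trans hi1
    have h3 : ρ0.comp (trunc R 0) = ρ := by
      apply Ideal.Quotient.algHom_ext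
      ext
      rfl
    rw [h3] at h2
    exact h2
  obtain ⟨Y, hY, hYX⟩ := exists_normalise X (𝓕.fam 1) ρ hi
  have hunr : ∀ (l : (R ⧸ m ^ (1 + 1)) →ₗ[ℂ] ℂ) (hl : IsTan ρ l),
      Iso (Y.map (tanHom (DualNumber ℂ) DualNumber.eps DualNumber.eps_mul_eps ρ 0 (IsTan.zero ρ)))
        (Y.map (tanHom (DualNumber ℂ) DualNumber.eps DualNumber.eps_mul_eps ρ l hl)) → l = 0 := by
    intro l hl h
    let t0 := tanHom (DualNumber ℂ) DualNumber.eps DualNumber.eps_mul_eps ρ 0 (IsTan.zero ρ)
    let t1 := tanHom (DualNumber ℂ) DualNumber.eps DualNumber.eps_mul_eps ρ l hl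
    have h' : Iso ((𝓕.fam 1).map t0) ((𝓕.fam 1).map t1) :=
      ((hY.map t0).trans h).trans (hY.map t1).symm
    have h1 : t0 = t1 := 𝓕.unramified t0 t1
      ⟨_, _, (isPullback_iff _ _ _).2 rfl, (isPullback_iff _ _ _).2 rfl, h'⟩
    exact eq_zero_of_tanHom_eq _ _ _ eps_ne_zero ρ l hl h1
  have hbound := hX _ ρ Y hYX hunr
  have hsp : (IsLocalRing.maximalIdeal R).spanFinrank ≤ N := by
    refine spanFinrank_le π hker ρ hρ N fun w hw hli => ?_
    obtain ⟨f, hf1, hf⟩ := exists_functionals ρ w hw hli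
    exact hbound f (fun i => isTan_of_sq_zero ρ hsq (f i) (hf1 i)) hf
  exact (ringKrullDim_le_spanFinrank_maximalIdeal R).trans (by exact_mod_cast hsp)

end CohSys

end Pool.Agent.Hhelper20.CS
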