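import Mathlib

/-!
# Coherent systems on a smooth projective curve, and the local dimension of their moduli spaces

A smooth irreducible projective curve `C` over `ℂ` is described by its function field `F` and by
two affine open subsets covering it, each given by its coordinate ring inside `F`
(`Curve F`).

For a `ℂ`-algebra `B` and an affine open subset with coordinate ring `U ⊆ F`, the ring of functions
on the product of this open subset with `Spec B` is `B ⊗ U ⊆ B ⊗ F`. A vector bundle of rank `n` on
`C × Spec B` which is trivial on the two (thickened) charts is given by a gluing matrix with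
entries in `B ⊗ 𝒪(U₀ ∩ U₁)`. Every vector bundle on `C` is of this form for a suitable
choice of the two charts, and over an Artinian local base every deformation of a bundle which is
trivial on an affine chart is again trivial on that chart.
-/

open TensorProduct

namespace Pool.Agent.Hhelper20.CS

/-! ### Curves -/

/-- `U` is the coordinate ring of an affine open subset of the smooth projective curve with
function field `F`: a finitely generated `ℂ`-algebra that is a Dedekind domain, not a field, with
fraction field `F`. -/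
structure IsChart {F : Type} [Field F] [Algebra ℂ F] (U : Subalgebra ℂ F) : Prop where
  fg : U.FG
  dedekind : IsDedekindDomain U
  not_isField : ¬ IsField U
  frac : IsFractionRing U F

/-- A smooth irreducible projective curve over `ℂ` with function field `F`, presented by two affine
open subsets which cover it: every valuation ring of `F` that contains `ℂ` contains one of the two
coordinate rings. -/
structure Curve (F : Type) [Field F] [Algebra ℂ F] where
  /-- coordinate ring of the first chart -/
  U0 : Subalgebra ℂ F
  /-- coordinate ring of the second chart -/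
  U1 : Subalgebra ℂ F
  chart0 : IsChart U0
  chart1 : IsChart U1
  cover : ∀ v : ValuationSubring F, (∀ c : ℂ, algebraMap ℂ F c ∈ v) →
    (∀ a ∈ U0, a ∈ v) ∨ (∀ a ∈ U1, a ∈ v)

/-! ### Cohomology of the two-chart cover -/

section cech

variable {W : Type} [AddCommGroup W] [Module ℂ W]

/-- Dimension of `H⁰`, for sections `M0`, `M1` over the two charts. -/
noncomputable def h0 (M0 M1 : Submodule ℂ W) : ℕ := Module.finrank ℂ ↥(M0 ⊓ M1)

/-- Dimension of `H¹`, for sections `M0`, `M1` over the two charts and `M01` over their
intersection. -/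
noncomputable def h1 (M0 M1 M01 : Submodule ℂ W) : ℕ :=
  Module.finrank ℂ (↥M01 ⧸ (M0 ⊔ M1).comap M01.subtype)

/-- Euler characteristic. -/
noncomputable def chi (M0 M1 M01 : Submodule ℂ W) : ℤ := (h0 M0 M1 : ℤ) - (h1 M0 M1 M01 : ℤ)

end cech

variable {F : Type} [Field F] [Algebra ℂ F]

namespace Curve

variable (C : Curve F)

/-- Coordinate ring of the intersection of the two charts. -/
def U01 : Subalgebra ℂ F := C.U0 ⊔ C.U1

/-- The genus `dim H¹(C, 𝒪)`. -/
noncomputable def genus : ℕ :=
  h1 (Subalgebra.toSubmodule C.U0) (Subalgebra.toSubmodule C.U1) (Subalgebra.toSubmodule C.U01)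

/-- The Euler characteristic of the structure sheaf. -/
noncomputable def chiO : ℤ :=
  chi (Subalgebra.toSubmodule C.U0) (Subalgebra.toSubmodule C.U1) (Subalgebra.toSubmodule C.U01)

end Curve

/-! ### Families of coherent systems -/

section base

variable {B B' : Type} [CommRing B] [Algebra ℂ B] [CommRing B'] [Algebra ℂ B']

/-- The functions on `U × Spec B`, inside `B ⊗ F`: the finite sums of elements `b ⊗ u` with
`u ∈ U`. -/
noncomputable def fn (B : Type) [CommRing B] [Algebra ℂ B] (U : Subalgebra ℂ F) :
    AddSubmonoid (B ⊗[ℂ] F) := AddSubmonoid.closure {z | ∃ (b : B) (u : F), u ∈ U ∧ b ⊗ₜ u = z}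

/-- Change of base `B ⊗ F → B' ⊗ F` along `φ : B → B'`. -/
noncomputable def bc (φ : B →ₐ[ℂ] B') : B ⊗[ℂ] F →+* B' ⊗[ℂ] F :=
  (Algebra.TensorProduct.map φ (AlgHom.id ℂ F)).toRingHom

/-- The value in `F` of an element of `B ⊗ F` at the `ℂ`-point `ρ` of the base,
`b ⊗ u ↦ ρ(b) u`. -/
noncomputable def ev (ρ : B →ₐ[ℂ] ℂ) : B ⊗[ℂ] F →+* F :=
  (Algebra.TensorProduct.lift ((Algebra.ofId ℂ F).comp ρ) (AlgHom.id ℂ F)
    (fun _ _ => Commute.all _ _)).toRingHom

/-- The inclusion `B → B ⊗ F`, `b ↦ b ⊗ 1`. -/
noncomputable def inL (F : Type) [Field F] [Algebra ℂ F] (B : Type) [CommRing B] [Algebra ℂ B] :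
    B →+* B ⊗[ℂ] F := Algebra.TensorProduct.includeLeftRingHom

/-- All entries of the matrix are functions on `U × Spec B`. -/
def Over (U : Subalgebra ℂ F) {p q : ℕ} (M : Matrix (Fin p) (Fin q) (B ⊗[ℂ] F)) : Prop :=
  ∀ i j, M i j ∈ fn B U

/-- The invertible matrix `g` and its inverse have entries in the functions on `U × Spec B`. -/
def GOver (U : Subalgebra ℂ F) {n : ℕ} (g : GL (Fin n) (B ⊗[ℂ] F)) : Prop :=
  Over U g.val ∧ Over U g.inv

end base

/-- A family of coherent systems of rank `n` with `k` sections on `C × Spec B`, for a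
`ℂ`-algebra `B`: the bundle is given by the gluing matrix `g` between the trivial bundles on the
two charts; the space of sections is the `B`-span of `k` sections, the columns of the matrices
`s0`, `s1`, which are the restrictions of the sections to the two charts; at every `ℂ`-point of the
base the `k` sections are linearly independent. For `B = ℂ` this is a coherent system on `C`. -/
structure CohSys (C : Curve F) (B : Type) [CommRing B] [Algebra ℂ B] (n k : ℕ) where
  g : GL (Fin n) (B ⊗[ℂ] F)
  s0 : Matrix (Fin n) (Fin k) (B ⊗[ℂ] F)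
  s1 : Matrix (Fin n) (Fin k) (B ⊗[ℂ] F)
  hg : GOver C.U01 g
  h0 : Over C.U0 s0
  h1 : Over C.U1 s1
  glue : s0 = g.val * s1
  indep : ∀ ρ : B →ₐ[ℂ] ℂ, LinearIndependent ℂ (fun (j : Fin k) (a : Fin n) => ev ρ (s0 a j))

namespace CohSys

variable {C : Curve F} {B B' : Type} [CommRing B] [Algebra ℂ B] [CommRing B'] [Algebra ℂ B']
  {n k : ℕ}

/-- `Y` is the pull-back of the family `X` along the map `Spec B' → Spec B` given by `φ`. -/
def IsPullback (φ : B →ₐ[ℂ] B') (X : CohSys C B n k) (Y : CohSys C B' n k) : Prop :=
  Y.g.val = X.g.val.map (bc φ) ∧ Y.s0 = X.s0.map (bc φ) ∧ Y.s1 = X.s1.map (bc φ)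

/-- Isomorphism of families over the same base: changes of frame `u0`, `u1` of the bundle over the
two charts, and a change of basis `P` of the space of sections. -/
def Iso (X Y : CohSys C B n k) : Prop :=
  ∃ (u0 u1 : GL (Fin n) (B ⊗[ℂ] F)) (P : GL (Fin k) B), GOver C.U0 u0 ∧ GOver C.U1 u1 ∧
    Y.g.val * u1.val = u0.val * X.g.val ∧
    Y.s0 = u0.val * X.s0 * P.val.map (inL F B) ∧ Y.s1 = u1.val * X.s1 * P.val.map (inL F B)

/-- The family `Y` over `B` has determinant isomorphic to the constant family with fibre the
determinant line bundle of `X`. -/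
def SameDet (X : CohSys C ℂ n k) (Y : CohSys C B n k) : Prop :=
  ∃ u0 u1 v0 v1 : B ⊗[ℂ] F, u0 ∈ fn B C.U0 ∧ v0 ∈ fn B C.U0 ∧ u0 * v0 = 1 ∧
    u1 ∈ fn B C.U1 ∧ v1 ∈ fn B C.U1 ∧ u1 * v1 = 1 ∧
    Y.g.val.det = u0 * bc (Algebra.ofId ℂ B) X.g.val.det * u1

/-! ### Coherent systems over a point: degree, determinant, stability -/

variable (X : CohSys C ℂ n k)

/-- The gluing matrix with entries in the function field. -/
noncomputable def gF : Matrix (Fin n) (Fin n) F := X.g.val.map (ev (AlgHom.id ℂ ℂ))

/-- Sections over the first chart, inside the generic fibre `F ^ n`. -/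
def E0 (_ : CohSys C ℂ n k) : Submodule ℂ (Fin n → F) :=
  Submodule.pi Set.univ fun _ => Subalgebra.toSubmodule C.U0

/-- Sections over the second chart, inside the generic fibre `F ^ n`. -/
noncomputable def E1 : Submodule ℂ (Fin n → F) :=
  (Submodule.pi Set.univ fun _ => Subalgebra.toSubmodule C.U1).map
    ((Matrix.mulVecLin X.gF).restrictScalars ℂ)

/-- Sections over the intersection of the charts, inside the generic fibre `F ^ n`. -/
def E01 (_ : CohSys C ℂ n k) : Submodule ℂ (Fin n → F) :=
  Submodule.pi Set.univ fun _ => Subalgebra.toSubmodule C.U01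

/-- The space of sections of the coherent system, inside the generic fibre `F ^ n`. -/
noncomputable def V : Submodule ℂ (Fin n → F) :=
  Submodule.span ℂ (Set.range fun (j : Fin k) (a : Fin n) => ev (AlgHom.id ℂ ℂ) (X.s0 a j))

/-- The degree of the subbundle of `E` with generic fibre `S ⊆ F ^ n`, by Riemann–Roch:
`deg = χ(S) - rk(S) χ(𝒪)`. -/
noncomputable def degSub (S : Submodule F (Fin n → F)) : ℤ :=
  chi (S.restrictScalars ℂ ⊓ X.E0) (S.restrictScalars ℂ ⊓ X.E1) (S.restrictScalars ℂ ⊓ X.E01) -
    Module.finrank F S * C.chiO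

/-- The degree of `E`. -/
noncomputable def deg : ℤ := X.degSub ⊤

/-- `h¹` of the determinant line bundle of `E`. -/
noncomputable def h1det : ℕ :=
  CS.h1 (Subalgebra.toSubmodule C.U0)
    ((Subalgebra.toSubmodule C.U1).map ((LinearMap.mulLeft F X.gF.det).restrictScalars ℂ))
    (Subalgebra.toSubmodule C.U01)

/-- `α`-stability: every proper subsystem `(S, W)`, with `S ≠ 0` a subbundle, `W ⊆ V ∩ H⁰(S)` and
`(S, W) ≠ (E, V)`, has strictly smaller `α`-slope. Subbundles of `E` correspond to subspaces of the
generic fibre. -/
def IsStable (α : ℝ) : Prop :=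
  ∀ (S : Submodule F (Fin n → F)) (W : Submodule ℂ (Fin n → F)), S ≠ ⊥ →
    ¬ (S = ⊤ ∧ W = X.V) → W ≤ X.V → W ≤ S.restrictScalars ℂ →
    ((X.degSub S : ℝ) + α * Module.finrank ℂ W) / Module.finrank F S < ((X.deg : ℝ) + α * k) / n

/-! ### Formal families and local dimension -/

/-- Over the dual numbers, the pull-backs of the family `X` along `t` and `t'` are isomorphic. -/
def SamePullback (X : CohSys C B n k) (t t' : B →ₐ[ℂ] B') : Prop :=
  ∃ Y Y' : CohSys C B' n k, IsPullback t X Y ∧ IsPullback t' X Y' ∧ Iso Y Y'

/-- Truncation `R / m ^ (j + 2) → R / m ^ (j + 1)` for a local ring `R`. -/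
noncomputable def trunc (R : Type) [CommRing R] [Algebra ℂ R] [IsLocalRing R] (j : ℕ) :
    (R ⧸ IsLocalRing.maximalIdeal R ^ (j + 2)) →ₐ[ℂ] (R ⧸ IsLocalRing.maximalIdeal R ^ (j + 1)) :=
  Ideal.Quotient.factorₐ ℂ (Ideal.pow_le_pow_right (Nat.le_succ (j + 1)))

/-- A formal family over the local ring `R` (with residue field `ℂ`) of coherent systems with the
fixed determinant `det X` and with special fibre `X`: compatible families over `R / m ^ (j + 1)`.
The last condition says that the classifying map from `Spf R` to the moduli space is unramified: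
different tangent vectors of `R` give non-isomorphic families over the dual numbers. -/
structure FormalFamily (X : CohSys C ℂ n k) (R : Type) [CommRing R] [Algebra ℂ R]
    [IsLocalRing R] where
  fam : ∀ j : ℕ, CohSys C (R ⧸ IsLocalRing.maximalIdeal R ^ (j + 1)) n k
  det : ∀ j, SameDet X (fam j)
  compat : ∀ j, ∃ Y, IsPullback (trunc R j) (fam (j + 1)) Y ∧ Iso Y (fam j)
  special : ∀ ρ, ∃ Y, IsPullback ρ (fam 0) Y ∧ Iso Y X
  unramified : ∀ t t' : (R ⧸ IsLocalRing.maximalIdeal R ^ 2) →ₐ[ℂ] DualNumber ℂ,
    SamePullback (fam 1) t t' → t = t'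

/-- The local dimension at the (stable) coherent system `X` of the moduli space of coherent
systems of its type with determinant `det X`: the supremum of the dimensions of the Noetherian
local `ℂ`-algebras with residue field `ℂ` that carry an unramified formal family with special fibre
`X`. It is attained by the local ring of the moduli space at `X` (the moduli space has
a universal family étale locally), and no other such ring has larger dimension, its completion
being a quotient of the completed local ring of the moduli space. -/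
noncomputable def localDim : WithBot ℕ∞ :=
  ⨆ (R : Type) (_ : CommRing R) (_ : Algebra ℂ R) (_ : IsLocalRing R) (_ : IsNoetherianRing R)
    (_ : Nonempty (R →ₐ[ℂ] ℂ)) (_ : Nonempty (FormalFamily X R)), ringKrullDim R

end CohSys

/-- The Brill–Noether number `β(n,d,k) = n²(g-1) + 1 - k(k - d + n(g-1))`. -/
def beta (g n d k : ℤ) : ℤ := n ^ 2 * (g - 1) + 1 - k * (k - d + n * (g - 1))

end Pool.Agent.Hhelper20.CS
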