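import Pool.Agent.Hhelper20.CS.Defs

open Polynomial

namespace Pool.Agent.Hhelper20.CS

/-- Function field data for the hyperelliptic curve `y ^ 2 = x ^ (2 * m) + 1` of genus `m - 1`. -/
structure Hyp (F : Type) [Field F] [Algebra ℂ F] (m : ℕ) where
  x : F
  y : F
  σ : F →ₐ[ℂ] F
  hy : y ^ 2 = x ^ (2 * m) + 1
  σx : σ x = x
  σy : σ y = -y
  indep : ∀ a b : ℂ[X], aeval x a + aeval x b * y = 0 → a = 0 ∧ b = 0
  gen : ∀ z : F, ∃ a b c : ℂ[X], c ≠ 0 ∧ z * aeval x c = aeval x a + aeval x b * y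

namespace Hyp

variable {F : Type} [Field F] [Algebra ℂ F] {m : ℕ} (h : Hyp F m)

/-- The polynomial `X ^ (2 * m) + 1`. -/
noncomputable def f (m : ℕ) : ℂ[X] := X ^ (2 * m) + 1

theorem f_eq : aeval h.x (f m) = h.y ^ 2 := by
  simp [f, h.hy]

theorem squarefree_f (hm : 0 < m) : Squarefree (f m) := by
  have h1 : (X ^ (2 * m) - C (-1 : ℂ) : ℂ[X]) = f m := by
    simp [f]
  rw [← h1]
  exact (separable_X_pow_sub_C (-1 : ℂ) (by exact_mod_cast (by omega : 2 * m ≠ 0))
    (by norm_num)).squarefree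

theorem inj {a : ℂ[X]} (ha : aeval h.x a = 0) : a = 0 :=
  (h.indep a 0 (by simp [ha])).1

theorem x_ne : h.x ≠ 0 := by
  intro hx
  have := h.inj (a := X) (by simp [hx])
  exact X_ne_zero this

theorem y_ne : h.y ≠ 0 := by
  intro hy
  have := (h.indep 0 1 (by simp [hy])).2
  exact one_ne_zero this

theorem eq_iff {a b a' b' : ℂ[X]} (e : aeval h.x a + aeval h.x b * h.y =
    aeval h.x a' + aeval h.x b' * h.y) : a = a' ∧ b = b' := by
  have := h.indep (a - a') (b - b') (by rw [map_sub, map_sub]; linear_combination e)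
  exact ⟨sub_eq_zero.1 this.1, sub_eq_zero.1 this.2⟩

theorem σ_aeval (a : ℂ[X]) : h.σ (aeval h.x a) = aeval h.x a := by
  rw [← aeval_algHom_apply, h.σx]

/-- The affine coordinate ring `ℂ[x] + ℂ[x] y`. -/
noncomputable def U : Subalgebra ℂ F where
  carrier := {z | ∃ a b : ℂ[X], z = aeval h.x a + aeval h.x b * h.y}
  mul_mem' := by
    rintro _ _ ⟨a, b, rfl⟩ ⟨a', b', rfl⟩
    refine ⟨a * a' + b * b' * f m, a * b' + a' * b, ?_⟩
    simp only [map_add, map_mul, h.f_eq]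
    ring
  add_mem' := by
    rintro _ _ ⟨a, b, rfl⟩ ⟨a', b', rfl⟩
    refine ⟨a + a', b + b', ?_⟩
    simp only [map_add]
    ring
  algebraMap_mem' := by
    intro r
    exact ⟨C r, 0, by simp⟩

theorem mem_U {z : F} : z ∈ h.U ↔ ∃ a b : ℂ[X], z = aeval h.x a + aeval h.x b * h.y := Iff.rfl

theorem x_mem : h.x ∈ h.U := ⟨X, 0, by simp⟩

theorem y_mem : h.y ∈ h.U := ⟨0, 1, by simp⟩

theorem aeval_mem (a : ℂ[X]) : aeval h.x a ∈ h.U := ⟨a, 0, by simp⟩

theorem U_eq_adjoin : h.U = Algebra.adjoin ℂ {h.x, h.y} := by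
  apply le_antisymm
  · rintro _ ⟨a, b, rfl⟩
    have hx : h.x ∈ Algebra.adjoin ℂ {h.x, h.y} := Algebra.subset_adjoin (by simp)
    have hy : h.y ∈ Algebra.adjoin ℂ {h.x, h.y} := Algebra.subset_adjoin (by simp)
    have ha : ∀ a : ℂ[X], aeval h.x a ∈ Algebra.adjoin ℂ {h.x, h.y} := by
      intro a
      have : aeval h.x a ∈ Algebra.adjoin ℂ {h.x} := aeval_mem_adjoin_singleton ℂ h.x
      exact Algebra.adjoin_mono (by simp) this
    exact Subalgebra.add_mem _ (ha a) (Subalgebra.mul_mem _ (ha b) hy)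
  · rw [Algebra.adjoin_le_iff]
    rintro z (rfl | rfl)
    · exact h.x_mem
    · exact h.y_mem

theorem fg : h.U.FG := by
  rw [h.U_eq_adjoin]
  exact Subalgebra.fg_def.2 ⟨{h.x, h.y}, by simp, rfl⟩

theorem not_isField : ¬ IsField h.U := by
  intro hf
  obtain ⟨z, hz⟩ := hf.mul_inv_cancel (a := ⟨h.x, h.x_mem⟩)
    (fun e => h.x_ne (congrArg Subtype.val e))
  obtain ⟨a, b, hab⟩ := z.2
  have h1 := congrArg Subtype.val hz
  simp only [MulMemClass.coe_mul, OneMemClass.coe_one] at h1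
  rw [hab] at h1
  have h2 := h.eq_iff (a := X * a) (b := X * b) (a' := 1) (b' := 0) (by
    simp only [map_mul, aeval_X, map_one, map_zero, zero_mul, add_zero]
    linear_combination h1)
  have h3 := congrArg (eval 0) h2.1
  simp at h3

theorem frac : IsFractionRing h.U F := by
  apply IsFractionRing.of_field
  intro z
  obtain ⟨a, b, c, hc, hz⟩ := h.gen z
  have hc' : aeval h.x c ≠ 0 := fun e => hc (h.inj e)
  refine ⟨⟨aeval h.x a + aeval h.x b * h.y, a, b, rfl⟩, ⟨aeval h.x c, h.aeval_mem c⟩, ?_⟩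
  rw [eq_div_iff (by exact hc')]
  exact hz

/-- An element that is integral over `ℂ[x]` and is a quotient of polynomials in `x` is a
polynomial in `x`. -/
theorem poly_of_integral {w : F} (p q : ℂ[X]) (hq : q ≠ 0) (hw : w * aeval h.x q = aeval h.x p)
    (hint : (aeval h.x : ℂ[X] →ₐ[ℂ] F).toRingHom.IsIntegralElem w) :
    ∃ r : ℂ[X], w = aeval h.x r := by
  letI : Algebra ℂ[X] F := (aeval h.x : ℂ[X] →ₐ[ℂ] F).toRingHom.toAlgebra
  have halg : ∀ a : ℂ[X], algebraMap ℂ[X] F a = aeval h.x a := fun a => rfl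
  have hinj : Function.Injective (algebraMap ℂ[X] F) := by
    rw [injective_iff_map_eq_zero]
    intro a ha
    exact h.inj ha
  haveI : FaithfulSMul ℂ[X] F := (faithfulSMul_iff_algebraMap_injective _ _).2 hinj
  letI : Algebra (FractionRing ℂ[X]) F := FractionRing.liftAlgebra ℂ[X] F
  haveI : IsScalarTower ℂ[X] (FractionRing ℂ[X]) F := FractionRing.isScalarTower_liftAlgebra ℂ[X] F
  let K := FractionRing ℂ[X]
  have hq' : algebraMap ℂ[X] K q ≠ 0 := by
    rw [Ne, FaithfulSMul.algebraMap_eq_zero_iff]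
    exact hq
  have hw' : algebraMap K F (algebraMap ℂ[X] K p / algebraMap ℂ[X] K q) = w := by
    rw [map_div₀, ← IsScalarTower.algebraMap_apply, ← IsScalarTower.algebraMap_apply, halg, halg,
      div_eq_iff, hw]
    intro e
    exact hq (h.inj e)
  have hint' : IsIntegral ℂ[X] (algebraMap K F (algebraMap ℂ[X] K p / algebraMap ℂ[X] K q)) := by
    rw [hw']
    exact hint
  rw [isIntegral_algebraMap_iff (algebraMap K F).injective] at hint'
  obtain ⟨r, hr⟩ := (IsIntegrallyClosed.isIntegral_iff (K := K)).1 hint'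
  refine ⟨r, ?_⟩
  rw [← hw', ← hr, ← IsScalarTower.algebraMap_apply]
  rfl

end Hyp

end Pool.Agent.Hhelper20.CS
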