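import Pool.Agent.Hhelper20.CS.Hyp9

open TensorProduct

namespace Pool.Agent.Hhelper20.CS

/-- Formal power series in two variables. -/
abbrev PS2 : Type := PowerSeries (PowerSeries ℂ)

/-- The first variable. -/
noncomputable def ps : PS2 := PowerSeries.C (PowerSeries.X : PowerSeries ℂ)

/-- The second variable. -/
noncomputable def pt : PS2 := PowerSeries.X

theorem ps_mem : ps ∈ IsLocalRing.maximalIdeal PS2 := by
  rw [IsLocalRing.mem_maximalIdeal, mem_nonunits_iff]
  intro hu
  have h1 := hu.map (PowerSeries.constantCoeff (R := PowerSeries ℂ))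
  rw [ps, PowerSeries.constantCoeff_C] at h1
  have h2 := h1.map (PowerSeries.constantCoeff (R := ℂ))
  rw [PowerSeries.constantCoeff_X] at h2
  exact not_isUnit_zero h2

theorem pt_mem : pt ∈ IsLocalRing.maximalIdeal PS2 := by
  rw [IsLocalRing.mem_maximalIdeal, mem_nonunits_iff]
  intro hu
  have h1 := hu.map (PowerSeries.constantCoeff (R := PowerSeries ℂ))
  rw [pt, PowerSeries.constantCoeff_X] at h1
  exact not_isUnit_zero h1

theorem ps2_decomp (r : PS2) : ∃ (a : ℂ) (u v : PS2), r = algebraMap ℂ PS2 a + ps * u + pt * v := by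
  have h1 := PowerSeries.eq_X_mul_shift_add_const r
  have h2 := PowerSeries.eq_X_mul_shift_add_const (PowerSeries.constantCoeff r)
  refine ⟨PowerSeries.constantCoeff (PowerSeries.constantCoeff r), PowerSeries.C
    (PowerSeries.mk fun p => PowerSeries.coeff (p + 1) (PowerSeries.constantCoeff r)),
    PowerSeries.mk fun p => PowerSeries.coeff (p + 1) r, ?_⟩
  have h3 : algebraMap ℂ PS2 (PowerSeries.constantCoeff (PowerSeries.constantCoeff r)) =
      PowerSeries.C (PowerSeries.C (PowerSeries.constantCoeff (PowerSeries.constantCoeff r))) := by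
    rw [PowerSeries.algebraMap_apply, PowerSeries.algebraMap_apply]
    rfl
  have h4 := congrArg (PowerSeries.C (R := PowerSeries ℂ)) h2
  rw [map_add, map_mul] at h4
  rw [h3, ps, pt]
  linear_combination h1 + h4

theorem ps2_dim : 2 ≤ ringKrullDim PS2 := by
  have h1 := ringKrullDim_succ_le_ringKrullDim_powerseries (R := ℂ)
  have h2 := ringKrullDim_succ_le_ringKrullDim_powerseries (R := PowerSeries ℂ)
  rw [ringKrullDim_eq_zero_of_field, zero_add] at h1
  refine le_trans ?_ h2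
  have h3 : (2 : WithBot ℕ∞) = 1 + 1 := by norm_num
  rw [h3]
  gcongr

/-- Homomorphisms from power series modulo the square of the maximal ideal are determined by the
images of the two variables. -/
theorem ps2_hom_ext {D : Type} [CommRing D] [Algebra ℂ D]
    (t t' : (PS2 ⧸ IsLocalRing.maximalIdeal PS2 ^ (1 + 1)) →ₐ[ℂ] D)
    (hs : t (Ideal.Quotient.mk _ ps) = t' (Ideal.Quotient.mk _ ps))
    (ht : t (Ideal.Quotient.mk _ pt) = t' (Ideal.Quotient.mk _ pt)) : t = t' := by
  apply Ideal.Quotient.algHom_ext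
  apply AlgHom.ext
  intro r
  obtain ⟨a, u, v, rfl⟩ := ps2_decomp r
  obtain ⟨b, u1, u2, rfl⟩ := ps2_decomp u
  obtain ⟨c, v1, v2, rfl⟩ := ps2_decomp v
  have h2 : ∀ x y z : PS2, x ∈ IsLocalRing.maximalIdeal PS2 → y ∈ IsLocalRing.maximalIdeal PS2 →
      Ideal.Quotient.mk (IsLocalRing.maximalIdeal PS2 ^ (1 + 1)) (x * (y * z)) = 0 := by
    intro x y z hx hy
    rw [Ideal.Quotient.eq_zero_iff_mem, show 1 + 1 = 2 from rfl, sq]
    exact Ideal.mul_mem_mul hx (Ideal.mul_mem_right _ _ hy)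
  have h3 : Ideal.Quotient.mk (IsLocalRing.maximalIdeal PS2 ^ (1 + 1))
      (algebraMap ℂ PS2 a + ps * (algebraMap ℂ PS2 b + ps * u1 + pt * u2) +
        pt * (algebraMap ℂ PS2 c + ps * v1 + pt * v2)) =
      algebraMap ℂ _ a + algebraMap ℂ _ b * Ideal.Quotient.mk _ ps +
        algebraMap ℂ _ c * Ideal.Quotient.mk _ pt := by
    simp only [mul_add, map_add]
    rw [h2 _ _ _ ps_mem ps_mem, h2 _ _ _ ps_mem pt_mem, h2 _ _ _ pt_mem ps_mem,
      h2 _ _ _ pt_mem pt_mem, map_mul, map_mul]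
    have h4 : ∀ a : ℂ, Ideal.Quotient.mk (IsLocalRing.maximalIdeal PS2 ^ (1 + 1))
      (algebraMap ℂ PS2 a) = algebraMap ℂ _ a := fun a => rfl
    rw [h4, h4, h4]
    ring
  change t (Ideal.Quotient.mk _ _) = t' (Ideal.Quotient.mk _ _)
  rw [h3]
  simp only [map_add, map_mul, AlgHom.commutes, hs, ht]

namespace Hyp

variable {F : Type} [Field F] [Algebra ℂ F] {m : ℕ} (h : Hyp F m)

/-- The unramified formal family over the power series ring in two variables. -/
noncomputable def formalFamily (hm : 0 < m) : CohSys.FormalFamily (h.sys hm) PS2 where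
  fam := fun j => h.fam hm (Ideal.Quotient.mk _ ps) (Ideal.Quotient.mk _ pt)
  det := fun j => h.fam_det hm _ _
  compat := by
    intro j
    refine ⟨_, (CohSys.isPullback_iff _ _ _).2 rfl, ?_⟩
    rw [h.fam_map]
    exact CohSys.Iso.refl _
  special := by
    intro ρ
    refine ⟨_, (CohSys.isPullback_iff _ _ _).2 rfl, ?_⟩
    rw [h.fam_map]
    have e1 : ∀ x ∈ IsLocalRing.maximalIdeal PS2,
        ρ (Ideal.Quotient.mk (IsLocalRing.maximalIdeal PS2 ^ (0 + 1)) x) = 0 := by
      intro x hx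
      have : Ideal.Quotient.mk (IsLocalRing.maximalIdeal PS2 ^ (0 + 1)) x = 0 := by
        rw [Ideal.Quotient.eq_zero_iff_mem, zero_add, pow_one]
        exact hx
      rw [this, map_zero]
    rw [e1 _ ps_mem, e1 _ pt_mem]
    exact CohSys.Iso.refl _
  unramified := by
    rintro t t' ⟨Y, Y', hY, hY', hi⟩
    rw [CohSys.isPullback_iff] at hY hY'
    rw [hY, hY', h.fam_map, h.fam_map] at hi
    let ρ : DualNumber ℂ →ₐ[ℂ] ℂ := TrivSqZeroExt.fstHom ℂ ℂ ℂ
    let l : DualNumber ℂ →ₗ[ℂ] ℂ := TrivSqZeroExt.sndHom ℂ ℂ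
    have hl : IsTan ρ l := by
      intro a b
      change (a * b).snd = a.fst * b.snd + a.snd * b.fst
      rw [TrivSqZeroExt.snd_mul]
      simp
    have hz : ∀ (τ : (PS2 ⧸ IsLocalRing.maximalIdeal PS2 ^ (1 + 1)) →ₐ[ℂ] DualNumber ℂ),
        ∀ x ∈ IsLocalRing.maximalIdeal PS2, ρ (τ (Ideal.Quotient.mk _ x)) = 0 := by
      intro τ x hx
      exact algHom_eq_zero ((ρ.comp τ).comp (Ideal.Quotient.mkₐ ℂ _)) hx
    obtain ⟨e1, e2⟩ := h.fam_iso ρ l hl hm _ _ _ _ (hz t _ ps_mem) (hz t _ pt_mem)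
      (hz t' _ ps_mem) (hz t' _ pt_mem) hi
    apply ps2_hom_ext
    · exact TrivSqZeroExt.ext ((hz t _ ps_mem).trans (hz t' _ ps_mem).symm) e1
    · exact TrivSqZeroExt.ext ((hz t _ pt_mem).trans (hz t' _ pt_mem).symm) e2

theorem two_le_localDim (hm : 0 < m) : 2 ≤ (h.sys hm).localDim := by
  refine ps2_dim.trans ?_
  unfold CohSys.localDim
  have π : PS2 →ₐ[ℂ] ℂ :=
    { (PowerSeries.constantCoeff (R := ℂ)).comp
        (PowerSeries.constantCoeff (R := PowerSeries ℂ)) with
      commutes' := fun r => by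
        change PowerSeries.constantCoeff (PowerSeries.constantCoeff
          (PowerSeries.C (PowerSeries.C r))) = r
        simp }
  exact le_iSup_of_le PS2 (le_iSup_of_le inferInstance (le_iSup_of_le inferInstance
    (le_iSup_of_le inferInstance (le_iSup_of_le inferInstance
      (le_iSup_of_le ⟨π⟩ (le_iSup_of_le ⟨h.formalFamily hm⟩ le_rfl))))))

theorem localDim_eq (hm : 0 < m) (hm5 : 5 ≤ m) : (h.sys hm).localDim = 2 :=
  le_antisymm (h.localDim_le hm hm5) (h.two_le_localDim hm)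

end Hyp

end Pool.Agent.Hhelper20.CS
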