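import Pool.Agent.Hhelper20.CS.Hyp1

open Polynomial

namespace Pool.Agent.Hhelper20.CS

namespace Hyp

variable {F : Type} [Field F] [Algebra ℂ F] {m : ℕ} (h : Hyp F m)

theorem dvd_of_sq_dvd {f b c : ℂ[X]} (hf : Squarefree f) (hc : c ≠ 0)
    (hd : c ^ 2 ∣ b ^ 2 * f) : c ∣ b := by
  have hg : EuclideanDomain.gcd b c ≠ 0 := fun e => hc (EuclideanDomain.gcd_eq_zero_iff.1 e).2
  obtain ⟨c', hc'⟩ := EuclideanDomain.gcd_dvd_right b c
  obtain ⟨b', hb'⟩ := EuclideanDomain.gcd_dvd_left b c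
  set d := EuclideanDomain.gcd b c with hd'
  have hcop : IsCoprime b' c' := by
    have h1 := EuclideanDomain.gcd_eq_gcd_ab b c
    refine ⟨EuclideanDomain.gcdA b c, EuclideanDomain.gcdB b c, ?_⟩
    have h2 : d * (EuclideanDomain.gcdA b c * b' + EuclideanDomain.gcdB b c * c') = d * 1 := by
      have h3 : d = b * EuclideanDomain.gcdA b c + c * EuclideanDomain.gcdB b c := h1
      have h4 : b * EuclideanDomain.gcdA b c + c * EuclideanDomain.gcdB b c =
        d * b' * EuclideanDomain.gcdA b c + d * c' * EuclideanDomain.gcdB b c := by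
          rw [← hb', ← hc']
      linear_combination h3.symm.trans rfl - h4 - 0 * h3
    exact mul_left_cancel₀ hg h2
  have h5 : c' ^ 2 ∣ f := by
    have h6 : c' ^ 2 ∣ b' ^ 2 * f := by
      rw [hb', hc', mul_pow, mul_pow, mul_assoc] at hd
      exact (mul_dvd_mul_iff_left (pow_ne_zero 2 hg)).1 hd
    exact (IsCoprime.dvd_of_dvd_mul_left (hcop.symm.pow) h6)
  have h7 : IsUnit c' := hf c' (by rwa [← sq])
  rw [hb']
  nth_rw 1 [hc']
  exact mul_dvd_mul_left _ (h7.dvd)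

theorem mem_of_integral (hm : 0 < m) {z : F}
    (hz : (aeval h.x : ℂ[X] →ₐ[ℂ] F).toRingHom.IsIntegralElem z) : z ∈ h.U := by
  obtain ⟨a, b, c, hc, hzc⟩ := h.gen z
  have hcF : aeval h.x c ≠ 0 := fun e => hc (h.inj e)
  have hσz : (aeval h.x : ℂ[X] →ₐ[ℂ] F).toRingHom.IsIntegralElem (h.σ z) := by
    obtain ⟨p, hp, hpz⟩ := hz
    refine ⟨p, hp, ?_⟩
    have h1 := congrArg h.σ hpz
    rw [map_zero] at h1
    rw [← h1]
    have h2 := Polynomial.hom_eval₂ p (aeval h.x : ℂ[X] →ₐ[ℂ] F).toRingHom h.σ.toRingHom z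
    refine Eq.trans ?_ h2.symm
    have h3 : h.σ.toRingHom.comp (aeval h.x : ℂ[X] →ₐ[ℂ] F).toRingHom =
        (aeval h.x : ℂ[X] →ₐ[ℂ] F).toRingHom := RingHom.ext fun a => h.σ_aeval a
    rw [h3]
    rfl
  have hσc : h.σ z * aeval h.x c = aeval h.x a - aeval h.x b * h.y := by
    have h1 := congrArg h.σ hzc
    simp only [map_mul, map_add, h.σ_aeval, h.σy] at h1
    rw [h1]; ring
  have hs : (aeval h.x : ℂ[X] →ₐ[ℂ] F).toRingHom.IsIntegralElem (z + h.σ z) :=
    RingHom.IsIntegralElem.add _ hz hσz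
  obtain ⟨r, hr⟩ := h.poly_of_integral (w := z + h.σ z) (2 * a) c hc (by
    rw [map_mul, map_ofNat]
    linear_combination hzc + hσc) hs
  have hhalf : (aeval h.x : ℂ[X] →ₐ[ℂ] F).toRingHom.IsIntegralElem (aeval h.x (C (1/2) * r)) := by
    exact RingHom.isIntegralElem_map _
  have hw : (aeval h.x : ℂ[X] →ₐ[ℂ] F).toRingHom.IsIntegralElem
      (z - aeval h.x (C (1/2) * r)) := RingHom.IsIntegralElem.sub _ hz hhalf
  have hac : 2 * aeval h.x a = aeval h.x r * aeval h.x c := by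
    rw [← hr]; linear_combination -hzc - hσc
  have h2 : aeval h.x (C (1/2 : ℂ)) * 2 = 1 := by
    rw [aeval_C, ← map_ofNat (algebraMap ℂ F) 2, ← map_mul]
    norm_num
  have hwc : (z - aeval h.x (C (1/2) * r)) * aeval h.x c = aeval h.x b * h.y := by
    rw [sub_mul, hzc, map_mul]
    linear_combination aeval h.x (C (1/2 : ℂ)) * hac - aeval h.x a * h2
  obtain ⟨w, hwz⟩ : ∃ w, w = z - aeval h.x (C (1/2) * r) := ⟨_, rfl⟩
  rw [← hwz] at hw hwc
  obtain ⟨t, ht⟩ := h.poly_of_integral (w := w * w)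
    (b ^ 2 * f m) (c ^ 2) (pow_ne_zero 2 hc) (by
      rw [map_mul, map_pow, map_pow, h.f_eq]
      linear_combination (w * aeval h.x c + aeval h.x b * h.y) * hwc)
    (RingHom.IsIntegralElem.mul _ hw hw)
  have htc : b ^ 2 * f m = t * c ^ 2 := by
    apply sub_eq_zero.1
    apply h.inj
    rw [map_sub, map_mul, map_mul, map_pow, map_pow, ← ht, h.f_eq]
    linear_combination -(w * aeval h.x c + aeval h.x b * h.y) * hwc
  obtain ⟨b', rfl⟩ := dvd_of_sq_dvd (squarefree_f hm) hc ⟨t, by rw [htc]; ring⟩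
  refine ⟨C (1/2) * r, b', ?_⟩
  rw [map_mul (aeval h.x) c b'] at hwc
  have := mul_right_cancel₀ hcF (hwc.trans (by ring :
    aeval h.x c * aeval h.x b' * h.y = (aeval h.x b' * h.y) * aeval h.x c))
  linear_combination this - hwz

theorem isIntegralElem_of_mem {z : F} (hz : z ∈ h.U) :
    (aeval h.x : ℂ[X] →ₐ[ℂ] F).toRingHom.IsIntegralElem z := by
  obtain ⟨a, b, rfl⟩ := hz
  refine RingHom.IsIntegralElem.add _ (RingHom.isIntegralElem_map _)
    (RingHom.IsIntegralElem.mul _ (RingHom.isIntegralElem_map _) ?_)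
  refine ⟨X ^ 2 - C (f m), monic_X_pow_sub_C _ (by norm_num), ?_⟩
  simp only [eval₂_sub, eval₂_pow, eval₂_X, eval₂_C]
  rw [sub_eq_zero, ← h.f_eq]
  rfl

theorem dedekind (hm : 0 < m) : IsDedekindDomain h.U := by
  let _ : Algebra ℂ[X] h.U := (aeval (R := ℂ) (⟨h.x, h.x_mem⟩ : h.U)).toRingHom.toAlgebra
  let _ : Algebra ℂ[X] F := (aeval h.x : ℂ[X] →ₐ[ℂ] F).toRingHom.toAlgebra
  have : IsScalarTower ℂ[X] h.U F := by
    apply IsScalarTower.of_algebraMap_eq
    intro a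
    change aeval h.x a = h.U.val (aeval (⟨h.x, h.x_mem⟩ : h.U) a)
    rw [← aeval_algHom_apply]
    rfl
  have hint : Algebra.IsIntegral ℂ[X] h.U := by
    constructor
    intro z
    have h1 : IsIntegral ℂ[X] (algebraMap h.U F z) := h.isIntegralElem_of_mem z.2
    exact (isIntegral_algebraMap_iff (Subtype.val_injective)).1 h1
  have := h.frac
  have : IsNoetherianRing h.U := by
    have : Algebra.FiniteType ℂ h.U := (Subalgebra.fg_iff_finiteType _).1 h.fg
    exact Algebra.FiniteType.isNoetherianRing ℂ h.U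
  have hr : IsDedekindRing h.U := by
    rw [isDedekindRing_iff h.U F]
    refine ⟨inferInstance, Ring.DimensionLEOne.of_isIntegral ℂ[X] h.U, ?_⟩
    intro z hz
    have h1 : IsIntegral ℂ[X] z := isIntegral_trans z hz
    exact ⟨⟨z, h.mem_of_integral hm h1⟩, rfl⟩
  exact { hr with }

theorem isChart (hm : 0 < m) : IsChart h.U := ⟨h.fg, h.dedekind hm, h.not_isField, h.frac⟩

end Hyp

end Pool.Agent.Hhelper20.CS
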