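import Pool.Agent.Hhelper20.CS.Hyp2

open Polynomial

namespace Pool.Agent.Hhelper20.CS

theorem Curve.le0 {F : Type} [Field F] [Algebra ℂ F] (C : Curve F) : C.U0 ≤ C.U01 := le_sup_left

theorem Curve.le1 {F : Type} [Field F] [Algebra ℂ F] (C : Curve F) : C.U1 ≤ C.U01 := le_sup_right

namespace Hyp

variable {F : Type} [Field F] [Algebra ℂ F] {m : ℕ} (h : Hyp F m)

/-- Reversing a polynomial. -/
theorem aeval_inv (p : ℂ[X]) {N : ℕ} (hN : p.natDegree ≤ N) {x : F} (hx : x ≠ 0) :
    aeval x⁻¹ p * x ^ N = aeval x (p.reflect N) := by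
  let _ := invertibleOfNonzero hx
  have hd : (p.reflect N).natDegree ≤ N := by
    rw [natDegree_le_iff_coeff_eq_zero]
    intro n hn
    rw [coeff_reflect, revAt_eq_self_of_lt hn]
    exact coeff_eq_zero_of_natDegree_lt (hN.trans_lt hn)
  have h1 := eval₂_reflect_mul_pow (algebraMap ℂ F) x N (p.reflect N) hd
  rw [reflect_reflect, invOf_eq_inv] at h1
  exact h1

/-- The same data in the coordinates at infinity. -/
noncomputable def swap : Hyp F m where
  x := h.x⁻¹
  y := h.y / h.x ^ m
  σ := h.σ
  hy := by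
    have hx := h.x_ne
    rw [div_pow, h.hy, inv_pow, ← pow_mul, mul_comm m 2, add_div,
      div_self (pow_ne_zero _ hx), one_div, add_comm]
  σx := by rw [map_inv₀, h.σx]
  σy := by rw [map_div₀, h.σy, map_pow, h.σx, neg_div]
  indep := by
    intro a b e
    have hx := h.x_ne
    set N := max a.natDegree b.natDegree with hN
    have ha := aeval_inv (F := F) a (le_max_left _ _ : a.natDegree ≤ N) hx
    have hb := aeval_inv (F := F) b (le_max_right _ _ : b.natDegree ≤ N) hx
    have h1 := h.indep (X ^ m * a.reflect N) (b.reflect N) (by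
      rw [map_mul, ← ha, ← hb, map_pow, aeval_X]
      have h2 : h.y = h.y / h.x ^ m * h.x ^ m := by field_simp
      rw [h2]
      linear_combination h.x ^ m * h.x ^ N * e)
    refine ⟨?_, ?_⟩
    · have := (mul_eq_zero.1 h1.1).resolve_left (pow_ne_zero _ X_ne_zero)
      rwa [reflect_eq_zero_iff] at this
    · have := h1.2
      rwa [reflect_eq_zero_iff] at this
  gen := by
    intro z
    obtain ⟨a, b, c, hc, hz⟩ := h.gen z
    have hx := h.x_ne
    set N := max a.natDegree (max b.natDegree c.natDegree) + m with hN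
    have hNa : a.natDegree ≤ N := (le_max_left _ _).trans (Nat.le_add_right _ _)
    have hNb : b.natDegree ≤ N - m := by
      rw [hN, Nat.add_sub_cancel]
      exact (le_max_left _ _).trans (le_max_right _ _)
    have hNc : c.natDegree ≤ N :=
      ((le_max_right _ _).trans (le_max_right _ _)).trans (Nat.le_add_right _ _)
    have ha := aeval_inv (F := F) a hNa (inv_ne_zero hx)
    have hb := aeval_inv (F := F) b hNb (inv_ne_zero hx)
    have hc' := aeval_inv (F := F) c hNc (inv_ne_zero hx)
    rw [inv_inv] at ha hb hc'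
    refine ⟨a.reflect N, b.reflect (N - m), c.reflect N, ?_, ?_⟩
    · rwa [Ne, reflect_eq_zero_iff]
    · rw [← ha, ← hb, ← hc', ← mul_assoc, hz, add_mul]
      congr 1
      have h3 : N = (N - m) + m := by omega
      rw [show h.x⁻¹ ^ N = h.x⁻¹ ^ (N - m) * h.x⁻¹ ^ m by rw [← pow_add, ← h3], inv_pow h.x m]
      ring

@[simp] theorem swap_x : h.swap.x = h.x⁻¹ := rfl

@[simp] theorem swap_y : h.swap.y = h.y / h.x ^ m := rfl

@[simp] theorem swap_σ : h.swap.σ = h.σ := rfl

/-- A valuation ring containing the constants and `x` contains the chart. -/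
theorem le_valuation (v : ValuationSubring F) (hc : ∀ c : ℂ, algebraMap ℂ F c ∈ v)
    (hx : h.x ∈ v) : ∀ a ∈ h.U, a ∈ v := by
  have hp : ∀ a : ℂ[X], aeval h.x a ∈ v := by
    intro a
    induction a using Polynomial.induction_on' with
    | add p q hp hq => rw [map_add]; exact v.add_mem _ _ hp hq
    | monomial n c =>
      rw [aeval_monomial]
      exact v.mul_mem _ _ (hc c) (pow_mem hx n)
  have hy : h.y ∈ v := by
    rcases v.mem_or_inv_mem h.y with hy | hy
    · exact hy
    · have h1 : h.y ^ 2 ∈ v := by rw [← h.f_eq]; exact hp _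
      have h2 : h.y = h.y ^ 2 * h.y⁻¹ := by
        have := h.y_ne
        field_simp
      rw [h2]
      exact v.mul_mem _ _ h1 hy
  rintro _ ⟨a, b, rfl⟩
  exact v.add_mem _ _ (hp a) (v.mul_mem _ _ (hp b) hy)

/-- The hyperelliptic curve `y ^ 2 = x ^ (2 * m) + 1`. -/
noncomputable def curve (hm : 0 < m) : Curve F where
  U0 := h.U
  U1 := h.swap.U
  chart0 := h.isChart hm
  chart1 := h.swap.isChart hm
  cover := by
    intro v hv
    rcases v.mem_or_inv_mem h.x with hx | hx
    · exact Or.inl (h.le_valuation v hv hx)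
    · exact Or.inr (h.swap.le_valuation v hv hx)

end Hyp

end Pool.Agent.Hhelper20.CS
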