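import Pool.Agent.Hhelper20.CS.Defs

/-! Linear algebra: cohomology of two-chart covers described by linearly independent families. -/

namespace Pool.Agent.Hhelper20.CS

section lin

variable {ι W : Type} [AddCommGroup W] [Module ℂ W]

/-- The span of the members of the family `b` with index in `S`. -/
def Sp (b : ι → W) (S : Set ι) : Submodule ℂ W := Submodule.span ℂ (b '' S)

theorem mem_Sp_of (b : ι → W) {S : Set ι} {i : ι} (hi : i ∈ S) : b i ∈ Sp b S :=
  Submodule.subset_span ⟨i, hi, rfl⟩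

theorem Sp_mono (b : ι → W) {S T : Set ι} (h : S ⊆ T) : Sp b S ≤ Sp b T :=
  Submodule.span_mono (Set.image_mono h)

theorem Sp_eq_map (b : ι → W) (S : Set ι) :
    Sp b S = (Finsupp.supported ℂ ℂ S).map (Finsupp.linearCombination ℂ b) :=
  Finsupp.span_image_eq_map_linearCombination ℂ S

theorem Sp_union (b : ι → W) (S T : Set ι) : Sp b (S ∪ T) = Sp b S ⊔ Sp b T := by
  rw [Sp, Set.image_union, Submodule.span_union]; rfl

theorem Sp_le {b : ι → W} {S : Set ι} {N : Submodule ℂ W} : Sp b S ≤ N ↔ ∀ i ∈ S, b i ∈ N := by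
  rw [Sp, Submodule.span_le]
  exact Set.image_subset_iff

variable {b : ι → W} (hb : LinearIndependent ℂ b)

include hb in
theorem Sp_inter (S T : Set ι) : Sp b (S ∩ T) = Sp b S ⊓ Sp b T := by
  rw [Sp_eq_map, Sp_eq_map, Sp_eq_map, Finsupp.supported_inter,
    Submodule.map_inf _ (by exact hb)]

/-- The coefficients with respect to a linearly independent family (extended to the whole
space). -/
noncomputable def co : W →ₗ[ℂ] (ι →₀ ℂ) :=
  (LinearMap.exists_leftInverse_of_injective (Finsupp.linearCombination ℂ b)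
    (LinearMap.ker_eq_bot.2 hb)).choose

theorem co_lc (f : ι →₀ ℂ) : co hb (Finsupp.linearCombination ℂ b f) = f :=
  LinearMap.congr_fun (LinearMap.exists_leftInverse_of_injective (Finsupp.linearCombination ℂ b)
    (LinearMap.ker_eq_bot.2 hb)).choose_spec f

theorem co_b (i : ι) : co hb (b i) = Finsupp.single i 1 := by
  have := co_lc hb (Finsupp.single i 1)
  rwa [Finsupp.linearCombination_single, one_smul] at this

theorem co_mem {S : Set ι} {z : W} (hz : z ∈ Sp b S) :
    co hb z ∈ Finsupp.supported ℂ ℂ S ∧ Finsupp.linearCombination ℂ b (co hb z) = z := by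
  rw [Sp_eq_map] at hz
  obtain ⟨f, hf, rfl⟩ := hz
  rw [co_lc]
  exact ⟨hf, rfl⟩

theorem co_eq_zero {S : Set ι} {z : W} (hz : z ∈ Sp b S) {i : ι} (hi : i ∉ S) :
    co hb z i = 0 := by
  by_contra h
  exact hi ((Finsupp.mem_supported _ _).1 (co_mem hb hz).1 (Finsupp.mem_support_iff.2 h))

theorem mem_Sp_iff (S : Set ι) (z : W) :
    z ∈ Sp b S ↔ z ∈ Sp b Set.univ ∧ ∀ i ∉ S, co hb z i = 0 := by
  constructor
  · intro hz
    exact ⟨Sp_mono b (Set.subset_univ _) hz, fun i hi => co_eq_zero hb hz hi⟩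
  · rintro ⟨hz, h⟩
    rw [← (co_mem hb hz).2, Sp_eq_map]
    refine Submodule.mem_map_of_mem ?_
    rw [Finsupp.mem_supported]
    intro i hi
    by_contra h'
    exact (Finsupp.mem_support_iff.1 hi) (h i h')

open Classical in
/-- Projection to the span of the members with index in `S`. -/
noncomputable def pj (S : Set ι) : W →ₗ[ℂ] W :=
  Finsupp.linearCombination ℂ b ∘ₗ (Finsupp.supported ℂ ℂ S).subtype ∘ₗ
    Finsupp.restrictDom ℂ ℂ S ∘ₗ co hb

theorem pj_mem (S : Set ι) (z : W) : pj hb S z ∈ Sp b S := by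
  classical
  rw [Sp_eq_map]
  exact Submodule.mem_map_of_mem (Subtype.prop _)

theorem sub_pj_mem (S : Set ι) {T : Set ι} {z : W} (hz : z ∈ Sp b T) :
    z - pj hb S z ∈ Sp b (T \ S) := by
  classical
  rw [Sp_eq_map]
  refine ⟨co hb z - (Finsupp.restrictDom ℂ ℂ S (co hb z) : ι →₀ ℂ), ?_, ?_⟩
  · rw [SetLike.mem_coe, Finsupp.mem_supported]
    intro i hi
    rw [Finset.mem_coe, Finsupp.mem_support_iff, Finsupp.sub_apply,
      Finsupp.restrictDom_apply, Finsupp.filter_apply] at hi
    refine ⟨?_, ?_⟩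
    · by_contra h
      rw [co_eq_zero hb hz h] at hi
      simp at hi
    · intro h
      rw [if_pos h] at hi
      simp at hi
  · rw [map_sub, (co_mem hb hz).2]
    rfl

theorem finite_Sp (b : ι → W) {S : Set ι} (hS : S.Finite) : Module.Finite ℂ (Sp b S) :=
  Module.Finite.span_of_finite ℂ (hS.image b)

include hb in
theorem finrank_Sp (S : Set ι) : Module.finrank ℂ (Sp b S) = S.ncard := by
  have h1 : LinearIndependent ℂ (fun i : S => b i) := hb.comp _ Subtype.val_injective
  have h2 : Sp b S = Submodule.span ℂ (Set.range fun i : S => b i) := by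
    rw [Sp]; congr 1; ext z; simp
  rw [h2]
  have h3 := Module.finrank_eq_nat_card_basis (Module.Basis.span h1)
  rw [h3]
  rfl

include hb in
/-- `h¹` for sections given by parts of a linearly independent family. -/
theorem finrank_quot_Sp (T S : Set ι) :
    Module.finrank ℂ (↥(Sp b T) ⧸ (Sp b S).comap (Sp b T).subtype) = (T \ S).ncard := by
  let g : ↥(Sp b T) →ₗ[ℂ] (↥(T \ S) →₀ ℂ) :=
    (Finsupp.lsubtypeDomain (T \ S)) ∘ₗ co hb ∘ₗ (Sp b T).subtype
  have hg : Function.Surjective g := by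
    intro f
    refine ⟨⟨Finsupp.linearCombination ℂ b (Finsupp.embDomain (Function.Embedding.subtype _) f),
      ?_⟩, ?_⟩
    · rw [Sp_eq_map]
      refine Submodule.mem_map_of_mem ?_
      rw [Finsupp.mem_supported]
      intro i hi
      rw [Finset.mem_coe, Finsupp.mem_support_iff] at hi
      by_contra h
      apply hi
      apply Finsupp.embDomain_of_notMem_range
      rintro ⟨j, rfl⟩
      exact h j.2.1
    · ext i
      simp only [g, LinearMap.comp_apply, Submodule.subtype_apply, co_lc]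
      change (Finsupp.embDomain (Function.Embedding.subtype _) f) (i : ι) = f i
      exact Finsupp.embDomain_apply_self (Function.Embedding.subtype _) f i
  have hk : LinearMap.ker g = (Sp b S).comap (Sp b T).subtype := by
    ext z
    rw [LinearMap.mem_ker, Submodule.mem_comap, mem_Sp_iff hb S]
    constructor
    · intro h
      refine ⟨Sp_mono b (Set.subset_univ _) z.2, ?_⟩
      intro i hi
      by_cases hT : i ∈ T
      · exact DFunLike.congr_fun h (⟨i, hT, hi⟩ : ↥(T \ S))
      · exact co_eq_zero hb z.2 hT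
    · rintro ⟨-, h⟩
      ext i
      exact h i i.2.2
  rw [← hk, (LinearMap.quotKerEquivOfSurjective g hg).finrank_eq]
  rw [Module.finrank_eq_nat_card_basis (Module.Basis.ofRepr (LinearEquiv.refl ℂ (↥(T \ S) →₀ ℂ)))]
  rfl

include hb in
theorem h0_Sp (S T : Set ι) : h0 (Sp b S) (Sp b T) = (S ∩ T).ncard := by
  rw [h0, ← Sp_inter hb, finrank_Sp hb]

include hb in
theorem h1_Sp (S T : Set ι) : h1 (Sp b S) (Sp b T) (Sp b Set.univ) = (S ∪ T)ᶜ.ncard := by
  rw [h1, ← Sp_union, finrank_quot_Sp hb Set.univ (S ∪ T), Set.compl_eq_univ_sdiff]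

/-- Products of copies of one submodule. -/
def piS (n : ℕ) (M : Submodule ℂ W) : Submodule ℂ (Fin n → W) :=
  Submodule.pi Set.univ fun _ => M

theorem mem_piS {n : ℕ} {M : Submodule ℂ W} {z : Fin n → W} : z ∈ piS n M ↔ ∀ i, z i ∈ M := by
  simp [piS, Submodule.mem_pi]

theorem piS_inf (n : ℕ) (M N : Submodule ℂ W) : piS n M ⊓ piS n N = piS n (M ⊓ N) := by
  ext z
  simp only [Submodule.mem_inf, mem_piS]
  exact ⟨fun h i => ⟨h.1 i, h.2 i⟩, fun h => ⟨fun i => (h i).1, fun i => (h i).2⟩⟩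

theorem piS_sup (n : ℕ) (M N : Submodule ℂ W) : piS n M ⊔ piS n N = piS n (M ⊔ N) := by
  apply le_antisymm
  · refine sup_le ?_ ?_
    · intro z hz
      rw [mem_piS] at hz ⊢
      exact fun i => Submodule.mem_sup_left (hz i)
    · intro z hz
      rw [mem_piS] at hz ⊢
      exact fun i => Submodule.mem_sup_right (hz i)
  · intro z hz
    rw [mem_piS] at hz
    have h1 : ∀ i, ∃ a ∈ M, ∃ c ∈ N, a + c = z i := fun i => Submodule.mem_sup.1 (hz i)
    choose a ha c hc h2 using h1
    rw [Submodule.mem_sup]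
    exact ⟨a, mem_piS.2 ha, c, mem_piS.2 hc, funext h2⟩

theorem finrank_piS (n : ℕ) (M : Submodule ℂ W) [Module.Finite ℂ M] :
    Module.finrank ℂ (piS n M) = n * Module.finrank ℂ M := by
  let e : piS n M ≃ₗ[ℂ] (Fin n → M) :=
    { toFun := fun z i => ⟨z.1 i, mem_piS.1 z.2 i⟩
      invFun := fun z => ⟨fun i => z i, mem_piS.2 fun i => (z i).2⟩
      map_add' := fun _ _ => rfl
      map_smul' := fun _ _ => rfl
      left_inv := fun _ => rfl
      right_inv := fun _ => rfl }
  rw [e.finrank_eq, Module.finrank_pi_fintype]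
  simp

theorem h0_piS (n : ℕ) (M N : Submodule ℂ W) [Module.Finite ℂ ↥(M ⊓ N)] :
    h0 (piS n M) (piS n N) = n * h0 M N := by
  rw [h0, piS_inf, finrank_piS]; rfl

theorem finrank_quot_piS (n : ℕ) (M N : Submodule ℂ W)
    [Module.Finite ℂ (↥M ⧸ N.comap M.subtype)] :
    Module.finrank ℂ (↥(piS n M) ⧸ (piS n N).comap (piS n M).subtype) =
      n * Module.finrank ℂ (↥M ⧸ N.comap M.subtype) := by
  let g : piS n M →ₗ[ℂ] (Fin n → (↥M ⧸ N.comap M.subtype)) :=
    { toFun := fun z i => Submodule.Quotient.mk ⟨z.1 i, mem_piS.1 z.2 i⟩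
      map_add' := fun _ _ => rfl
      map_smul' := fun _ _ => rfl }
  have hg : Function.Surjective g := by
    intro f
    have h1 : ∀ i, ∃ z : M, Submodule.Quotient.mk z = f i :=
      fun i => Submodule.Quotient.mk_surjective _ (f i)
    choose z hz using h1
    exact ⟨⟨fun i => z i, mem_piS.2 fun i => (z i).2⟩, funext hz⟩
  have hk : LinearMap.ker g = (piS n N).comap (piS n M).subtype := by
    ext z
    rw [LinearMap.mem_ker, Submodule.mem_comap, mem_piS]
    constructor
    · intro h i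
      have h2 : (⟨z.1 i, mem_piS.1 z.2 i⟩ : M) ∈ N.comap M.subtype :=
        (Submodule.Quotient.mk_eq_zero _).1 (congrFun h i)
      exact h2
    · intro h
      funext i
      exact (Submodule.Quotient.mk_eq_zero _).2 (h i)
  rw [← hk, (LinearMap.quotKerEquivOfSurjective g hg).finrank_eq, Module.finrank_pi_fintype]
  simp

theorem h1_piS (n : ℕ) (M0 M1 M : Submodule ℂ W)
    [Module.Finite ℂ (↥M ⧸ (M0 ⊔ M1).comap M.subtype)] :
    h1 (piS n M0) (piS n M1) (piS n M) = n * h1 M0 M1 M := by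
  rw [h1, piS_sup, finrank_quot_piS]; rfl

include hb in
theorem finite_quot_Sp {T S : Set ι} (hf : (T \ S).Finite) :
    Module.Finite ℂ (↥(Sp b T) ⧸ (Sp b S).comap (Sp b T).subtype) := by
  by_cases h : (T \ S).ncard = 0
  · have h1 : T ⊆ S := by
      rw [Set.ncard_eq_zero hf, Set.sdiff_eq_empty] at h
      exact h
    have h2 : (Sp b S).comap (Sp b T).subtype = ⊤ := by
      rw [eq_top_iff]
      intro z _
      exact Sp_mono b h1 z.2
    rw [h2]
    infer_instance
  · refine Module.finite_of_finrank_pos ?_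
    rw [finrank_quot_Sp hb]
    exact Nat.pos_of_ne_zero h

/-- Comparison of Euler characteristics for an injection of sheaves whose cokernel has no `H¹`. -/
theorem chi_le {W' : Type} [AddCommGroup W'] [Module ℂ W'] (pr : W' →ₗ[ℂ] W)
    (S M0 M1 M01 : Submodule ℂ W') (N0 N1 N01 : Submodule ℂ W)
    (hpr : ∀ z ∈ S, pr z = 0 → z = 0) (hM0 : M0 ≤ S) (hM1 : M1 ≤ S) (hM01 : M01 ≤ S)
    (h0' : M0.map pr ≤ N0) (h1' : M1.map pr ≤ N1) (h01' : M01.map pr ≤ N01)
    (hsurj : N01 ≤ M01.map pr ⊔ (N0 ⊔ N1)) (hfin0 : Module.Finite ℂ ↥(N0 ⊓ N1))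
    (T : Submodule ℂ W) (hT : Module.Finite ℂ T) (hfin : N01 ≤ T ⊔ (M0.map pr ⊔ M1.map pr)) :
    chi M0 M1 M01 ≤ chi N0 N1 N01 := by
  have hinj : ∀ z ∈ S, ∀ z' ∈ S, pr z = pr z' → z = z' := by
    intro z hz z' hz' h
    have := hpr (z - z') (S.sub_mem hz hz') (by rw [map_sub, h, sub_self])
    exact sub_eq_zero.1 this
  have e0 : h0 M0 M1 ≤ h0 N0 N1 := by
    let f : ↥(M0 ⊓ M1) →ₗ[ℂ] ↥(N0 ⊓ N1) :=
      (pr ∘ₗ (M0 ⊓ M1).subtype).codRestrict _ fun z =>
        ⟨h0' (Submodule.mem_map_of_mem z.2.1), h1' (Submodule.mem_map_of_mem z.2.2)⟩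
    refine LinearMap.finrank_le_finrank_of_injective (f := f) ?_
    intro z z' h
    apply Subtype.ext
    exact hinj _ (hM0 z.2.1) _ (hM0 z'.2.1) (congrArg Subtype.val h)
  have e1 : h1 N0 N1 N01 ≤ h1 M0 M1 M01 := by
    have hF : Module.Finite ℂ (↥M01 ⧸ (M0 ⊔ M1).comap M01.subtype) := by
      let R := (M0 ⊔ M1).map pr
      let q : ↥M01 →ₗ[ℂ] W ⧸ R := R.mkQ ∘ₗ pr ∘ₗ M01.subtype
      have hk : LinearMap.ker q = (M0 ⊔ M1).comap M01.subtype := by
        ext z
        rw [LinearMap.mem_ker, Submodule.mem_comap]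
        change R.mkQ (pr z) = 0 ↔ (z : W') ∈ _
        rw [Submodule.mkQ_apply, Submodule.Quotient.mk_eq_zero]
        constructor
        · rintro ⟨z', hz', h⟩
          have : z' = z := hinj _ (sup_le hM0 hM1 hz') _ (hM01 z.2) h
          rw [← this]; exact hz'
        · intro h
          exact Submodule.mem_map_of_mem h
      have hr : LinearMap.range q ≤ T.map R.mkQ := by
        rintro _ ⟨z, rfl⟩
        have h1 := hfin (h01' (Submodule.mem_map_of_mem z.2))
        rw [← Submodule.map_sup, Submodule.mem_sup] at h1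
        obtain ⟨t, ht, r, hr, h2⟩ := h1
        refine ⟨t, ht, ?_⟩
        change R.mkQ t = R.mkQ (pr z)
        rw [← h2, map_add]
        have : R.mkQ r = 0 := by
          rw [Submodule.mkQ_apply, Submodule.Quotient.mk_eq_zero]; exact hr
        rw [this, add_zero]
      have hTf : Module.Finite ℂ (T.map R.mkQ) := Module.Finite.map T R.mkQ
      have hrf : Module.Finite ℂ (LinearMap.range q) := Submodule.finiteDimensional_of_le hr
      rw [← hk]
      exact Module.Finite.equiv (LinearMap.quotKerEquivRange q).symm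
    let φ : ↥M01 →ₗ[ℂ] ↥N01 := (pr ∘ₗ M01.subtype).codRestrict _ fun z =>
      h01' (Submodule.mem_map_of_mem z.2)
    let ψ : (↥M01 ⧸ (M0 ⊔ M1).comap M01.subtype) →ₗ[ℂ]
        (↥N01 ⧸ (N0 ⊔ N1).comap N01.subtype) :=
      Submodule.mapQ _ _ φ (by
        intro z hz
        rw [Submodule.mem_comap] at hz ⊢
        rw [Submodule.mem_comap]
        obtain ⟨a, ha, c, hc, h⟩ := Submodule.mem_sup.1 hz
        change pr z ∈ _
        have h' : a + c = (z : W') := h
        rw [← h', map_add]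
        exact Submodule.add_mem_sup (h0' (Submodule.mem_map_of_mem ha))
          (h1' (Submodule.mem_map_of_mem hc)))
    refine LinearMap.finrank_le_finrank_of_surjective (f := ψ) ?_
    intro w
    obtain ⟨w, rfl⟩ := Submodule.Quotient.mk_surjective _ w
    obtain ⟨_, ⟨a, ha, rfl⟩, c, hc, h⟩ := Submodule.mem_sup.1 (hsurj w.2)
    refine ⟨Submodule.Quotient.mk ⟨a, ha⟩, ?_⟩
    change Submodule.Quotient.mk (φ ⟨a, ha⟩) = _
    rw [Submodule.Quotient.eq, Submodule.mem_comap]
    change pr a - w ∈ _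
    rw [← h, sub_add_cancel_left]
    exact Submodule.neg_mem _ hc
  unfold chi
  omega

end lin

end Pool.Agent.Hhelper20.CS
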