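import Pool.Agent.Hhelper20.CS.Hyp3
import Pool.Agent.Hhelper20.CS.Lin

open Polynomial

namespace Pool.Agent.Hhelper20.CS

namespace Hyp

variable {F : Type} [Field F] [Algebra ℂ F] {m : ℕ} (h : Hyp F m)

/-- The Laurent monomials `x ^ i` and `x ^ i * y`. -/
noncomputable def lb : ℤ ⊕ ℤ → F
  | Sum.inl i => h.x ^ i
  | Sum.inr i => h.x ^ i * h.y

/-- The map `(a, b) ↦ a(x) + b(x) y`. -/
noncomputable def polyMap : ℂ[X] × ℂ[X] →ₗ[ℂ] F :=
  (aeval h.x).toLinearMap.coprod
    (LinearMap.mulRight ℂ h.y ∘ₗ (aeval h.x).toLinearMap)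

theorem polyMap_apply (a b : ℂ[X]) : h.polyMap (a, b) = aeval h.x a + aeval h.x b * h.y := rfl

theorem polyMap_injective : Function.Injective h.polyMap := by
  rw [injective_iff_map_eq_zero]
  rintro ⟨a, b⟩ hab
  obtain ⟨rfl, rfl⟩ := h.indep a b hab
  rfl

/-- Shifting the exponents. -/
def sh (k : ℤ) : ℤ ⊕ ℤ → ℤ ⊕ ℤ := Sum.map (· + k) (· + k)

/-- The exponent of `x`. -/
def ex : ℤ ⊕ ℤ → ℤ := Sum.elim id id

theorem lb_sh (k : ℤ) (i : ℤ ⊕ ℤ) : h.lb (sh k i) = h.x ^ k * h.lb i := by
  rcases i with i | i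
  · simp [lb, sh, zpow_add₀ h.x_ne, mul_comm]
  · simp only [lb, sh, Sum.map_inr, zpow_add₀ h.x_ne]; ring

theorem lb_indep : LinearIndependent ℂ h.lb := by
  let B := (Polynomial.basisMonomials ℂ).prod (Polynomial.basisMonomials ℂ)
  have h1 : LinearIndependent ℂ (h.polyMap ∘ B) :=
    B.linearIndependent.map' h.polyMap (LinearMap.ker_eq_bot.2 h.polyMap_injective)
  let e : ℕ → ℕ ⊕ ℕ → ℤ ⊕ ℤ := fun N => Sum.map (fun j => (j : ℤ) - N) (fun j => (j : ℤ) - N)
  have he : ∀ N, Function.Injective (e N) := by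
    intro N
    apply Function.Injective.sumMap
    · intro a b hab
      simpa using hab
    · intro a b hab
      simpa using hab
  have h2 : ∀ N, LinearIndependent ℂ (h.lb ∘ e N) := by
    intro N
    have h3 := h1.map' (LinearMap.mulLeft ℂ (h.x ^ (-(N : ℤ)))) (by
      rw [LinearMap.ker_eq_bot]
      exact mul_right_injective₀ (zpow_ne_zero _ h.x_ne))
    have h4 : h.lb ∘ e N = LinearMap.mulLeft ℂ (h.x ^ (-(N : ℤ))) ∘ h.polyMap ∘ B := by
      funext i
      rcases i with i | i
      · simp [B, lb, e, polyMap, sub_eq_add_neg, zpow_add₀ h.x_ne, mul_comm, aeval_monomial]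
      · simp [B, lb, e, polyMap, sub_eq_add_neg, zpow_add₀ h.x_ne, aeval_monomial]
        ring
    rw [h4]
    exact h3
  rw [← linearIndepOn_univ_iff]
  have h4 : (⋃ N, Set.range (e N)) = Set.univ := by
    rw [Set.eq_univ_iff_forall]
    intro i
    rw [Set.mem_iUnion]
    rcases i with i | i
    · refine ⟨i.natAbs, Sum.inl (i + i.natAbs).toNat, ?_⟩
      simp only [e, Sum.map_inl, Sum.inl.injEq]
      omega
    · refine ⟨i.natAbs, Sum.inr (i + i.natAbs).toNat, ?_⟩
      simp only [e, Sum.map_inr, Sum.inr.injEq]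
      omega
  rw [← h4]
  refine linearIndepOn_iUnion_of_directed ?_ fun N => (linearIndepOn_range_iff (he N) _).2 (h2 N)
  apply directed_of_isDirected_le
  intro N N' hN
  rintro _ ⟨i, rfl⟩
  rcases i with i | i
  · refine ⟨Sum.inl (i + (N' - N)), ?_⟩
    simp only [e, Sum.map_inl, Sum.inl.injEq]
    omega
  · refine ⟨Sum.inr (i + (N' - N)), ?_⟩
    simp only [e, Sum.map_inr, Sum.inr.injEq]
    omega

theorem map_Sp (k : ℤ) (S : Set (ℤ ⊕ ℤ)) :
    (Sp h.lb S).map (LinearMap.mulLeft ℂ (h.x ^ k)) = Sp h.lb (sh k '' S) := by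
  rw [Sp, Sp, Submodule.map_span, Set.image_image, Set.image_image]
  congr 1
  apply Set.image_congr
  intro i _
  exact (h.lb_sh k i).symm

theorem mem_sh_image (k : ℤ) (S : Set (ℤ ⊕ ℤ)) (i : ℤ ⊕ ℤ) : i ∈ sh k '' S ↔ sh (-k) i ∈ S := by
  constructor
  · rintro ⟨j, hj, rfl⟩
    rcases j with j | j <;> simpa [sh] using hj
  · intro hi
    refine ⟨sh (-k) i, hi, ?_⟩
    rcases i with i | i <;> simp [sh]

theorem mul_mem_Sp_iff (k : ℤ) (S : Set (ℤ ⊕ ℤ)) (z : F) :
    h.x ^ k * z ∈ Sp h.lb S ↔ z ∈ Sp h.lb (sh (-k) '' S) := by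
  rw [← h.map_Sp]
  constructor
  · intro hz
    refine ⟨_, hz, ?_⟩
    rw [LinearMap.mulLeft_apply, ← mul_assoc, ← zpow_add₀ h.x_ne]
    simp
  · rintro ⟨w, hw, rfl⟩
    rw [LinearMap.mulLeft_apply, ← mul_assoc, ← zpow_add₀ h.x_ne]
    simpa using hw

/-- Exponents occurring in the first chart. -/
def A0 : Set (ℤ ⊕ ℤ) := {i | 0 ≤ ex i}

/-- Exponents occurring in `x ^ a` times the second chart. -/
def A1 (m : ℕ) (a : ℤ) : Set (ℤ ⊕ ℤ) := {i | Sum.elim (fun j => j ≤ a) (fun j => j ≤ a - m) i}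

theorem aeval_mem_Sp (a : ℂ[X]) : aeval h.x a ∈ Sp h.lb {i | ∃ j : ℕ, i = Sum.inl (j : ℤ)} := by
  induction a using Polynomial.induction_on' with
  | add p q hp hq => rw [map_add]; exact Submodule.add_mem _ hp hq
  | monomial n c =>
    rw [aeval_monomial, ← Algebra.smul_def]
    refine Submodule.smul_mem _ _ ?_
    have := mem_Sp_of h.lb (S := {i | ∃ j : ℕ, i = Sum.inl (j : ℤ)}) (i := Sum.inl (n : ℤ)) ⟨n, rfl⟩
    simpa [lb] using this

theorem toSubmodule_U : Subalgebra.toSubmodule h.U = Sp h.lb A0 := by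
  apply le_antisymm
  · rintro _ ⟨a, b, rfl⟩
    have h1 : ∀ a : ℂ[X], aeval h.x a ∈ Sp h.lb A0 := by
      intro a
      refine Sp_mono _ ?_ (h.aeval_mem_Sp a)
      rintro _ ⟨j, rfl⟩
      simp [A0, ex]
    refine Submodule.add_mem _ (h1 a) ?_
    clear h1
    induction b using Polynomial.induction_on' with
    | add p q hp hq => rw [map_add, add_mul]; exact Submodule.add_mem _ hp hq
    | monomial n c =>
      rw [aeval_monomial, mul_assoc, ← Algebra.smul_def]
      refine Submodule.smul_mem _ _ ?_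
      have := mem_Sp_of h.lb (S := A0) (i := Sum.inr (n : ℤ)) (by simp [A0, ex])
      simpa [lb] using this
  · rw [Sp_le]
    rintro (i | i) hi
    · have hi' : 0 ≤ i := hi
      obtain ⟨n, rfl⟩ := Int.eq_ofNat_of_zero_le hi'
      rw [Subalgebra.mem_toSubmodule]
      simpa [lb] using h.U.pow_mem h.x_mem n
    · have hi' : 0 ≤ i := hi
      obtain ⟨n, rfl⟩ := Int.eq_ofNat_of_zero_le hi'
      rw [Subalgebra.mem_toSubmodule]
      simpa [lb] using h.U.mul_mem (h.U.pow_mem h.x_mem n) h.y_mem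

/-- The monomials of the second chart in terms of those of the first. -/
theorem swap_lb (i : ℤ ⊕ ℤ) :
    h.swap.lb i = h.lb (Sum.elim (fun j => Sum.inl (-j)) (fun j => Sum.inr (-j - m)) i) := by
  rcases i with i | i
  · simp [lb]
  · simp only [lb, swap_x, swap_y, Sum.elim_inr, inv_zpow', zpow_sub₀ h.x_ne, zpow_natCast]
    rw [mul_div_assoc', div_mul_eq_mul_div]

theorem toSubmodule_swap_U (a : ℤ) :
    (Subalgebra.toSubmodule h.swap.U).map (LinearMap.mulLeft ℂ (h.x ^ a)) = Sp h.lb (A1 m a) := by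
  rw [h.swap.toSubmodule_U]
  have h1 : Sp h.swap.lb A0 = Sp h.lb (A1 m 0) := by
    rw [Sp, Sp]
    congr 1
    ext z
    constructor
    · rintro ⟨i, hi, rfl⟩
      rw [h.swap_lb]
      refine ⟨_, ?_, rfl⟩
      rcases i with i | i
      · have hi' : 0 ≤ i := hi
        simpa [A1] using hi'
      · have hi' : 0 ≤ i := hi
        simpa [A1] using hi'
    · rintro ⟨i, hi, rfl⟩
      rcases i with i | i
      · have hi' : i ≤ 0 := hi
        refine ⟨Sum.inl (-i), by simpa [A0, ex] using hi', ?_⟩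
        rw [h.swap_lb]
        simp
      · have hi' : i ≤ 0 - m := hi
        refine ⟨Sum.inr (-i - m), ?_, ?_⟩
        · change 0 ≤ -i - m
          omega
        · rw [h.swap_lb]
          simp
  rw [h1, h.map_Sp]
  congr 1
  ext i
  rw [mem_sh_image]
  rcases i with i | i
  · change i + -a ≤ 0 ↔ i ≤ a
    omega
  · change i + -a ≤ 0 - m ↔ i ≤ a - m
    omega

theorem toSubmodule_swap_U' : Subalgebra.toSubmodule h.swap.U = Sp h.lb (A1 m 0) := by
  rw [← h.toSubmodule_swap_U 0]
  ext z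
  simp

theorem mul_mem_univ {z w : F} (hz : z ∈ Sp h.lb Set.univ) (hw : w ∈ Sp h.lb Set.univ) :
    z * w ∈ Sp h.lb Set.univ := by
  induction hz using Submodule.span_induction with
  | zero => simp
  | add a b _ _ ha hb => rw [add_mul]; exact Submodule.add_mem _ ha hb
  | smul c a _ ha => rw [smul_mul_assoc]; exact Submodule.smul_mem _ _ ha
  | mem a ha =>
    obtain ⟨i, -, rfl⟩ := ha
    induction hw using Submodule.span_induction with
    | zero => simp
    | add a b _ _ ha hb => rw [mul_add]; exact Submodule.add_mem _ ha hb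
    | smul c a _ ha => rw [mul_smul_comm]; exact Submodule.smul_mem _ _ ha
    | mem b hb =>
      obtain ⟨j, -, rfl⟩ := hb
      rcases i with i | i <;> rcases j with j | j
      · have := mem_Sp_of h.lb (S := Set.univ) (i := Sum.inl (i + j)) trivial
        simpa [lb, zpow_add₀ h.x_ne] using this
      · have := mem_Sp_of h.lb (S := Set.univ) (i := Sum.inr (i + j)) trivial
        simpa [lb, zpow_add₀ h.x_ne, mul_assoc] using this
      · have := mem_Sp_of h.lb (S := Set.univ) (i := Sum.inr (i + j)) trivial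
        have h2 : h.lb (Sum.inr i) * h.lb (Sum.inl j) = h.lb (Sum.inr (i + j)) := by
          simp only [lb, zpow_add₀ h.x_ne]; ring
        rw [h2]; exact this
      · have h1 := mem_Sp_of h.lb (S := Set.univ) (i := Sum.inl (i + j + 2 * m)) trivial
        have h2 := mem_Sp_of h.lb (S := Set.univ) (i := Sum.inl (i + j)) trivial
        have h3 : h.lb (Sum.inr i) * h.lb (Sum.inr j) =
            h.lb (Sum.inl (i + j + 2 * m)) + h.lb (Sum.inl (i + j)) := by
          simp only [lb]
          rw [zpow_add₀ h.x_ne (i + j), zpow_add₀ h.x_ne i j]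
          have h4 : h.x ^ (2 * (m : ℤ)) = h.x ^ (2 * m) := by
            rw [← zpow_natCast]; norm_cast
          rw [h4]
          linear_combination (h.x ^ i * h.x ^ j) * h.hy
        rw [h3]; exact Submodule.add_mem _ h1 h2

theorem toSubmodule_U01 (hm : 0 < m) :
    Subalgebra.toSubmodule (h.curve hm).U01 = Sp h.lb Set.univ := by
  apply le_antisymm
  · let T : Subalgebra ℂ F :=
      { carrier := Sp h.lb Set.univ
        mul_mem' := fun {a b} ha hb => h.mul_mem_univ ha hb
        add_mem' := fun {a b} ha hb => Submodule.add_mem _ ha hb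
        algebraMap_mem' := by
          intro r
          have := Submodule.smul_mem (Sp h.lb Set.univ) r
            (mem_Sp_of h.lb (S := Set.univ) (i := Sum.inl 0) trivial)
          simpa [lb, Algebra.smul_def] using this }
    have hT : (h.curve hm).U01 ≤ T := by
      refine sup_le ?_ ?_
      · intro z hz
        have hz' : z ∈ Subalgebra.toSubmodule h.U := hz
        rw [h.toSubmodule_U] at hz'
        exact Sp_mono _ (Set.subset_univ _) hz'
      · intro z hz
        have hz' : z ∈ Subalgebra.toSubmodule h.swap.U := hz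
        rw [h.toSubmodule_swap_U'] at hz'
        exact Sp_mono _ (Set.subset_univ _) hz'
    exact hT
  · have hx : ∀ i : ℤ, h.x ^ i ∈ (h.curve hm).U01 := by
      intro i
      rcases Int.eq_nat_or_neg i with ⟨n, rfl | rfl⟩
      · rw [zpow_natCast]
        exact (h.curve hm).le0 (h.U.pow_mem h.x_mem n)
      · rw [zpow_neg, zpow_natCast, ← inv_pow]
        exact (h.curve hm).le1 (h.swap.U.pow_mem h.swap.x_mem n)
    rw [Sp_le]
    rintro (i | i) _
    · exact hx i
    · exact Subalgebra.mul_mem _ (hx i) ((h.curve hm).le0 h.y_mem)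

end Hyp

end Pool.Agent.Hhelper20.CS
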