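import Pool.Agent.Hhelper20.CS.Hyp4
import Pool.Agent.Hhelper20.CS.Bound

open Polynomial TensorProduct

namespace Pool.Agent.Hhelper20.CS

namespace Hyp

variable {F : Type} [Field F] [Algebra ℂ F] {m : ℕ} (h : Hyp F m)

theorem inter_eq (a : ℕ) (ham : a < m) :
    (A0 ∩ A1 m a) = Sum.inl '' (Set.Icc (0 : ℤ) a) := by
  ext i
  rcases i with i | i
  · constructor
    · rintro ⟨h1, h2⟩
      exact ⟨i, ⟨h1, h2⟩, rfl⟩
    · rintro ⟨j, hj, hij⟩
      cases hij
      exact hj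
  · constructor
    · rintro ⟨h1, h2⟩
      have h1' : 0 ≤ i := h1
      have h2' : i ≤ a - m := h2
      omega
    · rintro ⟨j, hj, hij⟩
      cases hij

theorem ncard_inter (a : ℕ) (ham : a < m) : (A0 ∩ A1 m a).ncard = a + 1 := by
  rw [inter_eq a ham, Set.ncard_image_of_injective _ Sum.inl_injective,
    Set.ncard_eq_toFinset_card', Set.toFinset_Icc, Int.card_Icc]
  omega

theorem compl_eq (a : ℕ) : (A0 ∪ A1 m a)ᶜ = Sum.inr '' (Set.Ioo ((a : ℤ) - m) 0) := by
  ext i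
  rcases i with i | i
  · constructor
    · intro hi
      exfalso
      apply hi
      by_cases h0 : 0 ≤ i
      · exact Or.inl h0
      · refine Or.inr ?_
        change i ≤ a
        omega
    · rintro ⟨j, hj, hij⟩
      cases hij
  · constructor
    · intro hi
      refine ⟨i, ⟨?_, ?_⟩, rfl⟩
      · by_contra h1
        exact hi (Or.inr (not_lt.1 h1))
      · by_contra h1
        exact hi (Or.inl (not_lt.1 h1))
    · rintro ⟨j, hj, hij⟩
      cases hij
      rintro (h1 | h1)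
      · have h1' : 0 ≤ i := h1
        have := hj.2
        omega
      · have h1' : i ≤ a - m := h1
        have := hj.1
        omega

theorem ncard_compl (a : ℕ) : (A0 ∪ A1 m a)ᶜ.ncard = m - 1 - a := by
  rw [compl_eq a, Set.ncard_image_of_injective _ Sum.inr_injective,
    Set.ncard_eq_toFinset_card', Set.toFinset_Ioo, Int.card_Ioo]
  omega

theorem finite_compl (a : ℕ) : (A0 ∪ A1 m a)ᶜ.Finite := by
  rw [compl_eq a]
  exact (Set.finite_Ioo _ _).image _

theorem genus_curve (hm : 0 < m) : (h.curve hm).genus = m - 1 := by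
  unfold Curve.genus
  rw [h.toSubmodule_U01]
  change h1 (Subalgebra.toSubmodule h.U) (Subalgebra.toSubmodule h.swap.U) _ = _
  rw [h.toSubmodule_U, h.toSubmodule_swap_U', h1_Sp h.lb_indep]
  exact ncard_compl 0

theorem chiO_curve (hm : 0 < m) : (h.curve hm).chiO = 2 - m := by
  unfold Curve.chiO chi
  rw [h.toSubmodule_U01]
  change (h0 (Subalgebra.toSubmodule h.U) (Subalgebra.toSubmodule h.swap.U) : ℤ) -
    h1 (Subalgebra.toSubmodule h.U) (Subalgebra.toSubmodule h.swap.U) _ = _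
  rw [h.toSubmodule_U, h.toSubmodule_swap_U', h1_Sp h.lb_indep, h0_Sp h.lb_indep]
  have e0 : (A0 ∩ A1 m 0).ncard = 0 + 1 := ncard_inter 0 hm
  have e1 : (A0 ∪ A1 m 0)ᶜ.ncard = m - 1 - 0 := ncard_compl 0
  rw [e0, e1]
  push_cast [Nat.cast_sub (show 1 ≤ m from hm)]
  omega

/-! ### The coherent system -/

/-- The sections on the first chart. -/
noncomputable def S0 : Matrix (Fin 2) (Fin 5) F :=
  !![h.x, h.x ^ 2, 0, 0, 1; 0, 0, 1, h.x ^ 2, -h.x]

/-- The sections on the second chart. -/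
noncomputable def S1 : Matrix (Fin 2) (Fin 5) F :=
  !![h.x⁻¹, 1, 0, 0, h.x⁻¹ ^ 2; 0, 0, h.x⁻¹ ^ 2, 1, -h.x⁻¹]

theorem S0_mem (a : Fin 2) (j : Fin 5) : h.S0 a j ∈ h.U := by
  have hx := h.x_mem
  fin_cases a <;> fin_cases j <;> simp [S0, hx, h.U.pow_mem hx 2]

theorem S1_mem (a : Fin 2) (j : Fin 5) : h.S1 a j ∈ h.swap.U := by
  have hx : h.x⁻¹ ∈ h.swap.U := h.swap.x_mem
  have hx2 : h.x⁻¹ ^ 2 ∈ h.swap.U := h.swap.U.pow_mem hx 2
  rw [inv_pow] at hx2
  fin_cases a <;> fin_cases j <;> simp [S1, hx, hx2]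

theorem S_glue (a : Fin 2) (j : Fin 5) : h.S0 a j = h.x ^ 2 * h.S1 a j := by
  have hx := h.x_ne
  have h1 : (1 : F) = h.x * h.x * (h.x⁻¹ * h.x⁻¹) := by field_simp
  fin_cases a <;> fin_cases j <;> simp [S0, S1, hx, sq, ← h1]

theorem x_pow_mem_U01 (hm : 0 < m) (i : ℤ) : h.x ^ i ∈ (h.curve hm).U01 := by
  have h1 : h.x ^ i ∈ Subalgebra.toSubmodule (h.curve hm).U01 := by
    rw [h.toSubmodule_U01 hm]
    exact mem_Sp_of h.lb (S := Set.univ) (i := Sum.inl i) trivial
  exact h1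

/-- The variation of the sections. -/
def cM {B : Type} [CommRing B] (s t : B) : Matrix (Fin 2) (Fin 5) B :=
  !![0, s, 0, t, 0; 0, 0, 0, 0, 0]

theorem cM_map {B B' : Type} [CommRing B] [CommRing B'] (φ : B →+* B') (s t : B) (a : Fin 2)
    (j : Fin 5) : φ (cM s t a j) = cM (φ s) (φ t) a j := by
  fin_cases a <;> fin_cases j <;> simp [cM]

theorem cM_zero {B : Type} [CommRing B] (a : Fin 2) (j : Fin 5) : cM (0 : B) 0 a j = 0 := by
  fin_cases a <;> fin_cases j <;> simp [cM]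

/-- The sections with two parameters. -/
noncomputable def W0 (s t : ℂ) : Matrix (Fin 2) (Fin 5) F :=
  Matrix.of fun a j => h.S0 a j + algebraMap ℂ F (cM s t a j)

theorem W0_zero : h.W0 0 0 = h.S0 := by
  ext a j
  simp [W0, cM_zero]

theorem W0_indep (s t : ℂ) : LinearIndependent ℂ fun (j : Fin 5) (a : Fin 2) => h.W0 s t a j := by
  rw [Fintype.linearIndependent_iff]
  intro c hc
  have e0 := congrFun hc 0
  have e1 := congrFun hc 1
  simp only [Finset.sum_apply, Pi.smul_apply, Fin.sum_univ_five, Pi.zero_apply, W0, S0, cM,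
    Matrix.of_apply, Matrix.cons_val', Matrix.cons_val, smul_zero, add_zero, zero_add,
    Matrix.cons_val_zero, Matrix.cons_val_one, Matrix.cons_val_fin_one, map_zero] at e0 e1
  have p0 : (C (c 0) * X + C (c 1) * (X ^ 2 + C s) + C (c 3) * C t + C (c 4) : ℂ[X]) = 0 := by
    apply h.inj
    simp only [map_add, map_mul, aeval_C, aeval_X, map_pow]
    simp only [Algebra.smul_def, mul_one] at e0
    linear_combination e0
  have p1 : (C (c 2) + C (c 3) * X ^ 2 - C (c 4) * X : ℂ[X]) = 0 := by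
    apply h.inj
    simp only [map_add, map_sub, map_mul, aeval_C, aeval_X, map_pow]
    simp only [Algebra.smul_def, mul_one] at e1
    linear_combination e1
  have q1 := congrArg (fun p => Polynomial.coeff p 1) p0
  have q2 := congrArg (fun p => Polynomial.coeff p 2) p0
  have r0 := congrArg (fun p => Polynomial.coeff p 0) p1
  have r1 := congrArg (fun p => Polynomial.coeff p 1) p1
  have r2 := congrArg (fun p => Polynomial.coeff p 2) p1
  simp [Polynomial.coeff_X, Polynomial.coeff_C] at r0 r1 r2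
  simp [Polynomial.coeff_C] at q1 q2
  intro i
  fin_cases i <;> assumption

theorem S0_indep : LinearIndependent ℂ fun (j : Fin 5) (a : Fin 2) => h.S0 a j := by
  have := h.W0_indep 0 0
  rwa [h.W0_zero] at this

section family

variable {B B' : Type} [CommRing B] [Algebra ℂ B] [CommRing B'] [Algebra ℂ B']

/-- The unit `x ^ 2`. -/
noncomputable def ux (B : Type) [CommRing B] [Algebra ℂ B] : (B ⊗[ℂ] F)ˣ where
  val := 1 ⊗ₜ (h.x ^ (2 : ℤ))
  inv := 1 ⊗ₜ (h.x ^ (-2 : ℤ))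
  val_inv := by
    rw [Algebra.TensorProduct.tmul_mul_tmul, Algebra.TensorProduct.one_def, mul_one,
      ← zpow_add₀ h.x_ne]
    simp
  inv_val := by
    rw [Algebra.TensorProduct.tmul_mul_tmul, Algebra.TensorProduct.one_def, mul_one,
      ← zpow_add₀ h.x_ne]
    simp

/-- The gluing matrix. -/
noncomputable def gM (B : Type) [CommRing B] [Algebra ℂ B] : GL (Fin 2) (B ⊗[ℂ] F) :=
  Units.map (Matrix.scalar (Fin 2)).toMonoidHom (h.ux B)

theorem gM_val : (h.gM B).val = Matrix.diagonal fun _ => 1 ⊗ₜ (h.x ^ (2 : ℤ)) := rfl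

theorem gM_inv : (h.gM B).inv = Matrix.diagonal fun _ => 1 ⊗ₜ (h.x ^ (-2 : ℤ)) := rfl

/-- A two-parameter family of coherent systems with constant underlying bundle. -/
noncomputable def fam (hm : 0 < m) (s t : B) : CohSys (h.curve hm) B 2 5 where
  g := h.gM B
  s0 := Matrix.of fun a j => 1 ⊗ₜ (h.S0 a j) + inL F B (cM s t a j)
  s1 := Matrix.of fun a j => 1 ⊗ₜ (h.S1 a j) + cM s t a j ⊗ₜ (h.x ^ (-2 : ℤ))
  hg := by
    refine ⟨?_, ?_⟩
    · intro a b
      rw [h.gM_val, Matrix.diagonal_apply]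
      split_ifs
      · exact tmul_mem_fn _ (h.x_pow_mem_U01 hm _)
      · exact AddSubmonoid.zero_mem _
    · intro a b
      rw [h.gM_inv, Matrix.diagonal_apply]
      split_ifs
      · exact tmul_mem_fn _ (h.x_pow_mem_U01 hm _)
      · exact AddSubmonoid.zero_mem _
  h0 := fun a j => AddSubmonoid.add_mem _ (tmul_mem_fn _ (h.S0_mem a j)) (inL_mem_fn _)
  h1 := by
    intro a j
    refine AddSubmonoid.add_mem _ (tmul_mem_fn _ (h.S1_mem a j)) (tmul_mem_fn _ ?_)
    have h1 : h.x ^ (-2 : ℤ) = h.x⁻¹ ^ 2 := by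
      rw [zpow_neg, inv_pow]
      norm_cast
    rw [h1]
    exact h.swap.U.pow_mem h.swap.x_mem 2
  glue := by
    ext a j
    rw [h.gM_val, Matrix.diagonal_mul, Matrix.of_apply, Matrix.of_apply, mul_add,
      Algebra.TensorProduct.tmul_mul_tmul, Algebra.TensorProduct.tmul_mul_tmul, one_mul, one_mul,
      ← zpow_add₀ h.x_ne, h.S_glue, inL_apply]
    norm_num
  indep := by
    intro ρ
    have h1 : (fun (j : Fin 5) (a : Fin 2) => ev ρ
        ((Matrix.of fun a j => (1 : B) ⊗ₜ[ℂ] (h.S0 a j) + inL F B (cM s t a j)) a j)) =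
        fun (j : Fin 5) (a : Fin 2) => h.W0 (ρ s) (ρ t) a j := by
      funext j a
      have h2 : ρ (cM s t a j) = cM (ρ s) (ρ t) a j := cM_map ρ.toRingHom s t a j
      rw [Matrix.of_apply, map_add, ev_tmul, ev_inL, h2, map_one, one_smul]
      rfl
    rw [h1]
    exact h.W0_indep _ _

theorem fam_s0 (hm : 0 < m) (s t : B) (a : Fin 2) (j : Fin 5) :
    (h.fam hm s t).s0 a j = 1 ⊗ₜ (h.S0 a j) + inL F B (cM s t a j) := rfl

theorem fam_s1 (hm : 0 < m) (s t : B) (a : Fin 2) (j : Fin 5) :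
    (h.fam hm s t).s1 a j = 1 ⊗ₜ (h.S1 a j) + cM s t a j ⊗ₜ (h.x ^ (-2 : ℤ)) := rfl

theorem fam_g (hm : 0 < m) (s t : B) (a b : Fin 2) :
    (h.fam hm s t).g.val a b = if a = b then 1 ⊗ₜ (h.x ^ (2 : ℤ)) else 0 := by
  change (h.gM B).val a b = _
  rw [h.gM_val, Matrix.diagonal_apply]

theorem fam_map (hm : 0 < m) (φ : B →ₐ[ℂ] B') (s t : B) :
    (h.fam hm s t).map φ = h.fam hm (φ s) (φ t) := by
  apply CohSys.ext'
  · apply Units.ext
    ext a b
    change bc φ ((h.fam hm s t).g.val a b) = (h.fam hm (φ s) (φ t)).g.val a b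
    rw [h.fam_g, h.fam_g]
    split_ifs
    · rw [bc_tmul, map_one]
    · rw [map_zero]
  · ext a j
    change bc φ ((h.fam hm s t).s0 a j) = (h.fam hm (φ s) (φ t)).s0 a j
    rw [h.fam_s0, h.fam_s0, map_add, bc_tmul, map_one, bc_inL]
    congr 2
    exact cM_map φ.toRingHom s t a j
  · ext a j
    change bc φ ((h.fam hm s t).s1 a j) = (h.fam hm (φ s) (φ t)).s1 a j
    rw [h.fam_s1, h.fam_s1, map_add, bc_tmul, map_one, bc_tmul]
    congr 2
    exact cM_map φ.toRingHom s t a j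

end family

/-- The coherent system `(A ⊕ A, V)`, where `A` is the square of the hyperelliptic line bundle and
`V` is a hyperplane in `H⁰(A ⊕ A)`. -/
noncomputable def sys (hm : 0 < m) : CohSys (h.curve hm) ℂ 2 5 := h.fam hm 0 0

theorem fam_det (hm : 0 < m) {B : Type} [CommRing B] [Algebra ℂ B] (s t : B) :
    CohSys.SameDet (h.sys hm) (h.fam hm s t) := by
  refine ⟨1, 1, 1, 1, one_mem_fn, one_mem_fn, one_mul 1, one_mem_fn, one_mem_fn, one_mul 1, ?_⟩
  rw [one_mul, mul_one]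
  have h1 := RingHom.map_det (bc (F := F) (Algebra.ofId ℂ B)) (h.sys hm).g.val
  rw [h1]
  congr 1
  ext a b
  change _ = bc (Algebra.ofId ℂ B) ((h.sys hm).g.val a b)
  rw [sys, h.fam_g, h.fam_g]
  split_ifs
  · rw [bc_tmul, map_one]
  · rw [map_zero]

theorem ev_sys_s0 (hm : 0 < m) (a : Fin 2) (j : Fin 5) :
    ev (AlgHom.id ℂ ℂ) ((h.sys hm).s0 a j) = h.S0 a j := by
  rw [sys, h.fam_s0, cM_zero, map_zero, add_zero, ev_tmul]
  simp

theorem ev_sys_s1 (hm : 0 < m) (a : Fin 2) (j : Fin 5) :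
    ev (AlgHom.id ℂ ℂ) ((h.sys hm).s1 a j) = h.S1 a j := by
  rw [sys, h.fam_s1, cM_zero, TensorProduct.zero_tmul, add_zero, ev_tmul]
  simp

theorem ev_sys_g (hm : 0 < m) (a b : Fin 2) :
    ev (AlgHom.id ℂ ℂ) ((h.sys hm).g.val a b) = if a = b then h.x ^ 2 else 0 := by
  rw [sys, h.fam_g]
  split_ifs
  · rw [ev_tmul]
    simp only [AlgHom.coe_id, id_eq, one_smul]
    norm_cast
  · rw [map_zero]

theorem sys_V (hm : 0 < m) : (h.sys hm).V =
    Submodule.span ℂ (Set.range fun (j : Fin 5) (a : Fin 2) => h.S0 a j) := by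
  unfold CohSys.V
  simp only [h.ev_sys_s0]

theorem sys_gF (hm : 0 < m) : (h.sys hm).gF = Matrix.scalar (Fin 2) (h.x ^ 2) := by
  ext a b
  change ev (AlgHom.id ℂ ℂ) ((h.sys hm).g.val a b) = _
  rw [h.ev_sys_g, Matrix.scalar_apply, Matrix.diagonal_apply]

theorem sys_E0 (hm : 0 < m) : (h.sys hm).E0 = piS 2 (Sp h.lb A0) := by
  rw [← h.toSubmodule_U]; rfl

theorem sys_E01 (hm : 0 < m) : (h.sys hm).E01 = piS 2 (Sp h.lb Set.univ) := by
  rw [← h.toSubmodule_U01 hm]; rfl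

theorem sys_E1 (hm : 0 < m) : (h.sys hm).E1 = piS 2 (Sp h.lb (A1 m 2)) := by
  unfold CohSys.E1
  rw [h.sys_gF, ← h.toSubmodule_swap_U 2]
  change (piS 2 (Subalgebra.toSubmodule h.swap.U)).map _ = _
  ext z
  constructor
  · rintro ⟨w, hw, rfl⟩
    rw [mem_piS]
    intro i
    refine ⟨w i, mem_piS.1 hw i, ?_⟩
    simp only [LinearMap.mulLeft_apply, LinearMap.coe_restrictScalars, Matrix.mulVecLin_apply,
      Matrix.scalar_apply, Matrix.mulVec_diagonal]
    norm_cast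
  · intro hz
    rw [mem_piS] at hz
    choose w hw hwz using hz
    refine ⟨w, mem_piS.2 hw, ?_⟩
    funext i
    rw [← hwz i]
    simp only [LinearMap.mulLeft_apply, LinearMap.coe_restrictScalars, Matrix.mulVecLin_apply,
      Matrix.scalar_apply, Matrix.mulVec_diagonal]
    norm_cast

theorem sys_deg (hm : 4 ≤ m) : (h.sys (by omega : 0 < m)).deg = 8 := by
  have hm' : 0 < m := by omega
  unfold CohSys.deg CohSys.degSub
  have ht : (⊤ : Submodule F (Fin 2 → F)).restrictScalars ℂ = ⊤ := rfl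
  rw [ht, top_inf_eq, top_inf_eq, top_inf_eq, h.sys_E0, h.sys_E1, h.sys_E01, chiO_curve, chi]
  have e0 : (A0 ∩ A1 m 2).ncard = 2 + 1 := ncard_inter 2 (by omega)
  have e1 : (A0 ∪ A1 m 2)ᶜ.ncard = m - 1 - 2 := ncard_compl 2
  have f0 : Module.Finite ℂ ↥(Sp h.lb A0 ⊓ Sp h.lb (A1 m 2)) := by
    rw [← Sp_inter h.lb_indep]
    apply finite_Sp
    apply Set.finite_of_ncard_pos
    omega
  have f1 : Module.Finite ℂ (↥(Sp h.lb Set.univ) ⧸
      (Sp h.lb A0 ⊔ Sp h.lb (A1 m 2)).comap (Sp h.lb Set.univ).subtype) := by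
    rw [← Sp_union]
    apply finite_quot_Sp h.lb_indep
    rw [← Set.compl_eq_univ_sdiff]
    exact finite_compl 2
  rw [h0_piS, h1_piS, h0_Sp h.lb_indep, h1_Sp h.lb_indep, e0, e1, finrank_top,
    Module.finrank_fintype_fun_eq_card, Fintype.card_fin]
  push_cast [Nat.cast_sub (show 2 ≤ m - 1 by omega), Nat.cast_sub (show 1 ≤ m by omega)]
  ring

theorem sys_h1det (hm : 0 < m) : (h.sys hm).h1det = m - 5 := by
  unfold CohSys.h1det
  have hd : (h.sys hm).gF.det = h.x ^ (4 : ℤ) := by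
    rw [h.sys_gF, Matrix.scalar_apply, Matrix.det_diagonal, Fin.prod_univ_two]
    have : h.x ^ (4 : ℤ) = h.x ^ 4 := by norm_cast
    rw [this]; ring
  rw [hd, h.toSubmodule_U01]
  change h1 (Subalgebra.toSubmodule h.U) ((Subalgebra.toSubmodule h.swap.U).map
    (LinearMap.mulLeft ℂ (h.x ^ (4 : ℤ)))) _ = _
  rw [h.toSubmodule_U, h.toSubmodule_swap_U, h1_Sp h.lb_indep]
  exact (ncard_compl 4).trans (by omega)

end Hyp

end Pool.Agent.Hhelper20.CS
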