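import Pool.Agent.Hhelper20.CS.Hyp6

open Polynomial

namespace Pool.Agent.Hhelper20.CS

namespace Hyp

variable {F : Type} [Field F] [Algebra ℂ F] {m : ℕ} (h : Hyp F m)

/-- The functional cutting out the space of sections. -/
noncomputable def phi : (Fin 2 → F) →ₗ[ℂ] ℂ :=
  Finsupp.lapply (Sum.inl 0) ∘ₗ co h.lb_indep ∘ₗ LinearMap.proj 0 +
    Finsupp.lapply (Sum.inl 1) ∘ₗ co h.lb_indep ∘ₗ LinearMap.proj 1

theorem phi_apply (z : Fin 2 → F) :
    h.phi z = co h.lb_indep (z 0) (Sum.inl 0) + co h.lb_indep (z 1) (Sum.inl 1) := rfl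

theorem co_x : co h.lb_indep h.x = Finsupp.single (Sum.inl 1) 1 := by
  have := co_b h.lb_indep (Sum.inl 1)
  simpa [lb] using this

theorem co_x2 : co h.lb_indep (h.x ^ 2) = Finsupp.single (Sum.inl 2) 1 := by
  have := co_b h.lb_indep (Sum.inl 2)
  have h2 : h.lb (Sum.inl 2) = h.x ^ 2 := by simp only [lb]; norm_cast
  rwa [h2] at this

theorem co_1 : co h.lb_indep 1 = Finsupp.single (Sum.inl 0) 1 := by
  have := co_b h.lb_indep (Sum.inl 0)
  simpa [lb] using this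

theorem phi_S0 (j : Fin 5) : h.phi (fun a => h.S0 a j) = 0 := by
  fin_cases j <;> simp [phi_apply, S0, co_x, co_x2, co_1]

/-- Polynomials of degree at most two. -/
theorem mem_P (z : F) (hm : 3 ≤ m) : z ∈ Sp h.lb (A0 ∩ A1 m 2) ↔
    ∃ c0 c1 c2 : ℂ, z = algebraMap ℂ F c0 + algebraMap ℂ F c1 * h.x +
      algebraMap ℂ F c2 * h.x ^ 2 := by
  have e : (A0 ∩ A1 m 2) = {Sum.inl 0, Sum.inl 1, Sum.inl 2} := by
    have := inter_eq (m := m) 2 (by omega)
    have h2 : ((2 : ℕ) : ℤ) = 2 := rfl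
    rw [h2] at this
    rw [this]
    ext i
    simp only [Set.mem_image, Set.mem_Icc, Set.mem_insert_iff, Set.mem_singleton_iff]
    constructor
    · rintro ⟨j, hj, rfl⟩
      have : j = 0 ∨ j = 1 ∨ j = 2 := by omega
      rcases this with rfl | rfl | rfl <;> simp
    · rintro (rfl | rfl | rfl)
      · exact ⟨0, by norm_num, rfl⟩
      · exact ⟨1, by norm_num, rfl⟩
      · exact ⟨2, by norm_num, rfl⟩
  have l0 : h.lb (Sum.inl 0) = 1 := by simp [lb]
  have l1 : h.lb (Sum.inl 1) = h.x := by simp [lb]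
  have l2 : h.lb (Sum.inl 2) = h.x ^ 2 := by simp only [lb]; norm_cast
  rw [e, Sp, Set.image_insert_eq, Set.image_insert_eq, Set.image_singleton, l0, l1, l2]
  simp only [Submodule.mem_span_insert, Submodule.mem_span_singleton]
  constructor
  · rintro ⟨a, _, ⟨b, _, ⟨c, rfl⟩, rfl⟩, rfl⟩
    exact ⟨a, b, c, by simp only [Algebra.smul_def]; ring⟩
  · rintro ⟨a, b, c, rfl⟩
    exact ⟨a, _, ⟨b, _, ⟨c, rfl⟩, rfl⟩, by simp only [Algebra.smul_def]; ring⟩

theorem S0_mem_P (hm : 3 ≤ m) (a : Fin 2) (j : Fin 5) :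
    h.S0 a j ∈ Sp h.lb (A0 ∩ A1 m 2) := by
  rw [h.mem_P _ hm]
  fin_cases a <;> fin_cases j
  · exact ⟨0, 1, 0, by simp [S0]⟩
  · exact ⟨0, 0, 1, by simp [S0]⟩
  · exact ⟨0, 0, 0, by simp [S0]⟩
  · exact ⟨0, 0, 0, by simp [S0]⟩
  · exact ⟨1, 0, 0, by simp [S0]⟩
  · exact ⟨0, 0, 0, by simp [S0]⟩
  · exact ⟨0, 0, 0, by simp [S0]⟩
  · exact ⟨1, 0, 0, by simp [S0]⟩
  · exact ⟨0, 0, 1, by simp [S0]⟩
  · exact ⟨0, -1, 0, by simp [S0]⟩

theorem V_le_ker (hm : 0 < m) : (h.sys hm).V ≤ LinearMap.ker h.phi := by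
  rw [h.sys_V, Submodule.span_le]
  rintro _ ⟨j, rfl⟩
  exact h.phi_S0 j

theorem V_le_P (hm : 0 < m) (hm3 : 3 ≤ m) : (h.sys hm).V ≤ piS 2 (Sp h.lb (A0 ∩ A1 m 2)) := by
  rw [h.sys_V, Submodule.span_le]
  rintro _ ⟨j, rfl⟩
  rw [SetLike.mem_coe, mem_piS]
  exact fun a => h.S0_mem_P hm3 a j

theorem finrank_le_two (hm : 4 ≤ m) (S : Submodule F (Fin 2 → F)) (hS : Module.finrank F S = 1)
    (W : Submodule ℂ (Fin 2 → F)) (hWV : W ≤ (h.sys (by omega : 0 < m)).V)
    (hWS : W ≤ S.restrictScalars ℂ) : Module.finrank ℂ W ≤ 2 := by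
  by_contra hcon
  obtain ⟨s, hs, hs0⟩ : ∃ s ∈ S, s ≠ 0 := by
    by_contra hcon
    push Not at hcon
    have : S = ⊥ := by
      rw [eq_bot_iff]
      intro z hz
      exact (Submodule.mem_bot F).2 (hcon z hz)
    rw [this, finrank_bot] at hS
    exact zero_ne_one hS
  set P := Sp h.lb (A0 ∩ A1 m 2) with hP
  have hPr : Module.finrank ℂ P = 3 := by
    have e0 : (A0 ∩ A1 m 2).ncard = 2 + 1 := ncard_inter 2 (by omega)
    rw [hP, finrank_Sp h.lb_indep, e0]
  have hPf : Module.Finite ℂ P := Module.finite_of_finrank_pos (by rw [hPr]; norm_num)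
  have hWP : ∀ z ∈ W, ∀ a, z a ∈ P := fun z hz => mem_piS.1 (h.V_le_P _ (by omega) (hWV hz))
  have hWk : ∀ z ∈ W, h.phi z = 0 := fun z hz => h.V_le_ker _ (hWV hz)
  have hsurj : ∀ a, s a ≠ 0 → ∀ p ∈ P, ∃ z ∈ W, z a = p := by
    intro a ha
    let g : W →ₗ[ℂ] P := (LinearMap.proj a ∘ₗ W.subtype).codRestrict P fun z => hWP z z.2 a
    have hg : Function.Injective g := by
      rw [injective_iff_map_eq_zero]
      intro z hz
      obtain ⟨c, hc⟩ := mem_span_of_finrank_one hS hs hs0 (hWS z.2)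
      have h1 : c * s a = 0 := by
        have := congrArg Subtype.val hz
        change (z : Fin 2 → F) a = 0 at this
        rw [hc] at this
        exact this
      apply Subtype.ext
      rw [hc]
      rcases mul_eq_zero.1 h1 with hc | hc
      · rw [hc, zero_smul]; rfl
      · exact absurd hc ha
    have hWf : Module.Finite ℂ W := Module.Finite.of_injective g hg
    have h1 := LinearMap.finrank_le_finrank_of_injective hg
    have h2 : Module.finrank ℂ W = Module.finrank ℂ P := by omega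
    have h3 := (LinearMap.injective_iff_surjective_of_finrank_eq_finrank h2).1 hg
    intro p hp
    obtain ⟨z, hz⟩ := h3 ⟨p, hp⟩
    exact ⟨z, z.2, congrArg Subtype.val hz⟩
  have hP1 : (1 : F) ∈ P := (h.mem_P _ (by omega)).2 ⟨1, 0, 0, by simp⟩
  have hPx : h.x ∈ P := (h.mem_P _ (by omega)).2 ⟨0, 1, 0, by simp⟩
  have hPx2 : h.x ^ 2 ∈ P := (h.mem_P _ (by omega)).2 ⟨0, 0, 1, by simp⟩
  by_cases ha : s 0 = 0
  · have ha1 : s 1 ≠ 0 := by
      intro h1
      apply hs0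
      funext i
      fin_cases i <;> assumption
    obtain ⟨z, hz, hz1⟩ := hsurj 1 ha1 h.x hPx
    have hz0 : z 0 = 0 := by
      obtain ⟨c, hc⟩ := mem_span_of_finrank_one hS hs hs0 (hWS hz)
      rw [hc, Pi.smul_apply, ha, smul_zero]
    have := hWk z hz
    rw [h.phi_apply, hz0, hz1, co_x] at this
    simp at this
  · obtain ⟨z, hz, hz1⟩ := hsurj 0 ha 1 hP1
    obtain ⟨w, hw, hw1⟩ := hsurj 0 ha _ hPx2
    obtain ⟨c, hc⟩ := mem_span_of_finrank_one hS hs hs0 (hWS hz)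
    obtain ⟨d, hd⟩ := mem_span_of_finrank_one hS hs hs0 (hWS hw)
    have hz1' : c * s 0 = 1 := by rw [← hz1, hc]; rfl
    have hw1' : d * s 0 = h.x ^ 2 := by rw [← hw1, hd]; rfl
    have hcd : d = h.x ^ 2 * c := by
      have : d * s 0 = h.x ^ 2 * c * s 0 := by rw [mul_assoc, hz1', hw1', mul_one]
      exact mul_right_cancel₀ ha this
    have hwz : w 1 = h.x ^ 2 * z 1 := by
      rw [hd, hc, Pi.smul_apply, Pi.smul_apply, smul_eq_mul, smul_eq_mul, hcd, mul_assoc]
    have h1 : z 1 ∈ Sp h.lb (A0 ∩ A1 m 2) := hWP z hz 1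
    have h2 : h.x ^ (2 : ℤ) * z 1 ∈ Sp h.lb (A0 ∩ A1 m 2) := by
      have := hWP w hw 1
      rw [hwz] at this
      exact_mod_cast this
    rw [h.mul_mem_Sp_iff] at h2
    have h3 : co h.lb_indep (z 1) (Sum.inl 1) = 0 := by
      apply co_eq_zero h.lb_indep h2
      rw [mem_sh_image]
      rintro ⟨-, h4⟩
      change (1 : ℤ) + -(-2) ≤ 2 at h4
      omega
    have := hWk z hz
    rw [h.phi_apply, h3, hz1, co_1] at this
    simp at this

theorem finrank_V (hm : 0 < m) : Module.finrank ℂ (h.sys hm).V = 5 := by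
  rw [h.sys_V, finrank_span_eq_card h.S0_indep]
  rfl

/-- The coherent system is `α`-stable for every `α > 0`. -/
theorem sys_stable (hm : 4 ≤ m) {α : ℝ} (hα : 0 < α) :
    (h.sys (by omega : 0 < m)).IsStable α := by
  intro S W hS hSW hWV hWS
  have hm' : 0 < m := by omega
  rw [h.sys_deg hm]
  have hle : Module.finrank F S ≤ 2 := by
    have := Submodule.finrank_le S
    rwa [Module.finrank_fintype_fun_eq_card, Fintype.card_fin] at this
  have hpos : 0 < Module.finrank F S := by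
    rw [Module.finrank_pos_iff, Submodule.nontrivial_iff_ne_bot]
    exact hS
  have hVf : Module.Finite ℂ (h.sys hm').V :=
    Module.finite_of_finrank_pos (by rw [h.finrank_V]; norm_num)
  rcases (by omega : Module.finrank F S = 1 ∨ Module.finrank F S = 2) with h1 | h2
  · have d1 : (((h.sys hm').degSub S : ℤ) : ℝ) ≤ 4 := by exact_mod_cast h.degSub_le hm S h1
    have d2 : (Module.finrank ℂ W : ℝ) ≤ 2 := by exact_mod_cast h.finrank_le_two hm S h1 W hWV hWS
    rw [h1]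
    push_cast
    have d3 : α * (Module.finrank ℂ W : ℝ) ≤ α * 2 := mul_le_mul_of_nonneg_left d2 hα.le
    linarith
  · have hT : S = ⊤ := by
      apply Submodule.eq_top_of_finrank_eq
      rw [h2, Module.finrank_fintype_fun_eq_card, Fintype.card_fin]
    subst hT
    have hne : W ≠ (h.sys hm').V := fun e => hSW ⟨rfl, e⟩
    have hlt := Submodule.finrank_lt_finrank_of_lt (lt_of_le_of_ne hWV hne)
    rw [h.finrank_V] at hlt
    have d2 : (Module.finrank ℂ W : ℝ) ≤ 4 := by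
      exact_mod_cast Nat.lt_succ_iff.1 hlt
    have d3 : α * (Module.finrank ℂ W : ℝ) ≤ α * 4 := mul_le_mul_of_nonneg_left d2 hα.le
    have d4 : (h.sys hm').degSub ⊤ = 8 := h.sys_deg hm
    rw [h2, d4]
    push_cast
    linarith

end Hyp

end Pool.Agent.Hhelper20.CS
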