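import Pool.Agent.Hhelper20.CS.Hyp7

open TensorProduct

namespace Pool.Agent.Hhelper20.CS

section

variable {F : Type} [Field F] [Algebra ℂ F] {B : Type} [CommRing B] [Algebra ℂ B]

/-- The derivative of `z` along `l`, as a linear function of `l`. -/
noncomputable def DlF (z : B ⊗[ℂ] F) : (B →ₗ[ℂ] ℂ) →ₗ[ℂ] F where
  toFun l := Dl l z
  map_add' l l' := Dl_add l l' z
  map_smul' c l := Dl_smul c l z

theorem DlF_apply (z : B ⊗[ℂ] F) (l : B →ₗ[ℂ] ℂ) : DlF z l = Dl l z := rfl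

theorem DlF_mem {U : Subalgebra ℂ F} {z : B ⊗[ℂ] F} (hz : z ∈ fn B U) (l : B →ₗ[ℂ] ℂ) :
    DlF z l ∈ U := Dl_mem l hz

end

namespace Hyp

variable {F : Type} [Field F] [Algebra ℂ F] {m : ℕ} (h : Hyp F m)

theorem exists_coeff (hm : 3 ≤ m) (z : Fin 2 → F)
    (hz : ∀ a, z a ∈ Sp h.lb (A0 ∩ A1 m 2)) (hphi : h.phi z = 0) :
    ∃ c : Fin 5 → ℂ, ∀ a, z a = ∑ i, h.S0 a i * algebraMap ℂ F (c i) := by
  obtain ⟨a0, a1, a2, ha⟩ := (h.mem_P _ hm).1 (hz 0)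
  obtain ⟨b0, b1, b2, hb⟩ := (h.mem_P _ hm).1 (hz 1)
  have hab : a0 + b1 = 0 := by
    rw [h.phi_apply, ha, hb] at hphi
    simpa only [Algebra.algebraMap_eq_smul_one, smul_mul_assoc, one_mul, map_add, map_smul,
      h.co_1, h.co_x, h.co_x2, Finsupp.add_apply, Finsupp.smul_apply, Finsupp.single_apply,
      Sum.inl.injEq, smul_eq_mul, reduceCtorEq, if_true, if_false, mul_zero, mul_one, add_zero,
      zero_add, show (1 : ℤ) = 0 ↔ False by norm_num, show (2 : ℤ) = 0 ↔ False by norm_num,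
      show (0 : ℤ) = 1 ↔ False by norm_num, show (2 : ℤ) = 1 ↔ False by norm_num] using hphi
  have hab' : b1 = -a0 := by linear_combination hab
  refine ⟨![a1, a2, b0, b2, a0], ?_⟩
  intro a
  fin_cases a
  · simp only [Fin.zero_eta, ha, Fin.sum_univ_five, S0]
    simp
    ring
  · simp only [Fin.mk_one, hb, Fin.sum_univ_five, S0, hab']
    simp
    ring

/-- Two conditions that force the vanishing of a class in `H¹(𝒪)`. -/
theorem mem_Q (hm : 5 ≤ m) {n : F} (h1 : n ∈ Sp h.lb (A0 ∪ A1 m 2))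
    (h2 : h.x ^ 2 * n ∈ Sp h.lb (A0 ∪ A1 m 2)) : n ∈ Sp h.lb (A0 ∪ A1 m 0) := by
  have h2' : h.x ^ (2 : ℤ) * n ∈ Sp h.lb (A0 ∪ A1 m 2) := by exact_mod_cast h2
  rw [h.mul_mem_Sp_iff] at h2'
  have h3 : n ∈ Sp h.lb (A0 ∪ A1 m 2) ⊓ Sp h.lb (sh (-2) '' (A0 ∪ A1 m 2)) := ⟨h1, h2'⟩
  rw [← Sp_inter h.lb_indep] at h3
  refine Sp_mono _ ?_ h3
  rintro i ⟨hi, hi'⟩
  rw [mem_sh_image] at hi'
  rcases i with i | i
  · by_cases h0 : 0 ≤ i
    · exact Or.inl h0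
    · right
      change i ≤ 0
      omega
  · by_cases h0 : 0 ≤ i
    · exact Or.inl h0
    · right
      change i ≤ 0 - m
      have e1 : i ≤ 2 - m := by
        rcases hi with hi | hi
        · exact absurd hi h0
        · exact hi
      rcases hi' with hi' | hi'
      · have : 0 ≤ i + - -2 := hi'
        omega
      · have : i + - -2 ≤ 2 - m := hi'
        omega

theorem x_mul_mem {n : F} (h1 : n ∈ Sp h.lb (A0 ∪ A1 m 0)) :
    h.x * n ∈ Sp h.lb (A0 ∪ A1 m 2) := by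
  have h2 : h.x ^ (1 : ℤ) * n ∈ Sp h.lb (A0 ∪ A1 m 2) := by
    rw [h.mul_mem_Sp_iff]
    refine Sp_mono _ ?_ h1
    intro i hi
    rw [mem_sh_image]
    rcases i with i | i
    · rcases hi with hi | hi
      · left
        have : 0 ≤ i := hi
        change 0 ≤ i + - -1
        omega
      · right
        have : i ≤ 0 := hi
        change i + - -1 ≤ 2
        omega
    · rcases hi with hi | hi
      · left
        have : 0 ≤ i := hi
        change 0 ≤ i + - -1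
        omega
      · right
        have : i ≤ 0 - m := hi
        change i + - -1 ≤ 2 - m
        omega
  simpa using h2

theorem x2_mul_mem {u : F} (hu : u ∈ h.swap.U) : h.x ^ 2 * u ∈ Sp h.lb (A1 m 2) := by
  rw [← h.toSubmodule_swap_U 2]
  exact ⟨u, hu, by simp only [LinearMap.mulLeft_apply]; norm_cast⟩

section tangent

variable {B : Type} [CommRing B] [Algebra ℂ B] {hm : 0 < m} (ρ : B →ₐ[ℂ] ℂ)
  (Y : CohSys (h.curve hm) B 2 5)

/-- First order part of the gluing matrix. -/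
noncomputable def tG (a b : Fin 2) : (B →ₗ[ℂ] ℂ) →ₗ[ℂ] F := DlF (Y.g.val a b)

/-- First order part of the sections on the first chart. -/
noncomputable def tT0 (a : Fin 2) (j : Fin 5) : (B →ₗ[ℂ] ℂ) →ₗ[ℂ] F := DlF (Y.s0 a j)

/-- First order part of the sections on the second chart. -/
noncomputable def tT1 (a : Fin 2) (j : Fin 5) : (B →ₗ[ℂ] ℂ) →ₗ[ℂ] F := DlF (Y.s1 a j)

/-- First order part of the gluing matrix, divided by `x ^ 2`. -/
noncomputable def tN (a b : Fin 2) : (B →ₗ[ℂ] ℂ) →ₗ[ℂ] F :=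
  LinearMap.mulLeft ℂ (h.x ^ (2 : ℤ))⁻¹ ∘ₗ h.tG Y a b

/-- Its part on the first chart. -/
noncomputable def tP (a b : Fin 2) : (B →ₗ[ℂ] ℂ) →ₗ[ℂ] F :=
  pj h.lb_indep A0 ∘ₗ h.tN Y a b

/-- The corrected first order part of the sections. -/
noncomputable def tnu (a : Fin 2) (j : Fin 5) : (B →ₗ[ℂ] ℂ) →ₗ[ℂ] F :=
  h.tT0 Y a j - (LinearMap.mulRight ℂ (h.S0 0 j) ∘ₗ h.tP Y a 0 +
    LinearMap.mulRight ℂ (h.S0 1 j) ∘ₗ h.tP Y a 1)

/-- The class of the corrected first order part of a section modulo the space of sections. -/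
noncomputable def tphi (j : Fin 5) : (B →ₗ[ℂ] ℂ) →ₗ[ℂ] ℂ :=
  h.phi ∘ₗ LinearMap.pi fun a => h.tnu Y a j

theorem tnu_apply (a : Fin 2) (j : Fin 5) (l : B →ₗ[ℂ] ℂ) : h.tnu Y a j l =
    h.tT0 Y a j l - (h.tP Y a 0 l * h.S0 0 j + h.tP Y a 1 l * h.S0 1 j) := rfl

theorem tN_mul (a b : Fin 2) (l : B →ₗ[ℂ] ℂ) :
    h.tG Y a b l = h.x ^ 2 * h.tN Y a b l := by
  have hx := h.x_ne
  have h1 : h.x ^ (2 : ℤ) = h.x ^ 2 := by norm_cast
  change h.tG Y a b l = h.x ^ 2 * ((h.x ^ (2 : ℤ))⁻¹ * h.tG Y a b l)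
  rw [h1]
  field_simp

variable (hY : Y.map ρ = h.sys hm)

include hY in
theorem ev_g (a b : Fin 2) : ev ρ (Y.g.val a b) = if a = b then h.x ^ 2 else 0 := by
  rw [← h.ev_sys_g hm, ← hY]
  change _ = ev (AlgHom.id ℂ ℂ) (bc ρ (Y.g.val a b))
  rw [ev_bc, AlgHom.id_comp]

include hY in
theorem ev_s0 (a : Fin 2) (j : Fin 5) : ev ρ (Y.s0 a j) = h.S0 a j := by
  rw [← h.ev_sys_s0 hm, ← hY]
  change _ = ev (AlgHom.id ℂ ℂ) (bc ρ (Y.s0 a j))
  rw [ev_bc, AlgHom.id_comp]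

include hY in
theorem ev_s1 (a : Fin 2) (j : Fin 5) : ev ρ (Y.s1 a j) = h.S1 a j := by
  rw [← h.ev_sys_s1 hm, ← hY]
  change _ = ev (AlgHom.id ℂ ℂ) (bc ρ (Y.s1 a j))
  rw [ev_bc, AlgHom.id_comp]

include hY in
theorem t_glue {l : B →ₗ[ℂ] ℂ} (hl : IsTan ρ l) (a : Fin 2) (j : Fin 5) :
    h.tT0 Y a j l = h.x ^ 2 * h.tT1 Y a j l +
      (h.tN Y a 0 l * h.S0 0 j + h.tN Y a 1 l * h.S0 1 j) := by
  have h1 : Dl l (Y.s0 a j) = Dl l ((Y.g.val * Y.s1) a j) := by rw [← Y.glue]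
  rw [Matrix.mul_apply, Fin.sum_univ_two, map_add, Dl_mul hl, Dl_mul hl, h.ev_g ρ Y hY,
    h.ev_g ρ Y hY, h.ev_s1 ρ Y hY, h.ev_s1 ρ Y hY] at h1
  change h.tT0 Y a j l = _ * h.tT1 Y 0 j l + h.tG Y a 0 l * _ +
    (_ * h.tT1 Y 1 j l + h.tG Y a 1 l * _) at h1
  rw [h1, h.S_glue, h.S_glue, h.tN_mul, h.tN_mul]
  fin_cases a
  · simp; ring
  · simp; ring

include hY in
theorem tN_mem (hm5 : 5 ≤ m) {l : B →ₗ[ℂ] ℂ} (hl : IsTan ρ l) (a b : Fin 2) :
    h.tN Y a b l ∈ Sp h.lb (A0 ∪ A1 m 0) := by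
  have R : ∀ j, h.tN Y a 0 l * h.S0 0 j + h.tN Y a 1 l * h.S0 1 j ∈
      Sp h.lb (A0 ∪ A1 m 2) := by
    intro j
    have h1 := h.t_glue ρ Y hY hl a j
    have h2 : h.tN Y a 0 l * h.S0 0 j + h.tN Y a 1 l * h.S0 1 j =
      h.tT0 Y a j l - h.x ^ 2 * h.tT1 Y a j l := by linear_combination -h1
    rw [h2, Sp_union]
    refine Submodule.sub_mem _ (Submodule.mem_sup_left ?_) (Submodule.mem_sup_right ?_)
    · rw [← h.toSubmodule_U]
      exact DlF_mem (Y.h0 a j) l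
    · exact h.x2_mul_mem (DlF_mem (Y.h1 a j) l)
  have R1 := R 1
  have R2 := R 2
  have R3 := R 3
  have R4 := R 4
  simp only [S0, Matrix.of_apply, Matrix.cons_val', Matrix.cons_val, Matrix.cons_val_zero,
    Matrix.cons_val_one, Matrix.cons_val_fin_one, mul_zero, add_zero, zero_add, mul_one] at R1 R2 R3 R4
  have N1 : h.tN Y a 1 l ∈ Sp h.lb (A0 ∪ A1 m 0) := h.mem_Q hm5 R2 (by rwa [mul_comm] at R3)
  have N0 : h.tN Y a 0 l ∈ Sp h.lb (A0 ∪ A1 m 0) := by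
    refine h.mem_Q hm5 ?_ (by rwa [mul_comm] at R1)
    have h3 := Submodule.add_mem _ R4 (h.x_mul_mem N1)
    have h4 : h.tN Y a 0 l + h.tN Y a 1 l * -h.x + h.x * h.tN Y a 1 l =
      h.tN Y a 0 l := by ring
    rwa [h4] at h3
  fin_cases b
  · exact N0
  · exact N1

theorem tP_mem (l : B →ₗ[ℂ] ℂ) (a b : Fin 2) : h.tP Y a b l ∈ h.U := by
  have : h.tP Y a b l ∈ Subalgebra.toSubmodule h.U := by
    rw [h.toSubmodule_U]
    exact pj_mem _ _ _
  exact this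

include hY in
theorem tP_sub_mem (hm5 : 5 ≤ m) {l : B →ₗ[ℂ] ℂ} (hl : IsTan ρ l) (a b : Fin 2) :
    h.tP Y a b l - h.tN Y a b l ∈ h.swap.U := by
  have : h.tP Y a b l - h.tN Y a b l ∈ Subalgebra.toSubmodule h.swap.U := by
    rw [h.toSubmodule_swap_U', ← neg_sub]
    refine Submodule.neg_mem _ ?_
    refine Sp_mono _ ?_ (sub_pj_mem h.lb_indep A0 (h.tN_mem ρ Y hY hm5 hl a b))
    rintro i ⟨h1 | h1, h2⟩
    · exact absurd h1 h2
    · exact h1
  exact this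

include hY in
theorem tnu_mem (hm5 : 5 ≤ m) {l : B →ₗ[ℂ] ℂ} (hl : IsTan ρ l) (a : Fin 2) (j : Fin 5) :
    h.tnu Y a j l ∈ Sp h.lb (A0 ∩ A1 m 2) := by
  rw [Sp_inter h.lb_indep]
  refine ⟨?_, ?_⟩
  · rw [← h.toSubmodule_U, h.tnu_apply]
    exact h.U.sub_mem (DlF_mem (Y.h0 a j) l) (h.U.add_mem
      (h.U.mul_mem (h.tP_mem Y l _ _) (h.S0_mem _ _))
      (h.U.mul_mem (h.tP_mem Y l _ _) (h.S0_mem _ _)))
  · have h1 : h.tnu Y a j l = h.x ^ 2 * (h.tT1 Y a j l -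
        ((h.tP Y a 0 l - h.tN Y a 0 l) * h.S1 0 j +
          (h.tP Y a 1 l - h.tN Y a 1 l) * h.S1 1 j)) := by
      rw [h.tnu_apply, h.t_glue ρ Y hY hl, h.S_glue, h.S_glue]
      ring
    rw [h1]
    refine h.x2_mul_mem (h.swap.U.sub_mem (DlF_mem (Y.h1 a j) l) (h.swap.U.add_mem
      (h.swap.U.mul_mem (h.tP_sub_mem ρ Y hY hm5 hl _ _) (h.S1_mem _ _))
      (h.swap.U.mul_mem (h.tP_sub_mem ρ Y hY hm5 hl _ _) (h.S1_mem _ _))))

include hY in
/-- If the two obstructions vanish, the tangent vector is trivial. -/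
theorem iso_of_tphi (hm5 : 5 ≤ m) {l : B →ₗ[ℂ] ℂ} (hl : IsTan ρ l)
    (h1 : h.tphi Y 1 l = 0) (h3 : h.tphi Y 3 l = 0)
    (D : Type) [CommRing D] [Algebra ℂ D] (e : D) (he : e * e = 0) :
    CohSys.Iso (Y.map (tanHom D e he ρ 0 (IsTan.zero ρ))) (Y.map (tanHom D e he ρ l hl)) := by
  let c : Matrix (Fin 2) (Fin 2) ℂ :=
    !![h.tphi Y 4 l, h.tphi Y 2 l; h.tphi Y 0 l, 0]
  have key : ∀ j, h.phi (fun a => h.tnu Y a j l - ∑ b, algebraMap ℂ F (c a b) * h.S0 b j) =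
      0 := by
    intro j
    have e1 : (fun a => h.tnu Y a j l - ∑ b, algebraMap ℂ F (c a b) * h.S0 b j) =
        (LinearMap.pi fun a => h.tnu Y a j) l -
          (fun a => ∑ b, algebraMap ℂ F (c a b) * h.S0 b j) := rfl
    rw [e1, map_sub]
    change h.tphi Y j l - _ = 0
    rw [h.phi_apply]
    simp only [Fin.sum_univ_two, Algebra.algebraMap_eq_smul_one, smul_mul_assoc, one_mul, map_add,
      map_smul, c]
    fin_cases j
    · simp [S0, co_x]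
    · simp [S0, co_x2, h1]
    · simp [S0, co_1]
    · simp [S0, co_x2, h3]
    · simp [S0, co_x, co_1]
  have hmem : ∀ j a, h.tnu Y a j l - ∑ b, algebraMap ℂ F (c a b) * h.S0 b j ∈
      Sp h.lb (A0 ∩ A1 m 2) := by
    intro j a
    refine Submodule.sub_mem _ (h.tnu_mem ρ Y hY hm5 hl a j) ?_
    refine Submodule.sum_mem _ fun b _ => ?_
    rw [← Algebra.smul_def]
    exact Submodule.smul_mem _ _ (h.S0_mem_P (by omega) b j)
  choose p hp using fun j => h.exists_coeff (by omega) _ (hmem j) (key j)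
  have T0 : ∀ a j, h.tT0 Y a j l = (h.tP Y a 0 l + algebraMap ℂ F (c a 0)) * h.S0 0 j +
      (h.tP Y a 1 l + algebraMap ℂ F (c a 1)) * h.S0 1 j +
      ∑ i, h.S0 a i * algebraMap ℂ F (p j i) := by
    intro a j
    rw [← hp j a, h.tnu_apply, Fin.sum_univ_two]
    ring
  refine CohSys.iso_of_first_order D e he Y ρ l hl
    (Matrix.of fun a b => h.tP Y a b l + algebraMap ℂ F (c a b))
    (Matrix.of fun a b => h.tP Y a b l - h.tN Y a b l + algebraMap ℂ F (c a b))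
    (fun a b => h.U.add_mem (h.tP_mem Y l a b) (h.U.algebraMap_mem _))
    (fun a b => h.swap.U.add_mem (h.tP_sub_mem ρ Y hY hm5 hl a b) (h.swap.U.algebraMap_mem _))
    (Matrix.of fun i j => p j i) ?_ ?_ ?_
  · ext a b
    simp only [Matrix.add_apply, Matrix.map_apply, Matrix.mul_apply, Fin.sum_univ_two,
      h.ev_g ρ Y hY, Matrix.of_apply]
    change h.tG Y a b l + _ = _
    rw [h.tN_mul]
    fin_cases a <;> fin_cases b <;> simp <;> ring
  · ext a j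
    simp only [Matrix.add_apply, Matrix.map_apply, Matrix.mul_apply, Fin.sum_univ_two,
      h.ev_s0 ρ Y hY, Matrix.of_apply]
    exact T0 a j
  · ext a j
    simp only [Matrix.add_apply, Matrix.map_apply, Matrix.mul_apply, Fin.sum_univ_two,
      h.ev_s1 ρ Y hY, Matrix.of_apply]
    change h.tT1 Y a j l = (h.tP Y a 0 l - h.tN Y a 0 l + algebraMap ℂ F (c a 0)) *
      h.S1 0 j + (h.tP Y a 1 l - h.tN Y a 1 l + algebraMap ℂ F (c a 1)) * h.S1 1 j +
      ∑ i, h.S1 a i * algebraMap ℂ F (p j i)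
    have hx2 : h.x ^ 2 ≠ 0 := pow_ne_zero _ h.x_ne
    apply mul_left_cancel₀ hx2
    have e1 := T0 a j
    have e2 := h.t_glue ρ Y hY hl a j
    have e3 : h.x ^ 2 * ∑ i, h.S1 a i * algebraMap ℂ F (p j i) =
        ∑ i, h.S0 a i * algebraMap ℂ F (p j i) := by
      rw [Finset.mul_sum]
      refine Finset.sum_congr rfl fun i _ => ?_
      rw [h.S_glue, mul_assoc]
    rw [mul_add, e3]
    rw [h.S_glue 0 j, h.S_glue 1 j] at e1 e2
    linear_combination e1 - e2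

end tangent

/-- The tangent space to the moduli space at the coherent system has dimension at most two. -/
theorem tangentBound (hm : 0 < m) (hm5 : 5 ≤ m) : CohSys.TangentBound (h.sys hm) 2 := by
  intro B _ _ ρ Y hY hunr f hf hli
  let κ : (B →ₗ[ℂ] ℂ) →ₗ[ℂ] (Fin 2 → ℂ) := LinearMap.pi ![h.tphi Y 1, h.tphi Y 3]
  have hdep : ¬ LinearIndependent ℂ (κ ∘ f) := by
    intro hκ
    have := hκ.fintype_card_le_finrank
    rw [Module.finrank_fintype_fun_eq_card, Fintype.card_fin, Fintype.card_fin] at this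
    omega
  rw [Fintype.not_linearIndependent_iff] at hdep
  obtain ⟨c, hc, i, hi⟩ := hdep
  have hκ : κ (∑ i, c i • f i) = 0 := by
    rw [map_sum, ← hc]
    refine Finset.sum_congr rfl fun i _ => ?_
    rw [map_smul]; rfl
  have htan : IsTan ρ (∑ i, c i • f i) := IsTan.sum _ fun i => (hf i).smul (c i)
  have h1 : h.tphi Y 1 (∑ i, c i • f i) = 0 := congrFun hκ 0
  have h3 : h.tphi Y 3 (∑ i, c i • f i) = 0 := congrFun hκ 1
  have h0 := hunr _ htan (h.iso_of_tphi ρ Y hY hm5 htan h1 h3 _ _ _)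
  rw [Fintype.linearIndependent_iff] at hli
  exact hi (hli c h0 i)

theorem localDim_le (hm : 0 < m) (hm5 : 5 ≤ m) : (h.sys hm).localDim ≤ 2 :=
  CohSys.localDim_le (h.tangentBound hm hm5)

end Hyp

end Pool.Agent.Hhelper20.CS
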