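import Pool.Agent.Hhelper20.CS.Basic

open TensorProduct

namespace Pool.Agent.Hhelper20.CS

variable {F : Type} [Field F] [Algebra ℂ F]

section tan

variable {B : Type} [CommRing B] [Algebra ℂ B]

/-- Contract the first factor with a linear functional: `b ⊗ u ↦ l(b) u`. -/
noncomputable def Dl (l : B →ₗ[ℂ] ℂ) : B ⊗[ℂ] F →ₗ[ℂ] F :=
  (TensorProduct.lid ℂ F).toLinearMap ∘ₗ LinearMap.rTensor F l

@[simp] theorem Dl_tmul (l : B →ₗ[ℂ] ℂ) (b : B) (u : F) : Dl l (b ⊗ₜ[ℂ] u) = l b • u := by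
  simp [Dl]

theorem Dl_add (l l' : B →ₗ[ℂ] ℂ) (z : B ⊗[ℂ] F) : Dl (l + l') z = Dl l z + Dl l' z := by
  simp [Dl, LinearMap.rTensor_add]

theorem Dl_smul (c : ℂ) (l : B →ₗ[ℂ] ℂ) (z : B ⊗[ℂ] F) : Dl (c • l) z = c • Dl l z := by
  simp [Dl, LinearMap.rTensor_smul]

theorem Dl_zero (z : B ⊗[ℂ] F) : Dl (0 : B →ₗ[ℂ] ℂ) z = 0 := by
  simp [Dl]

theorem Dl_mem {U : Subalgebra ℂ F} (l : B →ₗ[ℂ] ℂ) {z : B ⊗[ℂ] F} (hz : z ∈ fn B U) :
    Dl l z ∈ U := by
  induction hz using AddSubmonoid.closure_induction with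
  | mem x hx =>
    obtain ⟨b, u, hu, rfl⟩ := hx
    rw [Dl_tmul]
    exact U.smul_mem hu _
  | zero => rw [map_zero]; exact U.zero_mem
  | add x y _ _ hx hy => rw [map_add]; exact U.add_mem hx hy

/-- `l` is a tangent vector at the point `ρ`. -/
def IsTan (ρ : B →ₐ[ℂ] ℂ) (l : B →ₗ[ℂ] ℂ) : Prop := ∀ a b, l (a * b) = ρ a * l b + l a * ρ b

theorem IsTan.one {ρ : B →ₐ[ℂ] ℂ} {l : B →ₗ[ℂ] ℂ} (h : IsTan ρ l) : l 1 = 0 := by
  have := h 1 1
  simp only [mul_one, map_one, one_mul] at this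
  linear_combination -this

theorem IsTan.zero (ρ : B →ₐ[ℂ] ℂ) : IsTan ρ 0 := by
  intro a b
  simp

theorem IsTan.add {ρ : B →ₐ[ℂ] ℂ} {l l' : B →ₗ[ℂ] ℂ} (h : IsTan ρ l) (h' : IsTan ρ l') :
    IsTan ρ (l + l') := by
  intro a b
  simp only [LinearMap.add_apply, h a b, h' a b]
  ring

theorem IsTan.smul {ρ : B →ₐ[ℂ] ℂ} {l : B →ₗ[ℂ] ℂ} (h : IsTan ρ l) (c : ℂ) :
    IsTan ρ (c • l) := by
  intro a b
  simp only [LinearMap.smul_apply, smul_eq_mul, h a b]
  ring

theorem IsTan.sum {ρ : B →ₐ[ℂ] ℂ} {ι : Type} (s : Finset ι) {f : ι → B →ₗ[ℂ] ℂ}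
    (h : ∀ i, IsTan ρ (f i)) : IsTan ρ (∑ i ∈ s, f i) := by
  classical
  induction s using Finset.induction_on with
  | empty => simpa using IsTan.zero ρ
  | insert i s hi ih => rw [Finset.sum_insert hi]; exact (h i).add ih

theorem Dl_mul {ρ : B →ₐ[ℂ] ℂ} {l : B →ₗ[ℂ] ℂ} (h : IsTan ρ l)
    (z w : B ⊗[ℂ] F) : Dl l (z * w) = ev ρ z * Dl l w + Dl l z * ev ρ w := by
  induction z with
  | zero => simp
  | add x y hx hy => rw [add_mul, map_add, hx, hy, map_add, map_add]; ring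
  | tmul b u =>
    induction w with
    | zero => simp
    | add x y hx hy => rw [mul_add, map_add, hx, hy, map_add, map_add]; ring
    | tmul c v =>
      rw [Algebra.TensorProduct.tmul_mul_tmul, Dl_tmul, Dl_tmul, Dl_tmul, ev_tmul, ev_tmul, h,
        smul_mul_smul_comm, smul_mul_smul_comm, add_smul]

theorem Dl_inL (l : B →ₗ[ℂ] ℂ) (b : B) : Dl l (inL F B b) = algebraMap ℂ F (l b) := by
  rw [inL_apply, Dl_tmul, Algebra.algebraMap_eq_smul_one]

theorem map_Dl_mul {ρ : B →ₐ[ℂ] ℂ} {l : B →ₗ[ℂ] ℂ} (hl : IsTan ρ l)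
    {p q r : Type} [Fintype q] (M : Matrix p q (B ⊗[ℂ] F)) (N : Matrix q r (B ⊗[ℂ] F)) :
    (M * N).map (Dl l) = M.map (ev ρ) * N.map (Dl l) + M.map (Dl l) * N.map (ev ρ) := by
  ext i j
  simp only [Matrix.map_apply, Matrix.mul_apply, Matrix.add_apply, map_sum, Dl_mul hl,
    Finset.sum_add_distrib]

variable (D : Type) [CommRing D] [Algebra ℂ D] (e : D) (he : e * e = 0)

/-- The homomorphism `b ↦ ρ(b) + l(b) e` given by a tangent vector. -/
noncomputable def tanHom (ρ : B →ₐ[ℂ] ℂ) (l : B →ₗ[ℂ] ℂ) (h : IsTan ρ l) : B →ₐ[ℂ] D :=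
  AlgHom.ofLinearMap
    ((Algebra.linearMap ℂ D) ∘ₗ ρ.toLinearMap + (LinearMap.toSpanSingleton ℂ D e) ∘ₗ l)
    (by
      simp [h.one])
    (by
      intro a b
      simp only [LinearMap.add_apply, LinearMap.coe_comp, Function.comp_apply,
        AlgHom.toLinearMap_apply, Algebra.linearMap_apply, LinearMap.toSpanSingleton_apply,
        map_mul, h a b]
      simp only [Algebra.smul_def, map_add, map_mul]
      linear_combination (-(algebraMap ℂ D (l a)) * algebraMap ℂ D (l b)) * he)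

theorem tanHom_apply (ρ : B →ₐ[ℂ] ℂ) (l : B →ₗ[ℂ] ℂ) (h : IsTan ρ l) (b : B) :
    tanHom D e he ρ l h b = algebraMap ℂ D (ρ b) + l b • e := rfl

/-- The element `a + e b` of `D ⊗ F`. -/
noncomputable def dn (a b : F) : D ⊗[ℂ] F :=
  (1 : D) ⊗ₜ a + e ⊗ₜ b

theorem dn_add (a b c d : F) :
    dn D e a b + dn D e c d = dn D e (a + c) (b + d) := by
  simp only [dn, TensorProduct.tmul_add]
  abel

theorem dn_zero : dn D e (0 : F) 0 = 0 := by
  simp [dn]

include he in
theorem dn_mul (a b c d : F) :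
    dn D e a b * dn D e c d = dn D e (a * c) (a * d + b * c) := by
  simp only [dn, TensorProduct.tmul_add, add_mul, mul_add, Algebra.TensorProduct.tmul_mul_tmul,
    one_mul, mul_one, he, TensorProduct.zero_tmul]
  abel

theorem dn_sum {ι : Type} (s : Finset ι) (a b : ι → F) :
    ∑ i ∈ s, dn D e (a i) (b i) = dn D e (∑ i ∈ s, a i) (∑ i ∈ s, b i) := by
  classical
  induction s using Finset.induction_on with
  | empty => simp [dn_zero]
  | insert x s hx ih => rw [Finset.sum_insert hx, ih, dn_add, Finset.sum_insert hx,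
      Finset.sum_insert hx]

theorem dn_mem {U : Subalgebra ℂ F} {a b : F} (ha : a ∈ U) (hb : b ∈ U) :
    dn D e a b ∈ fn D U :=
  AddSubmonoid.add_mem _ (tmul_mem_fn _ ha) (tmul_mem_fn _ hb)

theorem bc_tanHom (ρ : B →ₐ[ℂ] ℂ) (l : B →ₗ[ℂ] ℂ) (h : IsTan ρ l)
    (z : B ⊗[ℂ] F) : bc (tanHom D e he ρ l h) z = dn D e (ev ρ z) (Dl l z) := by
  induction z with
  | zero => simp [dn_zero]
  | add x y hx hy => rw [map_add, hx, hy, dn_add, map_add, map_add]
  | tmul b u =>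
    rw [ev_tmul, Dl_tmul, bc_tmul, tanHom_apply, dn]
    rw [TensorProduct.add_tmul, Algebra.algebraMap_eq_smul_one, TensorProduct.smul_tmul,
      TensorProduct.smul_tmul]

theorem inL_dn (c d : ℂ) :
    inL F D (algebraMap ℂ D c + d • e) = dn D e (algebraMap ℂ F c) (algebraMap ℂ F d) := by
  rw [inL_apply, dn, TensorProduct.add_tmul, Algebra.algebraMap_eq_smul_one,
    TensorProduct.smul_tmul, TensorProduct.smul_tmul, Algebra.algebraMap_eq_smul_one,
    Algebra.algebraMap_eq_smul_one]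

/-- The matrix `A + e A'`. -/
noncomputable def dnM {p q : Type} (A A' : Matrix p q F) :
    Matrix p q (D ⊗[ℂ] F) := Matrix.of fun i j => dn D e (A i j) (A' i j)

theorem dnM_apply {p q : Type} (A A' : Matrix p q F) (i : p) (j : q) :
    dnM D e A A' i j = dn D e (A i j) (A' i j) := rfl

include he in
theorem dnM_mul {p q r : Type} [Fintype q] (A A' : Matrix p q F)
    (M M' : Matrix q r F) :
    dnM D e A A' * dnM D e M M' = dnM D e (A * M) (A * M' + A' * M) := by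
  ext i j
  simp only [Matrix.mul_apply, dnM_apply, dn_mul D e he, dn_sum, Matrix.add_apply,
    Finset.sum_add_distrib]

theorem dnM_one {p : Type} [DecidableEq p] :
    dnM D e (1 : Matrix p p F) 0 = 1 := by
  ext i j
  simp only [dnM_apply, Matrix.zero_apply, Matrix.one_apply]
  split_ifs
  · simp [dn, Algebra.TensorProduct.one_def]
  · simp [dn]

/-- The invertible matrix `1 + e A`. -/
noncomputable def dnGL {n : ℕ} (A : Matrix (Fin n) (Fin n) F) :
    GL (Fin n) (D ⊗[ℂ] F) where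
  val := dnM D e 1 A
  inv := dnM D e 1 (-A)
  val_inv := by
    rw [dnM_mul D e he, Matrix.one_mul, Matrix.one_mul, Matrix.mul_one, neg_add_cancel, dnM_one]
  inv_val := by
    rw [dnM_mul D e he, Matrix.one_mul, Matrix.one_mul, Matrix.mul_one, add_neg_cancel, dnM_one]

theorem dnGL_over {U : Subalgebra ℂ F} {n : ℕ} {A : Matrix (Fin n) (Fin n) F}
    (hA : ∀ i j, A i j ∈ U) : GOver U (dnGL D e he A) := by
  have h1 : ∀ i j, (1 : Matrix (Fin n) (Fin n) F) i j ∈ U := by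
    intro i j
    rw [Matrix.one_apply]
    split_ifs
    · exact U.one_mem
    · exact U.zero_mem
  exact ⟨fun i j => dn_mem D e (h1 i j) (hA i j),
    fun i j => dn_mem D e (h1 i j) (U.neg_mem (hA i j))⟩

/-- The matrix `A + e A'` over `D`. -/
noncomputable def dM {p q : Type} (A A' : Matrix p q ℂ) : Matrix p q D :=
  Matrix.of fun i j => algebraMap ℂ D (A i j) + A' i j • e

theorem dM_apply {p q : Type} (A A' : Matrix p q ℂ) (i : p) (j : q) :
    dM D e A A' i j = algebraMap ℂ D (A i j) + A' i j • e := rfl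

include he in
theorem dM_mul {p q r : Type} [Fintype q] (A A' : Matrix p q ℂ) (M M' : Matrix q r ℂ) :
    dM D e A A' * dM D e M M' = dM D e (A * M) (A * M' + A' * M) := by
  ext i j
  simp only [Matrix.mul_apply, dM_apply, Matrix.add_apply, map_sum, Finset.sum_smul, add_smul,
    ← Finset.sum_add_distrib]
  refine Finset.sum_congr rfl fun x _ => ?_
  simp only [Algebra.smul_def, map_mul]
  linear_combination (algebraMap ℂ D (A' i x) * algebraMap ℂ D (M' x j)) * he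

theorem dM_one {p : Type} [DecidableEq p] : dM D e (1 : Matrix p p ℂ) 0 = 1 := by
  ext i j
  simp only [dM_apply, Matrix.zero_apply, Matrix.one_apply]
  split_ifs <;> simp

/-- The invertible matrix `1 + e A` over `D`. -/
noncomputable def dGL {n : ℕ} (A : Matrix (Fin n) (Fin n) ℂ) : GL (Fin n) D where
  val := dM D e 1 A
  inv := dM D e 1 (-A)
  val_inv := by
    rw [dM_mul D e he, Matrix.one_mul, Matrix.one_mul, Matrix.mul_one, neg_add_cancel, dM_one]
  inv_val := by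
    rw [dM_mul D e he, Matrix.one_mul, Matrix.one_mul, Matrix.mul_one, add_neg_cancel, dM_one]

end tan

namespace CohSys

variable {C : Curve F} {B : Type} [CommRing B] [Algebra ℂ B] {n k : ℕ}

/-- First order criterion: if the first order part of `Y` along a tangent vector `l` is a
coboundary, then the induced family over `D` is isomorphic to the constant one. -/
theorem iso_of_first_order (D : Type) [CommRing D] [Algebra ℂ D] (e : D) (he : e * e = 0)
    (Y : CohSys C B n k) (ρ : B →ₐ[ℂ] ℂ) (l : B →ₗ[ℂ] ℂ) (hl : IsTan ρ l)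
    (P0 : Matrix (Fin n) (Fin n) F) (P1 : Matrix (Fin n) (Fin n) F)
    (hP0 : ∀ i j, P0 i j ∈ C.U0) (hP1 : ∀ i j, P1 i j ∈ C.U1)
    (p : Matrix (Fin k) (Fin k) ℂ)
    (hg : Y.g.val.map (Dl l) + Y.g.val.map (ev ρ) * P1 = P0 * Y.g.val.map (ev ρ))
    (hs0 : Y.s0.map (Dl l) = P0 * Y.s0.map (ev ρ) + Y.s0.map (ev ρ) * p.map (algebraMap ℂ F))
    (hs1 : Y.s1.map (Dl l) = P1 * Y.s1.map (ev ρ) + Y.s1.map (ev ρ) * p.map (algebraMap ℂ F)) :
    Iso (Y.map (tanHom D e he ρ 0 (IsTan.zero ρ))) (Y.map (tanHom D e he ρ l hl)) := by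
  have bM : ∀ (l : B →ₗ[ℂ] ℂ) (hl : IsTan ρ l) {a b : Type}
      (M : Matrix a b (B ⊗[ℂ] F)), M.map (bc (tanHom D e he ρ l hl)) =
        dnM D e (M.map (ev ρ)) (M.map (Dl l)) := by
    intro l hl a b M
    ext i j
    exact bc_tanHom D e he ρ l hl _
  have b0 : ∀ {a b : Type} (M : Matrix a b (B ⊗[ℂ] F)),
      M.map (Dl (0 : B →ₗ[ℂ] ℂ)) = 0 := by
    intro a b M
    ext i j
    simp [Dl_zero]
  have aM : ∀ {a b : Type} (A A' : Matrix a b ℂ),
      (dM D e A A').map (inL F D) =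
        dnM D e (A.map (algebraMap ℂ F)) (A'.map (algebraMap ℂ F)) := by
    intro a b A A'
    ext i j
    exact inL_dn D e _ _
  refine ⟨dnGL D e he P0, dnGL D e he P1, dGL D e he p, dnGL_over D e he hP0,
    dnGL_over D e he hP1, ?_, ?_, ?_⟩
  · change Y.g.val.map (bc (tanHom D e he ρ l hl)) * dnM D e 1 P1 =
      dnM D e 1 P0 * Y.g.val.map (bc (tanHom D e he ρ 0 (IsTan.zero ρ)))
    rw [bM, bM, b0, dnM_mul D e he, dnM_mul D e he,
      Matrix.mul_one, Matrix.one_mul, Matrix.mul_zero, Matrix.mul_one, zero_add, ← hg, add_comm]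
  · change Y.s0.map (bc (tanHom D e he ρ l hl)) = dnM D e 1 P0 *
      Y.s0.map (bc (tanHom D e he ρ 0 (IsTan.zero ρ))) * (dM D e 1 p).map (inL F D)
    rw [bM, bM, aM, b0, dnM_mul D e he, dnM_mul D e he,
      Matrix.map_one _ (map_zero _) (map_one _),
      Matrix.mul_one, Matrix.one_mul, Matrix.mul_zero, Matrix.mul_one, zero_add, hs0, add_comm]
  · change Y.s1.map (bc (tanHom D e he ρ l hl)) = dnM D e 1 P1 *
      Y.s1.map (bc (tanHom D e he ρ 0 (IsTan.zero ρ))) * (dM D e 1 p).map (inL F D)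
    rw [bM, bM, aM, b0, dnM_mul D e he, dnM_mul D e he,
      Matrix.map_one _ (map_zero _) (map_one _),
      Matrix.mul_one, Matrix.one_mul, Matrix.mul_zero, Matrix.mul_one, zero_add, hs1, add_comm]

end CohSys

end Pool.Agent.Hhelper20.CS
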